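import Pool.Agent.Helper33.KV.GoalsF
import Pool.Agent.Helper38.KV.PR

/-!
Packet KV-F-IDL (MP_66be51_an, helper33): pointwise identities.
-/

namespace Pool.Agent.Helper77.KV

open Real MeasureTheory Pool.Agent.Helper41.KV Pool.Agent.Helper33.KV

/-- derivatives of a smooth function -/
theorem sm0 {f : ℝ → ℝ} (hf : ContDiff ℝ (⊤ : ℕ∞) f) (y : ℝ) : HasDerivAt f (deriv f y) y :=
  ((hf.differentiable (by simp)) y).hasDerivAt

theorem sm1 {f : ℝ → ℝ} (hf : ContDiff ℝ (⊤ : ℕ∞) f) : ContDiff ℝ (⊤ : ℕ∞) (deriv f) := by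
  have h : ContDiff ℝ (((⊤ : ℕ∞) : WithTop ℕ∞) + 1) f := by
    simpa using hf
  exact ((contDiff_succ_iff_deriv (𝕜 := ℝ)).mp h).2.2

theorem tanh_smooth : ContDiff ℝ (⊤ : ℕ∞) (fun y : ℝ => Real.tanh (2 * y)) := by
  have h : (fun y : ℝ => Real.tanh (2 * y)) = fun y => Real.sinh (2 * y) / Real.cosh (2 * y) := by
    funext y; rw [Real.tanh_eq_sinh_div_cosh]
  rw [h]
  apply ContDiff.div
  · exact Real.contDiff_sinh.comp (contDiff_const.mul contDiff_id)
  · exact Real.contDiff_cosh.comp (contDiff_const.mul contDiff_id)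
  · intro y
    exact (Real.cosh_pos _).ne'

theorem Z_smooth {Z : ℝ → ℝ} (hZ : IsZ1 Z) : ContDiff ℝ (⊤ : ℕ∞) Z := by
  have h := hZ.tail.1.add tanh_smooth
  have e : (fun y => Z y - Real.tanh (2 * y) + Real.tanh (2 * y)) = Z := by
    funext y
    simp
  rwa [e] at h

theorem V_smooth {α : ℝ} {Z V : ℝ → ℝ} (hV : IsV2 α Z V) : ContDiff ℝ (⊤ : ℕ∞) V := by
  obtain ⟨p, q, h⟩ := hV.tail
  have h1 : ContDiff ℝ (⊤ : ℕ∞) (fun y => (p + q * Real.tanh (2 * y)) +
      cc α * y * Real.tanh (2 * y)) :=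
    (contDiff_const.add (contDiff_const.mul tanh_smooth)).add
      ((contDiff_const.mul contDiff_id).mul tanh_smooth)
  have h2 := h.1.add h1
  have e : (fun y => V y - (p + q * Real.tanh (2 * y)) - cc α * y * Real.tanh (2 * y) +
      ((p + q * Real.tanh (2 * y)) + cc α * y * Real.tanh (2 * y))) = V := by
    funext y
    ring
  rwa [e] at h2

/-- derivative of `Lop` -/
theorem Lop_deriv (hQ : S_QF) {f f1 f2 f3 : ℝ → ℝ} (h0 : ∀ y, HasDerivAt f (f1 y) y)
    (h1 : ∀ y, HasDerivAt f1 (f2 y) y) (h2 : ∀ y, HasDerivAt f2 (f3 y) y) (y : ℝ) :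
    Lop f y = - f2 y + f y - 5 * Q y ^ 4 * f y ∧
    HasDerivAt (Lop f) (- f3 y + f1 y - (20 * Q y ^ 3 * deriv Q y * f y + 5 * Q y ^ 4 * f1 y)) y := by
  have e1 : deriv f = f1 := funext fun y => (h0 y).deriv
  have e2 : deriv f1 = f2 := funext fun y => (h1 y).deriv
  have e : Lop f = fun y => - f2 y + f y - 5 * Q y ^ 4 * f y := by
    funext y
    unfold Lop
    rw [e1, e2]
  refine ⟨by rw [e], ?_⟩
  rw [e]
  have hq := Pool.Agent.Helper38.KV.Q_d hQ y
  have h := ((h2 y).neg.add (h0 y)).sub ((((hq.pow 4).const_mul 5)).mul (h0 y))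
  refine HasDerivAt.congr_deriv (f := fun y => - f2 y + f y - 5 * Q y ^ 4 * f y) h ?_
  simp only [Pi.pow_apply]
  push_cast
  ring

theorem IQ_pos (hQ : S_QF) (hE : S_ECL1) : 0 < IQ := by
  unfold IQ
  have hi : Integrable Q := Pool.Agent.Helper38.KV.E_int hE (Pool.Agent.Helper38.KV.isE_Q hQ)
  rw [integral_pos_iff_support_of_nonneg (fun y => (hQ.2.1 y).le) hi]
  have : Function.support Q = Set.univ := by
    ext y
    simp [(hQ.2.1 y).ne']
  rw [this]
  simp

theorem thm_IDL (hQ : S_QF) (hE : S_ECL1) (_hP : S_PR) : S_IDL := by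
  intro α Z Y V hZ hY hV
  have hκ : kap α * (4 / IQ) = 2 * α + 1 := by
    have := (IQ_pos hQ hE).ne'
    unfold kap
    field_simp
  set m : ℝ := 4 / IQ with hm
  set κ : ℝ := kap α with hκd
  have hLL := Pool.Agent.Helper38.KV.Lop_Lam hQ hE
  have hZs := Z_smooth hZ
  have hVs := V_smooth hV
  -- derivatives
  have q0 := Pool.Agent.Helper38.KV.Q_d hQ
  have q1 := Pool.Agent.Helper38.KV.Q_dd hQ hE
  have z0 := sm0 hZs
  have z1 := sm0 (sm1 hZs)
  have z2 := sm0 (sm1 (sm1 hZs))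
  have v0 := sm0 hVs
  have v1 := sm0 (sm1 hVs)
  have v2 := sm0 (sm1 (sm1 hVs))
  have v3 := sm0 (sm1 (sm1 (sm1 hVs)))
  -- the derivative of ΛQ
  have hLamQ : ∀ y, HasDerivAt (Lam Q) (3 / 2 * deriv Q y + y * (Q y - Q y ^ 5)) y := by
    intro y
    have h : HasDerivAt (Lam Q) (deriv Q y / 2 + (1 * deriv Q y + y * (Q y - Q y ^ 5))) y :=
      ((q0 y).div_const 2).add ((hasDerivAt_id y).mul (q1 y))
    exact h.congr_deriv (by ring)
  -- (a)
  have hz3 : ∀ y, deriv (deriv (deriv Z)) y = deriv Z y - 5 * Q y ^ 4 * deriv Z y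
      - 20 * Q y ^ 3 * deriv Q y * Z y + m * Lam Q y := by
    intro y
    have h1 := (Lop_deriv hQ z0 z1 z2 y).2
    have h2 := hZ.eqn y
    have h3 := h1.unique h2
    rw [← hm] at h3
    linarith
  have ha : ∀ y, Lop (deriv Z) y = 20 * Q y ^ 3 * deriv Q y * Z y - m * Lam Q y := by
    intro y
    have h := hz3 y
    unfold Lop
    linarith
  have hz4 : ∀ y, HasDerivAt (deriv (deriv (deriv Z))) (deriv (deriv Z) y
      - (20 * Q y ^ 3 * deriv Q y * deriv Z y + 5 * Q y ^ 4 * deriv (deriv Z) y)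
      - (60 * Q y ^ 2 * deriv Q y ^ 2 * Z y + 20 * Q y ^ 3 * (Q y - Q y ^ 5) * Z y
        + 20 * Q y ^ 3 * deriv Q y * deriv Z y)
      + m * (3 / 2 * deriv Q y + y * (Q y - Q y ^ 5))) y := by
    intro y
    have e : deriv (deriv (deriv Z)) = fun y => deriv Z y - 5 * Q y ^ 4 * deriv Z y
      - 20 * Q y ^ 3 * deriv Q y * Z y + m * Lam Q y := funext hz3
    rw [e]
    have h := (((z1 y).sub ((((q0 y).pow 4).const_mul 5).mul (z1 y))).sub
      (((((q0 y).pow 3).const_mul 20).mul (q1 y)).mul (z0 y))).add ((hLamQ y).const_mul m)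
    refine HasDerivAt.congr_deriv (f := fun y => deriv Z y - 5 * Q y ^ 4 * deriv Z y
      - 20 * Q y ^ 3 * deriv Q y * Z y + m * Lam Q y) h ?_
    simp only [Pi.mul_apply, Pi.pow_apply]
    push_cast
    ring
  -- derivative of Lop Z'
  have hLZ' : ∀ y, HasDerivAt (Lop (deriv Z)) (60 * Q y ^ 2 * deriv Q y ^ 2 * Z y
      + 20 * Q y ^ 3 * (Q y - Q y ^ 5) * Z y + 20 * Q y ^ 3 * deriv Q y * deriv Z y
      - m * (3 / 2 * deriv Q y + y * (Q y - Q y ^ 5))) y := by
    intro y
    have e : Lop (deriv Z) = fun y => 20 * Q y ^ 3 * deriv Q y * Z y - m * Lam Q y := funext ha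
    rw [e]
    have h := (((((q0 y).pow 3).const_mul 20).mul (q1 y)).mul (z0 y)).sub ((hLamQ y).const_mul m)
    refine HasDerivAt.congr_deriv (f := fun y => 20 * Q y ^ 3 * deriv Q y * Z y - m * Lam Q y) h ?_
    simp only [Pi.mul_apply, Pi.pow_apply]
    push_cast
    ring
  -- (f)
  have hf : ∀ y, Lop (deriv Q) y = 0 := by
    intro y
    have e1 : deriv (deriv Q) = fun y => Q y - Q y ^ 5 := funext fun y => (q1 y).deriv
    have h : HasDerivAt (fun y => Q y - Q y ^ 5) (deriv Q y - 5 * Q y ^ 4 * deriv Q y) y := by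
      have h := (q0 y).sub ((q0 y).pow 5)
      refine HasDerivAt.congr_deriv (f := fun y => Q y - Q y ^ 5) h ?_
      push_cast
      ring
    unfold Lop
    rw [e1, h.deriv]
    ring
  refine ⟨ha, ?_, ?_, ?_, ?_, hf⟩
  · -- (b)
    intro y
    have e : deriv Y = fun y => deriv Z y + m * Lam Q y := funext fun y => (hY.eqn y).deriv
    have hL : Lop (deriv Y) y = Lop (deriv Z) y + m * Lop (Lam Q) y := by
      have l1 : ∀ y, HasDerivAt (deriv (Lam Q)) (deriv (deriv (Lam Q)) y) y := by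
        intro y
        have := Pool.Agent.Helper38.KV.isE_Lam hQ hE
        exact sm0 (sm1 this.1) y
      have d1 : deriv (fun y => deriv Z y + m * Lam Q y) =
          fun y => deriv (deriv Z) y + m * deriv (Lam Q) y := by
        funext y
        have h : HasDerivAt (fun y => deriv Z y + m * Lam Q y) _ y :=
          (z1 y).add ((hLamQ y).const_mul m)
        rw [h.deriv, (hLamQ y).deriv]
      have d2 : deriv (fun y => deriv (deriv Z) y + m * deriv (Lam Q) y) =
          fun y => deriv (deriv (deriv Z)) y + m * deriv (deriv (Lam Q)) y := by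
        funext y
        have h : HasDerivAt (fun y => deriv (deriv Z) y + m * deriv (Lam Q) y) _ y :=
          (z2 y).add ((l1 y).const_mul m)
        rw [h.deriv]
      unfold Lop
      rw [e, d1, d2]
      ring
    rw [hL, ha, hLL, ← hκ]
    ring
  · -- (c)
    intro y
    have f0 : ∀ y, HasDerivAt (fun x => x * deriv Z x) (deriv Z y + y * deriv (deriv Z) y) y := by
      intro y
      have h := (hasDerivAt_id y).mul (z1 y)
      refine HasDerivAt.congr_deriv (f := fun x => x * deriv Z x) h ?_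
      simp
    have f1 : ∀ y, HasDerivAt (fun y => deriv Z y + y * deriv (deriv Z) y)
        (2 * deriv (deriv Z) y + y * deriv (deriv (deriv Z)) y) y := by
      intro y
      have h := (z1 y).add ((hasDerivAt_id y).mul (z2 y))
      refine HasDerivAt.congr_deriv (f := fun y => deriv Z y + y * deriv (deriv Z) y) h ?_
      simp only [id]
      ring
    have f2 : ∀ y, HasDerivAt (fun y => 2 * deriv (deriv Z) y + y * deriv (deriv (deriv Z)) y)
        (3 * deriv (deriv (deriv Z)) y + y * (deriv (deriv Z) y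
      - (20 * Q y ^ 3 * deriv Q y * deriv Z y + 5 * Q y ^ 4 * deriv (deriv Z) y)
      - (60 * Q y ^ 2 * deriv Q y ^ 2 * Z y + 20 * Q y ^ 3 * (Q y - Q y ^ 5) * Z y
        + 20 * Q y ^ 3 * deriv Q y * deriv Z y)
      + m * (3 / 2 * deriv Q y + y * (Q y - Q y ^ 5)))) y := by
      intro y
      have h := ((z2 y).const_mul 2).add ((hasDerivAt_id y).mul (hz4 y))
      refine HasDerivAt.congr_deriv
        (f := fun y => 2 * deriv (deriv Z) y + y * deriv (deriv (deriv Z)) y) h ?_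
      simp only [id]
      ring
    have h1 := (Lop_deriv hQ f0 f1 f2 y).2
    have h2 : HasDerivAt (fun x => 20 * Q x ^ 3 * Z x * Lam Q x)
        (60 * Q y ^ 2 * deriv Q y * Z y * Lam Q y + 20 * Q y ^ 3 * deriv Z y * Lam Q y
          + 20 * Q y ^ 3 * Z y * (3 / 2 * deriv Q y + y * (Q y - Q y ^ 5))) y := by
      have h := ((((q0 y).pow 3).const_mul 20).mul (z0 y)).mul (hLamQ y)
      refine HasDerivAt.congr_deriv (f := fun x => 20 * Q x ^ 3 * Z x * Lam Q x) h ?_
      simp only [Pi.mul_apply, Pi.pow_apply]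
      push_cast
      ring
    rw [h1.deriv, h2.deriv, hz3]
    have e1 : Lam (Lam Q) y = Lam Q y / 2 + y * (3 / 2 * deriv Q y + y * (Q y - Q y ^ 5)) := by
      show Lam Q y / 2 + y * deriv (Lam Q) y = _
      rw [(hLamQ y).deriv]
    rw [e1]
    have e2 : Lam Q y = Q y / 2 + y * deriv Q y := rfl
    rw [e2]
    ring
  · -- (d)
    intro y
    have h2 : HasDerivAt (fun x => 20 * Q x ^ 3 * (κ * Z x) * deriv Q x)
        (κ * (60 * Q y ^ 2 * deriv Q y ^ 2 * Z y + 20 * Q y ^ 3 * deriv Z y * deriv Q y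
          + 20 * Q y ^ 3 * Z y * (Q y - Q y ^ 5))) y := by
      have h := ((((q0 y).pow 3).const_mul 20).mul ((z0 y).const_mul κ)).mul (q1 y)
      refine HasDerivAt.congr_deriv (f := fun x => 20 * Q x ^ 3 * (κ * Z x) * deriv Q x) h ?_
      simp only [Pi.mul_apply, Pi.pow_apply]
      push_cast
      ring
    rw [(hLZ' y).deriv, h2.deriv]
    have e1 : Lam (deriv Q) y = deriv Q y / 2 + y * (Q y - Q y ^ 5) := by
      show deriv Q y / 2 + y * deriv (deriv Q) y = _
      rw [(q1 y).deriv]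
    rw [e1, ← hκ]
    ring
  · -- (e)
    intro y
    -- the equation of V and its derivative
    have g1 : ∀ y, HasDerivAt (fun x => 10 * Q x ^ 3 * (κ * Z x) ^ 2)
        (κ ^ 2 * (30 * Q y ^ 2 * deriv Q y * Z y ^ 2 + 20 * Q y ^ 3 * Z y * deriv Z y)) y := by
      intro y
      have h := (((q0 y).pow 3).const_mul 10).mul (((z0 y).const_mul κ).pow 2)
      refine HasDerivAt.congr_deriv (f := fun x => 10 * Q x ^ 3 * (κ * Z x) ^ 2) h ?_
      simp only [Pi.mul_apply, Pi.pow_apply]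
      push_cast
      ring
    have hv3 : ∀ y, deriv (deriv (deriv V)) y = deriv V y
        - (20 * Q y ^ 3 * deriv Q y * V y + 5 * Q y ^ 4 * deriv V y)
        - (2 * α * κ * Z y + κ ^ 2 * (30 * Q y ^ 2 * deriv Q y * Z y ^ 2
          + 20 * Q y ^ 3 * Z y * deriv Z y) - (2 * α + 1) * κ * (Z y / 2 + y * deriv Z y)) := by
      intro y
      have h1 := (Lop_deriv hQ v0 v1 v2 y).2
      have h2 := hV.eqn y
      rw [(g1 y).deriv] at h2
      have h3 := h1.unique h2
      have e : Lam Z y = Z y / 2 + y * deriv Z y := rfl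
      rw [e] at h3
      linarith
    have hv4 : HasDerivAt (deriv (deriv (deriv V))) (deriv (deriv V) y
        - (60 * Q y ^ 2 * deriv Q y ^ 2 * V y + 20 * Q y ^ 3 * (Q y - Q y ^ 5) * V y
          + 20 * Q y ^ 3 * deriv Q y * deriv V y
          + (20 * Q y ^ 3 * deriv Q y * deriv V y + 5 * Q y ^ 4 * deriv (deriv V) y))
        - (2 * α * κ * deriv Z y
          + κ ^ 2 * ((60 * Q y * deriv Q y ^ 2 * Z y ^ 2 + 30 * Q y ^ 2 * (Q y - Q y ^ 5) * Z y ^ 2
            + 60 * Q y ^ 2 * deriv Q y * Z y * deriv Z y)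
            + (60 * Q y ^ 2 * deriv Q y * Z y * deriv Z y + 20 * Q y ^ 3 * deriv Z y ^ 2
              + 20 * Q y ^ 3 * Z y * deriv (deriv Z) y))
          - (2 * α + 1) * κ * (3 / 2 * deriv Z y + y * deriv (deriv Z) y))) y := by
      have e : deriv (deriv (deriv V)) = fun y => deriv V y
        - (20 * Q y ^ 3 * deriv Q y * V y + 5 * Q y ^ 4 * deriv V y)
        - (2 * α * κ * Z y + κ ^ 2 * (30 * Q y ^ 2 * deriv Q y * Z y ^ 2
          + 20 * Q y ^ 3 * Z y * deriv Z y) - (2 * α + 1) * κ * (Z y / 2 + y * deriv Z y)) :=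
        funext hv3
      rw [e]
      have a1 := ((((q0 y).pow 3).const_mul 20).mul (q1 y)).mul (v0 y)
      have a2 := (((q0 y).pow 4).const_mul 5).mul (v1 y)
      have a3 := ((((q0 y).pow 2).const_mul 30).mul (q1 y)).mul ((z0 y).pow 2)
      have a4 := ((((q0 y).pow 3).const_mul 20).mul (z0 y)).mul (z1 y)
      have a5 := ((z0 y).div_const 2).add ((hasDerivAt_id y).mul (z1 y))
      have h := (((v1 y).sub (a1.add a2))).sub ((((z0 y).const_mul (2 * α * κ)).add
        ((a3.add a4).const_mul (κ ^ 2))).sub (a5.const_mul ((2 * α + 1) * κ)))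
      refine HasDerivAt.congr_deriv (f := fun y => deriv V y
        - (20 * Q y ^ 3 * deriv Q y * V y + 5 * Q y ^ 4 * deriv V y)
        - (2 * α * κ * Z y + κ ^ 2 * (30 * Q y ^ 2 * deriv Q y * Z y ^ 2
          + 20 * Q y ^ 3 * Z y * deriv Z y) - (2 * α + 1) * κ * (Z y / 2 + y * deriv Z y))) h ?_
      simp only [Pi.mul_apply, Pi.pow_apply, id]
      push_cast
      ring
    -- Lop (V' - c Z)
    set c : ℝ := cc α with hc
    have w0 : ∀ y, HasDerivAt (fun x => deriv V x - c * Z x) (deriv (deriv V) y - c * deriv Z y) y :=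
      fun y => (v1 y).sub ((z0 y).const_mul c)
    have w1 : ∀ y, HasDerivAt (fun x => deriv (deriv V) x - c * deriv Z x)
        (deriv (deriv (deriv V)) y - c * deriv (deriv Z) y) y :=
      fun y => (v2 y).sub ((z1 y).const_mul c)
    have w2 : ∀ y, HasDerivAt (fun x => deriv (deriv (deriv V)) x - c * deriv (deriv Z) x)
        (deriv (deriv (deriv (deriv V))) y - c * deriv (deriv (deriv Z)) y) y :=
      fun y => (v3 y).sub ((z2 y).const_mul c)
    have h1 := (Lop_deriv hQ w0 w1 w2 y).2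
    have h2 : HasDerivAt (fun x => 20 * Q x ^ 3 * κ ^ 2 * Z x * deriv Z x)
        (κ ^ 2 * (60 * Q y ^ 2 * deriv Q y * Z y * deriv Z y + 20 * Q y ^ 3 * deriv Z y ^ 2
          + 20 * Q y ^ 3 * Z y * deriv (deriv Z) y)) y := by
      have h := (((((q0 y).pow 3).const_mul 20).mul_const (κ ^ 2)).mul (z0 y)).mul (z1 y)
      refine HasDerivAt.congr_deriv (f := fun x => 20 * Q x ^ 3 * κ ^ 2 * Z x * deriv Z x) h ?_
      simp only [Pi.mul_apply, Pi.pow_apply]
      push_cast
      ring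
    have h3 : HasDerivAt (fun x => (20 * Q x ^ 3 * V x + 30 * Q x ^ 2 * (κ * Z x) ^ 2) * deriv Q x)
        ((60 * Q y ^ 2 * deriv Q y * V y + 20 * Q y ^ 3 * deriv V y
          + κ ^ 2 * (60 * Q y * deriv Q y * Z y ^ 2 + 60 * Q y ^ 2 * Z y * deriv Z y)) * deriv Q y
          + (20 * Q y ^ 3 * V y + 30 * Q y ^ 2 * (κ * Z y) ^ 2) * (Q y - Q y ^ 5)) y := by
      have h := (((((q0 y).pow 3).const_mul 20).mul (v0 y)).add
        ((((q0 y).pow 2).const_mul 30).mul (((z0 y).const_mul κ).pow 2))).mul (q1 y)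
      refine HasDerivAt.congr_deriv
        (f := fun x => (20 * Q x ^ 3 * V x + 30 * Q x ^ 2 * (κ * Z x) ^ 2) * deriv Q x) h ?_
      simp only [Pi.mul_apply, Pi.pow_apply, Pi.add_apply]
      push_cast
      ring
    have e1 : Lam (deriv Z) y = deriv Z y / 2 + y * deriv (deriv Z) y := rfl
    rw [h1.deriv, h2.deriv, h3.deriv, hv4.deriv, hz3, e1]
    ring

end Pool.Agent.Helper77.KV
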