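import Pool.Agent.Helper77.KV.UBD

/-!
Packet KV-UB (MP_66be51_an, helper41): pointwise bounds of `v - Q`.
-/

namespace Pool.Agent.Helper77.KV

open Real MeasureTheory Pool.Agent.Helper41.KV Pool.Agent.Helper33.KV

/-- consequences of joint smoothness -/
theorem joint {v : ℝ → ℝ → ℝ} {T1 : ℝ}
    (h : ContDiffOn ℝ (⊤ : ℕ∞) (fun q : ℝ × ℝ => v q.1 q.2) (Set.Ioo 0 T1 ×ˢ Set.univ))
    {t : ℝ} (ht : t ∈ Set.Ioo 0 T1) :
    ContDiff ℝ (⊤ : ℕ∞) (v t) ∧ (∀ y, DifferentiableAt ℝ (fun τ => v τ y) t) ∧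
    (∀ y, DifferentiableAt ℝ (fun y' => deriv (fun τ => v τ y') t) y) := by
  have hopen : IsOpen (Set.Ioo (0:ℝ) T1 ×ˢ (Set.univ : Set ℝ)) := isOpen_Ioo.prod isOpen_univ
  have hcda : ∀ y, ContDiffAt ℝ (⊤ : ℕ∞) (fun q : ℝ × ℝ => v q.1 q.2) (t, y) := fun y =>
    h.contDiffAt (hopen.mem_nhds ⟨ht, Set.mem_univ _⟩)
  refine ⟨?_, ?_, ?_⟩
  · rw [contDiff_iff_contDiffAt]
    intro y
    have h1 : ContDiffAt ℝ (⊤ : ℕ∞) (fun y : ℝ => ((t, y) : ℝ × ℝ)) y :=
      contDiffAt_const.prodMk contDiffAt_id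
    exact (hcda y).comp y h1
  · intro y
    have h1 : DifferentiableAt ℝ (fun τ : ℝ => ((τ, y) : ℝ × ℝ)) t :=
      differentiableAt_id.prodMk (differentiableAt_const y)
    exact ((hcda y).differentiableAt (by simp)).comp t h1
  · intro y
    have h2 : ∀ y', deriv (fun τ => v τ y') t =
        fderiv ℝ (fun q : ℝ × ℝ => v q.1 q.2) (t, y') (1, 0) := by
      intro y'
      have h3 : HasDerivAt (fun τ : ℝ => ((τ, y') : ℝ × ℝ)) (1, 0) t :=
        (hasDerivAt_id t).prodMk (hasDerivAt_const t y')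
      have h4 := ((hcda y').differentiableAt (by simp)).hasFDerivAt.comp_hasDerivAt t h3
      exact h4.deriv
    have h5 : (fun y' => deriv (fun τ => v τ y') t) =
        fun y' => fderiv ℝ (fun q : ℝ × ℝ => v q.1 q.2) (t, y') (1, 0) := funext h2
    rw [h5]
    have h6 : ContDiffAt ℝ (⊤ : ℕ∞) (fderiv ℝ (fun q : ℝ × ℝ => v q.1 q.2)) (t, y) :=
      (hcda y).fderiv_right (by simp)
    have h7 : DifferentiableAt ℝ (fun y' : ℝ => ((t, y') : ℝ × ℝ)) y :=
      (differentiableAt_const t).prodMk differentiableAt_id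
    have h8 := (h6.differentiableAt (by simp)).comp y h7
    exact h8.clm_apply (differentiableAt_const _)

theorem thm_UB (hQ : S_QF) (hE : S_ECL1) (hM : S_MCL1) (_hM2 : S_MCL2) (_hP : S_PAIR)
    (hC : S_CURV) (hV : S_VREP) (hT : S_TD) (_hB : S_FHB) (hS : S_SMW) : S_UB := by
  intro α J n R P h0 h1 h2 h3 p c1 a0 ω2 ω3 e3 w hD
  have ha := hD.a_pos
  have ha1 := hD.a_lt
  obtain ⟨n1, hn1⟩ := BD_G hM hT hD 5
  have hN : (0:ℝ) ≤ (n1:ℝ) := Nat.cast_nonneg _
  have hN2 : (0:ℝ) < 16 * ((n1:ℝ) + 2) := by positivity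
  refine ⟨1 / (16 * ((n1:ℝ) + 2)), by positivity, ?_, ?_⟩
  · rw [div_lt_div_iff₀ hN2 (by norm_num)]
    linarith
  intro θ hθ hθ0
  have hn : θ * ((n1:ℝ) + 2) ≤ 1 / 16 := by
    rw [le_div_iff₀ hN2] at hθ0
    linarith
  have hθ2 : θ < 1 / 2 := by
    have h4 := mul_le_mul_of_nonneg_left (by linarith : (2:ℝ) ≤ (n1:ℝ) + 2) hθ.le
    linarith
  obtain ⟨TV, hTV, hVr⟩ := hV α J n R P h0 h1 h2 h3 p c1 a0 ω2 ω3 e3 w hD θ hθ hθ2
  obtain ⟨T1, hT1, -, hSm, -⟩ := hS α J n R P h0 h1 h2 h3 p c1 a0 ω2 ω3 e3 w hD θ hθ hθ2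
  obtain ⟨TC, hTC, hsmall⟩ := (hC α ha ha1).2.2.2.2.1 (1 / 4) (by norm_num)
  set T : ℝ := min (min TV T1) TC / 2 with hTdef
  have hTm : 0 < min (min TV T1) TC := lt_min (lt_min hTV hT1) hTC
  have hT0 : 0 < T := by positivity
  have hTTV : T < TV := by
    have : min (min TV T1) TC ≤ TV := (min_le_left _ _).trans (min_le_left _ _)
    linarith
  have hTT1 : T < T1 := by
    have : min (min TV T1) TC ≤ T1 := (min_le_left _ _).trans (min_le_right _ _)
    linarith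
  have hTTC : T < TC := by
    have : min (min TV T1) TC ≤ TC := min_le_right _ _
    linarith
  have hG : Good α T := by
    intro t ht htT
    obtain ⟨a1, a2, a3, a4, a5, a6, -⟩ := (hC α ha ha1).1 t ht
    obtain ⟨b1, b2, b3⟩ := hsmall t ht (by linarith)
    exact ⟨a1, a2, a3, a4, b1, by linarith, by linarith⟩
  -- abbreviations
  set V : ℝ → ℝ → ℝ := vin α θ R P w (fZero α p J) n with hVdef
  set Fv : ℝ → ℝ → ℝ := Fhat α (fZero α p J) n with hFvdef
  set G : F3 := Gg α h0 h1 h2 h3 n J p R P w with hGdef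
  obtain ⟨g1, g2⟩ := hn1 T hG
  obtain ⟨k1, k2, k3, k4, k5, k6⟩ := comb hQ hE ha ha1 hθ hG hD.rp hn g1 g2
  obtain ⟨k7, k8⟩ := combR hQ hE hM hT ha ha1 hG hD.wT
  -- representations
  have L1 : ∀ t, 0 < t → t ≤ TV → ∀ y, rho α t * y ≤ 1 / 2 → V t y = UQ α θ R P G t y := by
    intro t ht htT y hy
    exact (hVr t ht htT).2.2.1 y hy
  have R1 : ∀ t, 0 < t → t ≤ TV → ∀ y, -1 ≤ rt α θ t * y →
      V t y = (FQ α t y + Fw α w t y) + Fv t y := by
    intro t ht htT y hy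
    have := (hVr t ht htT).2.2.2 y hy
    rw [this, hFvdef]
    unfold FQ Fw cv Fhat
    ring
  have hUQ : ∀ t, UQ α θ R P G t = fun y => Q y + UU α θ R P G t y := by
    intro t
    funext y
    unfold UQ UU FQ F0
    ring
  -- eventual equalities in y
  have L2 : ∀ t, 0 < t → t ≤ T → ∀ y ≤ 0, V t =ᶠ[nhds y] UQ α θ R P G t := by
    intro t ht htT y hy
    obtain ⟨a1, a2, a3, a4, a5, a6, a7⟩ := hG t ht htT
    have hop : IsOpen {y' : ℝ | rho α t * y' < 1 / 2} :=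
      isOpen_lt (continuous_const.mul continuous_id) continuous_const
    have hmem : y ∈ {y' : ℝ | rho α t * y' < 1 / 2} := by
      show rho α t * y < 1 / 2
      have := mul_nonpos_of_nonneg_of_nonpos a3.le hy
      linarith
    filter_upwards [hop.mem_nhds hmem] with y' hy'
    exact L1 t ht (by linarith) y' (le_of_lt hy')
  have hdG : ∀ t, 0 < t → ∀ y, HasDerivAt (fun τ => UQ α θ R P G τ y)
      ((lam α t ^ 3)⁻¹ * UE α θ R P G t y) t := by
    intro t ht y
    have h := ((hd_FQ hC ha ha1 ht y).add (hd_FB hC ha ha1 R P ht y)).add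
      (hd_FD hC ha ha1 θ ht y (hd_G hM hT hD ht y))
    refine HasDerivAt.congr_deriv (f := fun τ => UQ α θ R P G τ y) h ?_
    unfold UE
    ring
  have hrc : ∀ t, 0 < t → ContinuousAt (rho α) t := by
    intro t ht
    obtain ⟨a1, a2, a3, a4, a5, a6, hs, hl, hr, hlog⟩ := (hC α ha ha1).1 t ht
    exact hr.continuousAt
  have L3 : ∀ t, 0 < t → t ≤ T → ∀ y, rho α t * y < 1 / 2 →
      deriv (fun τ => V τ y) t = (lam α t ^ 3)⁻¹ * UE α θ R P G t y := by
    intro t ht htT y hy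
    have hev : (fun τ => V τ y) =ᶠ[nhds t] fun τ => UQ α θ R P G τ y := by
      have e1 : ∀ᶠ τ in nhds t, 0 < τ := Ioi_mem_nhds ht
      have e2 : ∀ᶠ τ in nhds t, τ < TV := Iio_mem_nhds (by linarith)
      have e3 : ∀ᶠ τ in nhds t, rho α τ * y < 1 / 2 :=
        ((hrc t ht).mul continuousAt_const).eventually (Iio_mem_nhds hy)
      filter_upwards [e1, e2, e3] with τ f1 f2 f3
      exact L1 τ f1 f2.le y f3.le
    rw [hev.deriv_eq, (hdG t ht y).deriv]
  have L4 : ∀ t, 0 < t → t ≤ T → ∀ y ≤ 0,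
      deriv (fun y' => deriv (fun τ => V τ y') t) y =
        (lam α t ^ 3)⁻¹ * deriv (UE α θ R P G t) y := by
    intro t ht htT y hy
    obtain ⟨a1, a2, a3, a4, a5, a6, a7⟩ := hG t ht htT
    have hop : IsOpen {y' : ℝ | rho α t * y' < 1 / 2} :=
      isOpen_lt (continuous_const.mul continuous_id) continuous_const
    have hmem : y ∈ {y' : ℝ | rho α t * y' < 1 / 2} := by
      show rho α t * y < 1 / 2
      have := mul_nonpos_of_nonneg_of_nonpos a3.le hy
      linarith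
    have hev : (fun y' => deriv (fun τ => V τ y') t) =ᶠ[nhds y]
        fun y' => (lam α t ^ 3)⁻¹ * UE α θ R P G t y' := by
      filter_upwards [hop.mem_nhds hmem] with y' hy'
      exact L3 t ht htT y' hy'
    rw [hev.deriv_eq]
    have := deriv_const_mul_field (𝕜 := ℝ) (x := y) (lam α t ^ 3)⁻¹ (v := UE α θ R P G t)
    exact this
  -- right side
  have R2 : ∀ t, 0 < t → t ≤ T → ∀ y, -1 < rt α θ t * y →
      deriv (fun τ => Fv τ y) t = deriv (fun τ => V τ y) t -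
        (lam α t ^ 3)⁻¹ * (EA α t y + Ew α w t y) := by
    intro t ht htT y hy
    have hd1 := (joint hSm ⟨ht, by linarith⟩).2.1 y
    have hd2 := (hd_FQ hC ha ha1 ht y).add (hd_Fw hC hT ha ha1
      (hM.1 0 1 (Nat.zero_le _) hD.wT) ht y)
    have hev : (fun τ => Fv τ y) =ᶠ[nhds t] fun τ => V τ y - (FQ α τ y + Fw α w τ y) := by
      have e1 : ∀ᶠ τ in nhds t, 0 < τ := Ioi_mem_nhds ht
      have e2 : ∀ᶠ τ in nhds t, τ < TV := Iio_mem_nhds (by linarith)
      obtain ⟨a1, a2, a3, -⟩ := (hC α ha ha1).1 t ht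
      have hrtc : ContinuousAt (rt α θ) t := (hrc t ht).rpow_const (Or.inl a3.ne')
      have e3 : ∀ᶠ τ in nhds t, -1 < rt α θ τ * y :=
        (hrtc.mul continuousAt_const).eventually (Ioi_mem_nhds hy)
      filter_upwards [e1, e2, e3] with τ f1 f2 f3
      have := R1 τ f1 f2.le y f3.le
      linarith
    rw [hev.deriv_eq]
    have h := hd1.hasDerivAt.sub hd2
    have h' : HasDerivAt (fun τ => V τ y - (FQ α τ y + Fw α w τ y)) _ t := h
    rw [h'.deriv]
    ring
  have R3 : ∀ t, 0 < t → t ≤ T → ∀ y, 0 ≤ y →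
      deriv (fun y' => deriv (fun τ => Fv τ y') t) y =
        deriv (fun y' => deriv (fun τ => V τ y') t) y -
        (lam α t ^ 3)⁻¹ * deriv (fun y' => EA α t y' + Ew α w t y') y := by
    intro t ht htT y hy
    obtain ⟨b1, b2⟩ := rt_facts hθ hG ht htT
    have hop : IsOpen {y' : ℝ | -1 < rt α θ t * y'} :=
      isOpen_lt continuous_const (continuous_const.mul continuous_id)
    have hmem : y ∈ {y' : ℝ | -1 < rt α θ t * y'} := by
      show -1 < rt α θ t * y
      have := mul_nonneg b1.le hy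
      linarith
    have hev : (fun y' => deriv (fun τ => Fv τ y') t) =ᶠ[nhds y]
        fun y' => deriv (fun τ => V τ y') t - (lam α t ^ 3)⁻¹ * (EA α t y' + Ew α w t y') := by
      filter_upwards [hop.mem_nhds hmem] with y' hy'
      exact R2 t ht htT y' hy'
    rw [hev.deriv_eq]
    have hd1 := (joint hSm ⟨ht, by linarith⟩).2.2 y
    have hd2 : DifferentiableAt ℝ (fun y' => EA α t y' + Ew α w t y') y :=
      ((k8.sm t ht).differentiable (by simp)) y
    have h := hd1.hasDerivAt.sub (hd2.hasDerivAt.const_mul (lam α t ^ 3)⁻¹)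
    exact h.deriv
  have R4 : ∀ t, 0 < t → t ≤ T → ∀ y, 0 ≤ y → ∀ k,
      iteratedDeriv k (V t) y - iteratedDeriv k Q y - iteratedDeriv k (Fv t) y =
        iteratedDeriv k (fun y => F0 α t y + Fw α w t y) y := by
    intro t ht htT y hy k
    obtain ⟨b1, b2⟩ := rt_facts hθ hG ht htT
    have hop : IsOpen {y' : ℝ | -1 < rt α θ t * y'} :=
      isOpen_lt continuous_const (continuous_const.mul continuous_id)
    have hmem : y ∈ {y' : ℝ | -1 < rt α θ t * y'} := by
      show -1 < rt α θ t * y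
      have := mul_nonneg b1.le hy
      linarith
    have hsmQ : ContDiff ℝ (⊤ : ℕ∞) Q := hQ.1
    have hsmV := (joint hSm ⟨ht, by linarith⟩).1
    have hsmU : ContDiff ℝ (⊤ : ℕ∞) (fun y => F0 α t y + Fw α w t y) := k7.sm t ht
    have hev : Fv t =ᶠ[nhds y]
        fun y' => V t y' - (Q y' + (F0 α t y' + Fw α w t y')) := by
      filter_upwards [hop.mem_nhds hmem] with y' hy'
      have := R1 t ht (by linarith) y' (le_of_lt hy')
      have e : FQ α t y' = Q y' + F0 α t y' := by unfold FQ F0; ring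
      rw [this, e]
      ring
    rw [hev.iteratedDeriv_eq k, it_subf hsmV (hsmQ.add hsmU), it_add hsmQ hsmU]
    ring
  -- left iterated derivatives
  have L5 : ∀ t, 0 < t → t ≤ T → ∀ y ≤ 0, ∀ k,
      iteratedDeriv k (V t) y - iteratedDeriv k Q y = iteratedDeriv k (UU α θ R P G t) y := by
    intro t ht htT y hy k
    have hsmQ : ContDiff ℝ (⊤ : ℕ∞) Q := hQ.1
    have hsmU : ContDiff ℝ (⊤ : ℕ∞) (UU α θ R P G t) := k1.sm t ht
    rw [(L2 t ht htT y hy).iteratedDeriv_eq k, hUQ, it_add hsmQ hsmU]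
    ring
  have hderU : ∀ t, 0 < t → deriv (UU α θ R P G t) = U1 α θ R P G t := by
    intro t ht
    funext y
    have s0 := ((BD_F0 (T := T) hQ hG 5).sm t ht)
    have s1 := ((BD_FB (T := T) hE hD.rp hG 5).sm t ht)
    have s2 := ((BD_FD hθ hG hn 5 g1 g2).1.sm t ht)
    have d0 := ((s0.differentiable (by simp)) y).hasDerivAt
    have d1 := ((s1.differentiable (by simp)) y).hasDerivAt
    have d2 := ((s2.differentiable (by simp)) y).hasDerivAt
    have h := (d0.add d1).add d2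
    have h' : HasDerivAt (UU α θ R P G t) _ y := h
    rw [h'.deriv, deriv_FB hE hD.rp]
    rfl
  have hlm : ∀ t, 0 < t → t ≤ T → ∀ a : ℝ, lam α t ^ 3 * |(lam α t ^ 3)⁻¹ * a| = |a| := by
    intro t ht htT a
    obtain ⟨a1, a2, a3, a4, a5, a6, a7⟩ := hG t ht htT
    rw [abs_mul, abs_of_pos (by positivity : 0 < (lam α t ^ 3)⁻¹), ← mul_assoc,
      mul_inv_cancel₀ (by positivity), one_mul]
  -- constants
  obtain ⟨C1, c10, hC1⟩ := k1.bd
  obtain ⟨C2, c20, hC2⟩ := k2.bd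
  obtain ⟨C3, c30, hC3⟩ := k3.bd
  obtain ⟨C4, c40, hC4⟩ := k4.bd
  obtain ⟨C5, c50, hC5⟩ := k5.bd
  obtain ⟨C6, c60, hC6⟩ := k6.bd
  obtain ⟨C7, c70, hC7⟩ := k7.bd
  obtain ⟨C8, c80, hC8⟩ := k8.bd
  have hexp : ∀ y : ℝ, Real.exp (-|y| / 2) = Real.exp (-(1 / 2 * |y|)) := by
    intro y; congr 1; ring
  have hexp2 : ∀ y : ℝ, Real.exp (-y / 2) = Real.exp (-(y / 2)) := by
    intro y; congr 1; ring
  have hrp : ∀ t, 0 < t → ∀ a : ℝ, 0 ≤ rho α t ^ a := by
    intro t ht a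
    obtain ⟨a1, a2, a3, -⟩ := (hC α ha ha1).1 t ht
    exact Real.rpow_nonneg a3.le _
  have hrp0 : ∀ t, 0 < t → 0 ≤ rho α t := by
    intro t ht
    obtain ⟨a1, a2, a3, -⟩ := (hC α ha ha1).1 t ht
    exact a3.le
  refine ⟨T, C1 + C2 + C3 + C4 + C5 + C6 + C7 + C8, hT0, ?_⟩
  refine ⟨?_, ?_, ?_, ?_, ?_, ?_, ?_⟩
  · intro t ht y hy
    have h := hC1 t y ⟨⟨ht.1, ht.2⟩, hy⟩ 0 (by norm_num)
    rw [← L5 t ht.1 ht.2 y hy 0, iteratedDeriv_zero, iteratedDeriv_zero] at h
    refine h.trans (mul_le_mul_of_nonneg_right ?_ (hrp0 t ht.1))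
    linarith
  · intro t ht y hy k hk1 hk5
    obtain ⟨j, rfl⟩ : ∃ j, k = j + 1 := ⟨k - 1, by omega⟩
    have h := hC2 t y ⟨⟨ht.1, ht.2⟩, hy⟩ j (by omega)
    rw [L5 t ht.1 ht.2 y hy (j + 1), iteratedDeriv_succ', hderU t ht.1, hexp]
    refine h.trans (mul_le_mul_of_nonneg_right ?_ ?_)
    · linarith
    · have := hrp t ht.1 ((3:ℝ)/2)
      have := mul_nonneg (hrp0 t ht.1) (Real.exp_pos (-(1 / 2 * |y|))).le
      linarith
  · intro t ht y hy k hk1 hk2
    obtain ⟨j, rfl⟩ : ∃ j, k = j + 1 := ⟨k - 1, by omega⟩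
    have h := hC3 t y ⟨⟨ht.1, ht.2⟩, hy⟩ j (by omega)
    rw [L5 t ht.1 ht.2 y hy (j + 1), iteratedDeriv_succ', hderU t ht.1]
    have hy1 : 0 < 1 + |y| := by positivity
    have h5 : |y| * |iteratedDeriv j (U1 α θ R P G t) y| ≤ C3 * rho α t := by
      rw [mul_div_assoc', le_div_iff₀ hy1] at h
      have := abs_nonneg (iteratedDeriv j (U1 α θ R P G t) y)
      linarith
    refine h5.trans (mul_le_mul_of_nonneg_right ?_ (hrp0 t ht.1))
    linarith
  · intro t ht y hy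
    have hry : rho α t * y < 1 / 2 := by
      have := mul_nonpos_of_nonneg_of_nonpos (hrp0 t ht.1) hy
      linarith
    have h := hC4 t y ⟨⟨ht.1, ht.2⟩, hy⟩
    constructor
    · rw [L3 t ht.1 ht.2 y hry, hlm t ht.1 ht.2]
      have h0 := h 0 (by norm_num)
      rw [iteratedDeriv_zero] at h0
      refine h0.trans (mul_le_mul_of_nonneg_right ?_ (hrp t ht.1 _))
      linarith
    · rw [L4 t ht.1 ht.2 y hy, hlm t ht.1 ht.2]
      have h0 := h 1 (by norm_num)
      rw [iteratedDeriv_one] at h0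
      refine h0.trans (mul_le_mul_of_nonneg_right ?_ (hrp t ht.1 _))
      linarith
  · intro t ht y hy k hk
    have h := hC7 t y ⟨⟨ht.1, ht.2⟩, hy⟩ k hk
    rw [R4 t ht.1 ht.2 y hy k, hexp2]
    refine h.trans ?_
    rw [← mul_assoc]
    refine mul_le_mul_of_nonneg_right (mul_le_mul_of_nonneg_right ?_ (hrp t ht.1 _))
      (Real.exp_pos _).le
    linarith
  · intro t ht y hy
    obtain ⟨b1, b2⟩ := rt_facts hθ hG ht.1 ht.2
    have hry : -1 < rt α θ t * y := by
      have := mul_nonneg b1.le hy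
      linarith
    have h := hC8 t y ⟨⟨ht.1, ht.2⟩, hy⟩
    constructor
    · rw [R2 t ht.1 ht.2 y hry, sub_sub_cancel, hlm t ht.1 ht.2, hexp2]
      have h0 := h 0 (by norm_num)
      rw [iteratedDeriv_zero] at h0
      refine h0.trans ?_
      rw [← mul_assoc]
      refine mul_le_mul_of_nonneg_right (mul_le_mul_of_nonneg_right ?_ (hrp t ht.1 _))
        (Real.exp_pos _).le
      linarith
    · rw [R3 t ht.1 ht.2 y hy, sub_sub_cancel, hlm t ht.1 ht.2, hexp2]
      have h0 := h 1 (by norm_num)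
      rw [iteratedDeriv_one] at h0
      refine h0.trans ?_
      rw [← mul_assoc]
      refine mul_le_mul_of_nonneg_right (mul_le_mul_of_nonneg_right ?_ (hrp t ht.1 _))
        (Real.exp_pos _).le
      linarith
  · intro t ht y hy
    obtain ⟨a1, a2, a3, a4, a5, a6, a7⟩ := hG t ht.1 ht.2
    have hneg : (0:ℝ) ≤ rho α t ^ (-((1 : ℝ) / 2)) := hrp t ht.1 _
    have hy0 : y ≤ 0 := by linarith
    have htl : rh α t * y ≤ -2 := by
      obtain ⟨b1, b2, b3⟩ := rh_facts hG ht.1 ht.2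
      have h5 := mul_le_mul_of_nonneg_left hy b1.le
      have h6 : rh α t * rho α t ^ (-((1 : ℝ) / 2)) = 1 := by
        unfold rh
        rw [← Real.rpow_add a3]
        norm_num
      have h7 : rh α t * -(2 * rho α t ^ (-((1 : ℝ) / 2))) =
          -2 * (rh α t * rho α t ^ (-((1 : ℝ) / 2))) := by ring
      rw [h7, h6] at h5
      linarith
    have hST : ST α T t y := ⟨⟨⟨ht.1, ht.2⟩, hy0⟩, htl⟩
    have hry : rho α t * y < 1 / 2 := by
      have := mul_nonpos_of_nonneg_of_nonpos a3.le hy0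
      linarith
    refine ⟨?_, ?_, ?_⟩
    · intro k hk
      have h := hC5 t y hST k hk
      rw [(L2 t ht.1 ht.2 y hy0).iteratedDeriv_eq k]
      refine h.trans (mul_le_mul_of_nonneg_right ?_ (Real.exp_pos _).le)
      linarith
    · rw [L3 t ht.1 ht.2 y hry, hlm t ht.1 ht.2]
      have h0 := hC6 t y hST 0 (by norm_num)
      rw [iteratedDeriv_zero] at h0
      refine h0.trans (mul_le_mul_of_nonneg_right ?_ (Real.exp_pos _).le)
      linarith
    · rw [L4 t ht.1 ht.2 y hy0, hlm t ht.1 ht.2]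
      have h0 := hC6 t y hST 1 (by norm_num)
      rw [iteratedDeriv_one] at h0
      refine h0.trans (mul_le_mul_of_nonneg_right ?_ (Real.exp_pos _).le)
      linarith

end Pool.Agent.Helper77.KV
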