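import Pool.Agent.Helper48.KV.GoalsJ
import Pool.Agent.Helper61.KV.WTF
import Pool.Agent.Helper23.KV.HCOER

/-!
# Packet KINEQ of project KV (MP_66be51_an): the Kato inequality for one packet
-/

open MeasureTheory Set Filter Topology

noncomputable section

namespace Pool.Agent.Helper77.KV

open Pool.Agent.Helper33.KV Pool.Agent.Helper41.KV Pool.Agent.Helper48.KV

namespace KIN

/-! ### the weight `a` -/

theorem aK_iter {X L : ℝ} (k : ℕ) :
    iteratedDeriv k (aK X L) = fun x => (Pool.Agent.Helper61.KV.PP L k).eval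
      (wt L 1 ((x - (-X)) / (-1))) / (-1) ^ k := by
  induction k with
  | zero =>
    rw [iteratedDeriv_zero]
    funext x
    have e : (x - (-X)) / (-1) = -(x + X) := by ring
    rw [e]
    simp [Pool.Agent.Helper61.KV.PP, aK]
  | succ k ih =>
    rw [iteratedDeriv_succ, ih]
    funext x
    exact (Pool.Agent.Helper61.KV.poly_hasDeriv one_pos _ _ k x).deriv

theorem aK_bd {X L : ℝ} (k : ℕ) : ∃ C, ∀ x, |iteratedDeriv k (aK X L) x| ≤ C := by
  obtain ⟨C, -, hC⟩ := Pool.Agent.Helper61.KV.poly_bdd (Pool.Agent.Helper61.KV.PP L k)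
  refine ⟨C, fun x => ?_⟩
  rw [aK_iter]
  simp only
  rw [abs_div, abs_pow, abs_neg, abs_one, one_pow, div_one]
  exact hC _ (Pool.Agent.Helper61.KV.wt_pos one_pos _) (Pool.Agent.Helper61.KV.wt_lt_one one_pos _)

theorem aff_smooth (X : ℝ) : ContDiff ℝ (⊤ : ℕ∞) (fun x : ℝ => -(x + X)) := by fun_prop

theorem aK_smooth {X L : ℝ} : ContDiff ℝ (⊤ : ℕ∞) (aK X L) :=
  (Pool.Agent.Helper61.KV.wt_contDiff one_pos).comp (aff_smooth X)

theorem bK_smooth {X L : ℝ} : ContDiff ℝ (⊤ : ℕ∞) (bK X L) :=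
  (Pool.Agent.Helper61.KV.ph1_contDiff one_pos).comp (aff_smooth X)

theorem aff_deriv (X x : ℝ) : HasDerivAt (fun x : ℝ => -(x + X)) (-1) x :=
  ((hasDerivAt_id x).add_const X).neg

theorem aK_deriv {X L : ℝ} (x : ℝ) : HasDerivAt (aK X L) (-bK X L x) x := by
  have h := (Pool.Agent.Helper61.KV.wt_hasDeriv (K := L) (ρ := 1) one_pos (-(x + X))).comp x
    (aff_deriv X x)
  exact h.congr_deriv (by rw [bK]; ring)

theorem bK_deriv {X L : ℝ} (x : ℝ) : HasDerivAt (bK X L) (-ph2 L 1 (-(x + X))) x := by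
  have h := (Pool.Agent.Helper61.KV.ph1_hasDeriv (K := L) (ρ := 1) one_pos (-(x + X))).comp x
    (aff_deriv X x)
  exact h.congr_deriv (by ring)

theorem p2_deriv {X L : ℝ} (hL : 0 < L) (x : ℝ) :
    HasDerivAt (fun x => ph2 L 1 (-(x + X))) (-ph3 L 1 (-(x + X))) x := by
  have h := (Pool.Agent.Helper61.KV.ph2_hasDeriv (K := L) (ρ := 1) hL one_pos (-(x + X))).comp x
    (aff_deriv X x)
  exact h.congr_deriv (by ring)

theorem aK_d1 {X L : ℝ} : deriv (aK X L) = fun x => -bK X L x :=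
  funext fun x => (aK_deriv x).deriv

theorem aK_i1 {X L : ℝ} : iteratedDeriv 1 (aK X L) = fun x => -bK X L x := by
  rw [iteratedDeriv_one, aK_d1]

theorem aK_i2 {X L : ℝ} : iteratedDeriv 2 (aK X L) = fun x => ph2 L 1 (-(x + X)) := by
  rw [iteratedDeriv_succ, aK_i1]
  funext x
  exact ((bK_deriv x).neg.congr_deriv (neg_neg _)).deriv

theorem aK_i3 {X L : ℝ} (hL : 0 < L) :
    iteratedDeriv 3 (aK X L) = fun x => -ph3 L 1 (-(x + X)) := by
  rw [iteratedDeriv_succ, aK_i2]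
  funext x
  exact (p2_deriv hL x).deriv

/-- all pointwise bounds on the weight -/
theorem aK_facts {X L : ℝ} (hL : 1 ≤ L) (x : ℝ) :
    0 < aK X L x ∧ aK X L x < 1 ∧ 0 < bK X L x ∧ bK X L x ≤ aK X L x ∧
      |ph2 L 1 (-(x + X))| ≤ bK X L x ∧ |-ph3 L 1 (-(x + X))| ≤ bK X L x := by
  have hL0 : 0 < L := by linarith
  have hb := Pool.Agent.Helper61.KV.ph1_pos hL0 one_pos (-(x + X))
  have ha := Pool.Agent.Helper61.KV.wt_pos (K := L) one_pos (-(x + X))
  refine ⟨ha, Pool.Agent.Helper61.KV.wt_lt_one one_pos _, hb, ?_, ?_, ?_⟩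
  · exact (Pool.Agent.Helper61.KV.ph1_le hL0 one_pos _).trans (div_le_self ha.le hL)
  · exact (Pool.Agent.Helper61.KV.ph2_abs hL0 one_pos _).trans (div_le_self hb.le hL)
  · rw [abs_neg]
    exact (Pool.Agent.Helper61.KV.ph3_abs hL0 one_pos _).trans
      (div_le_self hb.le (one_le_pow₀ hL))

/-- near the origin the weight is exponentially small -/
theorem aK_small {X L : ℝ} (hL : 1 ≤ L) {x : ℝ} (hx : -1 ≤ x) :
    aK X L x ≤ Real.exp (-((X - 1) / L)) := by
  have hL0 : 0 < L := by linarith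
  have h1 : Real.exp ((X - 1) / L) ≤ Real.exp (-(-(x + X) / L)) := by
    apply Real.exp_le_exp.2
    rw [← neg_div, neg_neg]
    exact div_le_div_of_nonneg_right (by linarith) hL0.le
  have h2 : aK X L x = 1 / (1 + 1 * Real.exp (-(-(x + X) / L))) := rfl
  rw [h2, Real.exp_neg ((X - 1) / L), one_mul, one_div]
  exact inv_anti₀ (Real.exp_pos _) (h1.trans (le_add_of_nonneg_left zero_le_one))

/-! ### products of time dependent fields with a fixed weight -/

theorem BInf_amul {a : ℝ → ℝ} (ha : ContDiff ℝ (⊤ : ℕ∞) a)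
    (hab : ∀ k, ∃ C, ∀ x, |iteratedDeriv k a x| ≤ C) {c ct : ℝ → ℝ → ℝ} {t1 t2 : ℝ}
    (h : BInf c ct t1 t2) :
    BInf (fun t x => a x * c t x) (fun t x => a x * ct t x) t1 t2 := by
  have hfor : ∀ (k : ℕ), ∀ t ∈ Icc t1 t2, ∀ x, iteratedDeriv k (fun x => a x * c t x) x =
      ∑ i ∈ Finset.range (k + 1), (k.choose i : ℝ) * iteratedDeriv i a x *
        iteratedDeriv (k - i) (c t) x := by
    intro k t ht x
    exact iteratedDeriv_fun_mul ((ha.of_le (by exact_mod_cast le_top)).contDiffAt)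
      (((h.smooth t ht).of_le (by exact_mod_cast le_top)).contDiffAt)
  refine ⟨fun t ht => ha.mul (h.smooth t ht), ?_, ?_, ?_, ?_, ?_⟩
  · intro k
    have h1 : ContinuousOn (fun z : ℝ × ℝ => ∑ i ∈ Finset.range (k + 1),
        (k.choose i : ℝ) * iteratedDeriv i a z.2 * iteratedDeriv (k - i) (c z.1) z.2)
        (Icc t1 t2 ×ˢ univ) := by
      refine continuousOn_finsetSum _ fun i _ => ?_
      refine (continuousOn_const.mul ?_).mul (h.cont (k - i))
      have h2 : Continuous (iteratedDeriv i a) :=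
        ha.continuous_iteratedDeriv i (by exact_mod_cast le_top)
      exact (h2.comp continuous_snd).continuousOn
    refine h1.congr fun z hz => ?_
    exact hfor k z.1 hz.1 z.2
  · intro k
    choose A hA using hab
    choose B hB using h.bound
    refine ⟨∑ i ∈ Finset.range (k + 1), (k.choose i : ℝ) * A i * B (k - i), fun t ht x => ?_⟩
    rw [hfor k t ht x]
    refine (Finset.abs_sum_le_sum_abs _ _).trans (Finset.sum_le_sum fun i _ => ?_)
    rw [abs_mul, abs_mul, Nat.abs_cast]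
    have h1 := hA i x
    have h2 := hB (k - i) t ht x
    have h3 : (0 : ℝ) ≤ (k.choose i : ℝ) := Nat.cast_nonneg _
    have h4 := (abs_nonneg _).trans h1
    exact mul_le_mul (mul_le_mul_of_nonneg_left h1 h3) h2 (abs_nonneg _) (mul_nonneg h3 h4)
  · intro t ht x
    exact (h.dt t ht x).const_mul (a x)
  · exact ((ha.continuous.comp continuous_snd).continuousOn).mul h.contt
  · obtain ⟨A, hA⟩ := hab 0
    obtain ⟨B, hB⟩ := h.boundt
    refine ⟨A * B, fun t ht x => ?_⟩
    rw [abs_mul]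
    have h1 := hA x
    rw [iteratedDeriv_zero] at h1
    exact mul_le_mul h1 (hB t ht x) (abs_nonneg _) ((abs_nonneg _).trans h1)

/-! ### the pointwise inequality -/

theorem ptw (hALG : S_ALG) {a b a2 a3 c c1 c2 c3 ct C0 l n s U U1 e e1 S N : ℝ}
    (ha0 : 0 ≤ a) (hb0 : 0 ≤ b) (hba : b ≤ a) (ha2 : |a2| ≤ b) (ha3 : |a3| ≤ b)
    (hc0 : 0 ≤ c) (hc1 : c1 ≤ 0) (hC0 : 0 < C0) (hl : 0 < l) (hl1 : l ≤ 1)
    (h1 : |c1| ≤ C0 / l ^ 1 * n) (h2 : |c2| ≤ C0 / l ^ 2 * n) (h3 : |c3| ≤ C0 / l ^ 3 * n)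
    (hct : 0 ≤ ct) (hn : n = 0 ∨ (n = 1 ∧ a ≤ s ∧ U = 0)) (hs : 0 ≤ s)
    (hU : |U| ≤ 1) (hU1 : |U| ^ 3 * |U1| ≤ 1) (hN2 : e ^ 2 ≤ N) (hN6 : e ^ 6 ≤ N / l ^ 2) :
    3 * (b * c * e1 ^ 2) ≤
      (-3 * (-b * c + a * c1) * e1 ^ 2 + (a3 * c + 3 * (a2 * c1) + 3 * (-b * c2) + a * c3) * e ^ 2
        - (-b * c + a * c1) * nGG U e / 3 - 2 * (a * c) * U1 * nG2 U e
        + 2 * (-b * c + a * c1) * nG U e * e + 2 * (a * c * S * e) + a * ct * e ^ 2)
      + 181 * (a * c * e ^ 2) + 100 * (b * c * e ^ 6) + 107 * C0 * (s / l ^ 3 * (n * N))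
      + 80 * (a * c * (|U1| * |e| ^ 5)) + 2 * (a * c * (|S| * |e|)) := by
  have hn0 : 0 ≤ n := by
    rcases hn with h | h
    · rw [h]
    · rw [h.1]; norm_num
  have hN0 : 0 ≤ N := (sq_nonneg e).trans hN2
  have hac : 0 ≤ a * c := mul_nonneg ha0 hc0
  have hbc : 0 ≤ b * c := mul_nonneg hb0 hc0
  have hl2 : 0 < l ^ 2 := by positivity
  have hl3 : 0 < l ^ 3 := by positivity
  have han : a * n ≤ s * n := by
    rcases hn with h | h
    · rw [h]; simp
    · exact mul_le_mul_of_nonneg_right h.2.1 hn0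
  have hbn : b * n ≤ s * n := (mul_le_mul_of_nonneg_right hba hn0).trans han
  have hsn : 0 ≤ s * n := mul_nonneg hs hn0
  have hk1 : C0 / l ^ 1 ≤ C0 / l ^ 3 :=
    div_le_div_of_nonneg_left hC0.le hl3 (pow_le_pow_of_le_one hl.le hl1 (by norm_num))
  have hk2 : C0 / l ^ 2 ≤ C0 / l ^ 3 :=
    div_le_div_of_nonneg_left hC0.le hl3 (pow_le_pow_of_le_one hl.le hl1 (by norm_num))
  have hk3 : 0 ≤ C0 / l ^ 3 := by positivity
  -- (A)
  have hA : 0 ≤ -3 * (a * c1) * e1 ^ 2 := by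
    have : 0 ≤ -(a * c1) := by nlinarith
    nlinarith [mul_nonneg this (sq_nonneg e1)]
  -- (B)
  have hB : |a3 * c + 3 * (a2 * c1) + 3 * (-b * c2) + a * c3| ≤ a * c + 7 * (C0 / l ^ 3 * (s * n)) := by
    have t1 : |a3 * c| ≤ a * c := by
      rw [abs_mul, abs_of_nonneg hc0]
      exact mul_le_mul_of_nonneg_right (ha3.trans hba) hc0
    have t2 : |a2 * c1| ≤ C0 / l ^ 3 * (s * n) := by
      rw [abs_mul]
      calc |a2| * |c1| ≤ b * (C0 / l ^ 1 * n) := mul_le_mul ha2 h1 (abs_nonneg _) hb0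
        _ = C0 / l ^ 1 * (b * n) := by ring
        _ ≤ C0 / l ^ 3 * (s * n) := mul_le_mul hk1 hbn (mul_nonneg hb0 hn0) hk3
    have t3 : |-b * c2| ≤ C0 / l ^ 3 * (s * n) := by
      rw [abs_mul, abs_neg, abs_of_nonneg hb0]
      calc b * |c2| ≤ b * (C0 / l ^ 2 * n) := mul_le_mul_of_nonneg_left h2 hb0
        _ = C0 / l ^ 2 * (b * n) := by ring
        _ ≤ C0 / l ^ 3 * (s * n) := mul_le_mul hk2 hbn (mul_nonneg hb0 hn0) hk3
    have t4 : |a * c3| ≤ C0 / l ^ 3 * (s * n) := by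
      rw [abs_mul, abs_of_nonneg ha0]
      calc a * |c3| ≤ a * (C0 / l ^ 3 * n) := mul_le_mul_of_nonneg_left h3 ha0
        _ = C0 / l ^ 3 * (a * n) := by ring
        _ ≤ C0 / l ^ 3 * (s * n) := mul_le_mul_of_nonneg_left han hk3
    have t5 := abs_le.1 t1
    have t6 := abs_le.1 t2
    have t7 := abs_le.1 t3
    have t8 := abs_le.1 t4
    rw [abs_le]
    constructor <;> linarith [t5.1, t5.2, t6.1, t6.2, t7.1, t7.2, t8.1, t8.2]
  have hB2 : -(a * c * e ^ 2) - 7 * C0 * (s / l ^ 3 * (n * N)) ≤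
      (a3 * c + 3 * (a2 * c1) + 3 * (-b * c2) + a * c3) * e ^ 2 := by
    have t1 := (abs_le.1 hB).1
    have t2 := mul_le_mul_of_nonneg_right t1 (sq_nonneg e)
    have t3 : C0 / l ^ 3 * (s * n) * e ^ 2 ≤ C0 / l ^ 3 * (s * n) * N :=
      mul_le_mul_of_nonneg_left hN2 (mul_nonneg hk3 hsn)
    have t4 : C0 / l ^ 3 * (s * n) * N = C0 * (s / l ^ 3 * (n * N)) := by
      field_simp
    nlinarith [t2, t3, t4]
  -- (C)
  obtain ⟨g1, -, g3, g4, -, -⟩ := hALG U e
  have hT : |nGG U e / 3 - 2 * (nG U e * e)| ≤ 100 * (U ^ 4 * e ^ 2 + e ^ 6) := by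
    have q1 := abs_le.1 g1
    have q3 := abs_le.1 g3
    rw [abs_le]
    constructor <;> linarith [q1.1, q1.2, q3.1, q3.2]
  have hU4 : U ^ 4 ≤ 1 := by
    have : U ^ 4 = |U| ^ 4 := by
      rw [← abs_pow]; exact (abs_of_nonneg (by positivity)).symm
    rw [this]
    exact pow_le_one₀ (abs_nonneg _) hU
  have hC1 : -(100 * (a * c * e ^ 2)) - 100 * (b * c * e ^ 6) ≤
      (b * c) * (nGG U e / 3 - 2 * (nG U e * e)) := by
    have t1 := (abs_le.1 hT).1
    have t2 := mul_le_mul_of_nonneg_left t1 hbc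
    have t3 : (b * c) * (U ^ 4 * e ^ 2) ≤ a * c * e ^ 2 := by
      calc (b * c) * (U ^ 4 * e ^ 2) ≤ (b * c) * (1 * e ^ 2) := by
            refine mul_le_mul_of_nonneg_left (mul_le_mul_of_nonneg_right hU4 (sq_nonneg e)) hbc
        _ ≤ a * c * e ^ 2 := by
            rw [one_mul]
            exact mul_le_mul_of_nonneg_right (mul_le_mul_of_nonneg_right hba hc0) (sq_nonneg e)
    nlinarith [t2, t3]
  have hC2 : -(100 * C0 * (s / l ^ 3 * (n * N))) ≤
      -((a * c1) * (nGG U e / 3 - 2 * (nG U e * e))) := by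
    have t1 : |(a * c1) * (nGG U e / 3 - 2 * (nG U e * e))| ≤
        100 * C0 * (s / l ^ 3 * (n * N)) := by
      rcases hn with h | h
      · have : c1 = 0 := by
          rw [h, mul_zero] at h1
          exact abs_eq_zero.1 (le_antisymm h1 (abs_nonneg _))
        rw [this, h]
        simp
      · have hU0 : U ^ 4 * e ^ 2 = 0 := by rw [h.2.2]; ring
        rw [hU0, zero_add] at hT
        rw [abs_mul, abs_mul, abs_of_nonneg ha0]
        have h1' : |c1| ≤ C0 / l := by simpa [h.1] using h1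
        calc a * |c1| * |nGG U e / 3 - 2 * (nG U e * e)| ≤ s * (C0 / l) * (100 * (N / l ^ 2)) := by
              refine mul_le_mul (mul_le_mul h.2.1 h1' (abs_nonneg _) hs) ?_ (abs_nonneg _)
                (by positivity)
              exact hT.trans (by linarith)
          _ = _ := by rw [h.1]; field_simp
    linarith [(abs_le.1 t1).2]
  -- (D)
  have hD : -(80 * (a * c * e ^ 2)) - 80 * (a * c * (|U1| * |e| ^ 5)) ≤
      -(2 * (a * c) * U1 * nG2 U e) := by
    have t1 : |U1 * nG2 U e| ≤ 40 * (e ^ 2 + |U1| * |e| ^ 5) := by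
      rw [abs_mul]
      calc |U1| * |nG2 U e| ≤ |U1| * (40 * (|U| ^ 3 * e ^ 2 + |e| ^ 5)) :=
            mul_le_mul_of_nonneg_left g4 (abs_nonneg _)
        _ = 40 * ((|U| ^ 3 * |U1|) * e ^ 2 + |U1| * |e| ^ 5) := by ring
        _ ≤ 40 * (1 * e ^ 2 + |U1| * |e| ^ 5) := by
            have := mul_le_mul_of_nonneg_right hU1 (sq_nonneg e)
            linarith
        _ = _ := by ring
    have t2 := mul_le_mul_of_nonneg_left (abs_le.1 t1).2 hac
    nlinarith [t2]
  -- (E)
  have hE : -(2 * (a * c * (|S| * |e|))) ≤ 2 * (a * c * S * e) := by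
    have t1 : -(|S| * |e|) ≤ S * e := by
      rw [← abs_mul]
      exact neg_abs_le _
    have t2 := mul_le_mul_of_nonneg_left t1 hac
    nlinarith [t2]
  -- (F)
  have hF : 0 ≤ a * ct * e ^ 2 := mul_nonneg (mul_nonneg ha0 hct) (sq_nonneg e)
  have key : (-3 * (-b * c + a * c1) * e1 ^ 2
      + (a3 * c + 3 * (a2 * c1) + 3 * (-b * c2) + a * c3) * e ^ 2
        - (-b * c + a * c1) * nGG U e / 3 - 2 * (a * c) * U1 * nG2 U e
        + 2 * (-b * c + a * c1) * nG U e * e + 2 * (a * c * S * e) + a * ct * e ^ 2)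
      = 3 * (b * c * e1 ^ 2) + -3 * (a * c1) * e1 ^ 2
        + (a3 * c + 3 * (a2 * c1) + 3 * (-b * c2) + a * c3) * e ^ 2
        + (b * c) * (nGG U e / 3 - 2 * (nG U e * e))
        + -((a * c1) * (nGG U e / 3 - 2 * (nG U e * e)))
        + -(2 * (a * c) * U1 * nG2 U e) + 2 * (a * c * S * e) + a * ct * e ^ 2 := by ring
  rw [key]
  linarith

theorem ptf {a b c d d1 n s l C0 W W1 N : ℝ} (hb0 : 0 ≤ b) (hba : b ≤ a) (hc0 : 0 ≤ c)
    (hC0 : 0 < C0) (hl : 0 < l) (hl1 : l ≤ 1) (hs : 0 ≤ s) (hd : d ^ 2 ≤ c + n)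
    (hd1 : |d1| ≤ C0 / l ^ 1 * n) (hn : n = 0 ∨ (n = 1 ∧ a ≤ s)) (hN2 : W ^ 2 ≤ N)
    (hN1 : l ^ 2 * W1 ^ 2 ≤ N) :
    b * ((d1 * W + d * W1) ^ 2 + (d * W) ^ 2) ≤
      2 * (b * c * W1 ^ 2) + a * c * W ^ 2 + (3 + 2 * C0 ^ 2) * (s / l ^ 3 * (n * N)) := by
  have hn0 : 0 ≤ n := by
    rcases hn with h | h
    · rw [h]
    · rw [h.1]; norm_num
  have hN0 : 0 ≤ N := (sq_nonneg W).trans hN2
  have hl2 : 0 < l ^ 2 := by positivity
  have hl3 : 0 < l ^ 3 := by positivity
  have hl32 : l ^ 3 ≤ l ^ 2 := pow_le_pow_of_le_one hl.le hl1 (by norm_num)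
  have han : a * n ≤ s * n := by
    rcases hn with h | h
    · rw [h]; simp
    · exact mul_le_mul_of_nonneg_right h.2 hn0
  have hbn : b * n ≤ s * n := (mul_le_mul_of_nonneg_right hba hn0).trans han
  have hbn0 : 0 ≤ b * n := mul_nonneg hb0 hn0
  have hnn : n * n = n := by
    rcases hn with h | h
    · rw [h]; ring
    · rw [h.1]; ring
  have hq : N ≤ N / l ^ 3 := by
    rw [le_div_iff₀ hl3]
    have : l ^ 3 ≤ 1 := pow_le_one₀ hl.le hl1
    nlinarith
  have hW1 : W1 ^ 2 ≤ N / l ^ 3 := by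
    rw [le_div_iff₀ hl3]
    have := mul_le_mul_of_nonneg_left hl32 (sq_nonneg W1)
    linarith
  have e0 : s / l ^ 3 * (n * N) = s * n * (N / l ^ 3) := by ring
  have e1 : b * (d * W) ^ 2 ≤ a * c * W ^ 2 + s / l ^ 3 * (n * N) := by
    calc b * (d * W) ^ 2 = b * W ^ 2 * d ^ 2 := by ring
      _ ≤ b * W ^ 2 * (c + n) := mul_le_mul_of_nonneg_left hd (mul_nonneg hb0 (sq_nonneg _))
      _ = b * (c * W ^ 2) + b * n * W ^ 2 := by ring
      _ ≤ a * (c * W ^ 2) + s * n * (N / l ^ 3) := by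
          refine add_le_add (mul_le_mul_of_nonneg_right hba (mul_nonneg hc0 (sq_nonneg _))) ?_
          exact mul_le_mul hbn (hN2.trans hq) (sq_nonneg _) (hbn0.trans hbn)
      _ = _ := by rw [e0]; ring
  have e2 : b * (d * W1) ^ 2 ≤ b * c * W1 ^ 2 + s / l ^ 3 * (n * N) := by
    calc b * (d * W1) ^ 2 = b * W1 ^ 2 * d ^ 2 := by ring
      _ ≤ b * W1 ^ 2 * (c + n) := mul_le_mul_of_nonneg_left hd (mul_nonneg hb0 (sq_nonneg _))
      _ = b * c * W1 ^ 2 + b * n * W1 ^ 2 := by ring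
      _ ≤ b * c * W1 ^ 2 + s * n * (N / l ^ 3) := by
          refine add_le_add le_rfl ?_
          exact mul_le_mul hbn hW1 (sq_nonneg _) (hbn0.trans hbn)
      _ = _ := by rw [e0]
  have e3 : b * (d1 * W) ^ 2 ≤ C0 ^ 2 * (s / l ^ 3 * (n * N)) := by
    have t1 : d1 ^ 2 ≤ (C0 / l ^ 1 * n) ^ 2 := by
      rw [← sq_abs d1]
      exact pow_le_pow_left₀ (abs_nonneg _) hd1 2
    have t2 : (C0 / l ^ 1 * n) ^ 2 = C0 ^ 2 / l ^ 2 * n := by
      rw [mul_pow, sq n, hnn, div_pow]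
      ring
    have t3 : N / l ^ 2 ≤ N / l ^ 3 := div_le_div_of_nonneg_left hN0 hl3 hl32
    calc b * (d1 * W) ^ 2 = b * W ^ 2 * d1 ^ 2 := by ring
      _ ≤ b * W ^ 2 * (C0 ^ 2 / l ^ 2 * n) :=
          mul_le_mul_of_nonneg_left (t1.trans t2.le) (mul_nonneg hb0 (sq_nonneg _))
      _ = C0 ^ 2 * (b * n) * (W ^ 2 / l ^ 2) := by ring
      _ ≤ C0 ^ 2 * (s * n) * (N / l ^ 3) := by
          refine mul_le_mul (mul_le_mul_of_nonneg_left hbn (sq_nonneg _)) ?_ (by positivity) ?_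
          · exact (div_le_div_of_nonneg_right hN2 hl2.le).trans t3
          · exact mul_nonneg (sq_nonneg _) (hbn0.trans hbn)
      _ = _ := by ring
  have e4 : (d1 * W + d * W1) ^ 2 ≤ 2 * (d1 * W) ^ 2 + 2 * (d * W1) ^ 2 := by
    nlinarith [sq_nonneg (d1 * W - d * W1)]
  calc b * ((d1 * W + d * W1) ^ 2 + (d * W) ^ 2)
      ≤ b * (2 * (d1 * W) ^ 2 + 2 * (d * W1) ^ 2 + (d * W) ^ 2) := by
        refine mul_le_mul_of_nonneg_left ?_ hb0
        linarith
    _ = 2 * (b * (d1 * W) ^ 2) + 2 * (b * (d * W1) ^ 2) + b * (d * W) ^ 2 := by ring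
    _ ≤ 2 * (C0 ^ 2 * (s / l ^ 3 * (n * N))) + 2 * (b * c * W1 ^ 2 + s / l ^ 3 * (n * N))
        + (a * c * W ^ 2 + s / l ^ 3 * (n * N)) := by linarith
    _ = _ := by ring

/-- `λ^2 w^6 ≤ w^2 + λ^4 w^10` -/
theorem six_le (l W : ℝ) : l ^ 2 * W ^ 6 ≤ W ^ 2 + l ^ 4 * W ^ 10 := by
  nlinarith [sq_nonneg (W - l ^ 2 * W ^ 5), mul_nonneg (sq_nonneg l) (sq_nonneg (W ^ 3)),
    sq_nonneg (l * W ^ 3), sq_nonneg W, sq_nonneg (l ^ 2 * W ^ 5)]

/-! ### integrability -/

theorem int_bw {v F : ℝ → ℝ} (hv : AEStronglyMeasurable v volume) {C : ℝ}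
    (hC : ∀ x, |v x| ≤ C) (hF : Integrable F) : Integrable fun x => v x * F x :=
  Integrable.bdd_mul (c := C) hF hv (Eventually.of_forall fun y => by
    simpa [Real.norm_eq_abs] using hC y)

theorem HI_abs {W : ℝ → ℝ} (h : HI W) : ∃ M : ℝ, 0 ≤ M ∧ ∀ x, |W x| ≤ M := by
  obtain ⟨B, hB⟩ := Pool.Agent.Helper23.KV.HI_bdd h
  exact ⟨Real.sqrt B, Real.sqrt_nonneg _, fun x => Real.abs_le_sqrt (hB x)⟩

theorem HI_deriv {W : ℝ → ℝ} (h : HI W) : HI (deriv W) := by
  have h0 : ContDiff ℝ (((⊤ : ℕ∞) : WithTop ℕ∞) + 1) W := by simpa using h.1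
  refine ⟨((contDiff_succ_iff_deriv (𝕜 := ℝ)).mp h0).2.2, fun k => ?_⟩
  have h1 := h.2 (k + 1)
  rwa [iteratedDeriv_succ'] at h1

theorem HI_mul {d W : ℝ → ℝ} (hd : ContDiff ℝ (⊤ : ℕ∞) d)
    (hb : ∀ k, ∃ C, ∀ x, |iteratedDeriv k d x| ≤ C) (h : HI W) : HI (fun x => d x * W x) := by
  refine ⟨hd.mul h.1, fun k => ?_⟩
  have e : iteratedDeriv k (fun x => d x * W x) = fun x => ∑ i ∈ Finset.range (k + 1),
      (k.choose i : ℝ) * iteratedDeriv i d x * iteratedDeriv (k - i) W x := by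
    funext x
    exact iteratedDeriv_fun_mul ((hd.of_le (by exact_mod_cast le_top)).contDiffAt)
      ((h.1.of_le (by exact_mod_cast le_top)).contDiffAt)
  rw [e]
  refine memLp_finsetSum _ fun i _ => ?_
  obtain ⟨C, hC⟩ := hb i
  have hc : Continuous (iteratedDeriv i d) :=
    hd.continuous_iteratedDeriv i (by exact_mod_cast le_top)
  have h1 : MemLp (fun x => iteratedDeriv i d x * iteratedDeriv (k - i) W x) 2 :=
    (h.2 (k - i)).of_le_mul (c := C) (hc.aestronglyMeasurable.mul (h.2 (k - i)).1)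
      (Eventually.of_forall fun x => by
        rw [norm_mul]
        exact mul_le_mul_of_nonneg_right (by simpa [Real.norm_eq_abs] using hC x) (norm_nonneg _))
  have h2 := h1.const_mul (k.choose i : ℝ)
  refine h2.congr_norm ?_ ?_
  · exact (continuous_const.mul hc).aestronglyMeasurable.mul (h.2 (k - i)).1
  · exact Eventually.of_forall fun x => by simp only [norm_mul]; ring

theorem ind_cases (α K t x : ℝ) : ind α K t x = 0 ∨ (ind α K t x = 1 ∧ x ∈ nearS α K t) := by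
  by_cases h : x ∈ nearS α K t
  · right
    exact ⟨indicator_of_mem h _, h⟩
  · left
    exact indicator_of_notMem h _

/-- the third derivative of a product -/
theorem iter3_mul {f g : ℝ → ℝ} (hf : ContDiff ℝ (⊤ : ℕ∞) f) (hg : ContDiff ℝ (⊤ : ℕ∞) g)
    (x : ℝ) : iteratedDeriv 3 (fun x => f x * g x) x =
      iteratedDeriv 3 f x * g x + 3 * (iteratedDeriv 2 f x * iteratedDeriv 1 g x)
        + 3 * (iteratedDeriv 1 f x * iteratedDeriv 2 g x) + f x * iteratedDeriv 3 g x := by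
  rw [iteratedDeriv_fun_mul (contDiff_infty.1 hf 3).contDiffAt
    (contDiff_infty.1 hg 3).contDiffAt]
  simp only [Finset.sum_range_succ, Finset.sum_range_zero, iteratedDeriv_zero]
  norm_num [Nat.choose]
  ring

theorem zF_it (k : ℕ) (t x : ℝ) : iteratedDeriv k (zF t) x = 0 := by
  have e : zF t = fun _ => (0 : ℝ) := rfl
  rw [e]
  have h : ∀ k : ℕ, iteratedDeriv k (fun _ : ℝ => (0 : ℝ)) = fun _ => 0 := by
    intro k
    induction k with
    | zero => rw [iteratedDeriv_zero]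
    | succ k ih =>
      rw [iteratedDeriv_succ, ih]
      funext x
      exact deriv_const x 0
  rw [h]

theorem tInt_eq {α K X L t : ℝ} (hL : 1 ≤ L) (hc : ContDiff ℝ (⊤ : ℕ∞) (cJ α K t))
    (g gt w wt0 : ℝ → ℝ → ℝ) (x : ℝ) :
    tInt (pK α K X L) (pKt α K X L) zF zF g gt w wt0 t x =
      (-3 * (-bK X L x * cJ α K t x + aK X L x * iteratedDeriv 1 (cJ α K t) x)
            * deriv (w t) x ^ 2
        + (-ph3 L 1 (-(x + X)) * cJ α K t x
            + 3 * (ph2 L 1 (-(x + X)) * iteratedDeriv 1 (cJ α K t) x)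
            + 3 * (-bK X L x * iteratedDeriv 2 (cJ α K t) x)
            + aK X L x * iteratedDeriv 3 (cJ α K t) x) * w t x ^ 2
        - (-bK X L x * cJ α K t x + aK X L x * iteratedDeriv 1 (cJ α K t) x)
            * nGG (g t x) (w t x) / 3
        - 2 * (aK X L x * cJ α K t x) * deriv (g t) x * nG2 (g t x) (w t x)
        + 2 * (-bK X L x * cJ α K t x + aK X L x * iteratedDeriv 1 (cJ α K t) x)
            * nG (g t x) (w t x) * w t x
        + 2 * (aK X L x * cJ α K t x * srcS g w wt0 t x * w t x)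
        + aK X L x * cJt α K t x * w t x ^ 2) := by
  have e1 : deriv (pK α K X L t) x =
      -bK X L x * cJ α K t x + aK X L x * iteratedDeriv 1 (cJ α K t) x := by
    rw [iteratedDeriv_one]
    exact ((aK_deriv x).mul (hc.differentiable (by simp) x).hasDerivAt).deriv
  have e3 : iteratedDeriv 3 (pK α K X L t) x = -ph3 L 1 (-(x + X)) * cJ α K t x
            + 3 * (ph2 L 1 (-(x + X)) * iteratedDeriv 1 (cJ α K t) x)
            + 3 * (-bK X L x * iteratedDeriv 2 (cJ α K t) x)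
            + aK X L x * iteratedDeriv 3 (cJ α K t) x := by
    have h := iter3_mul (aK_smooth (X := X) (L := L)) hc x
    rw [aK_i3 (by linarith), aK_i2, aK_i1] at h
    exact h
  have z1 : deriv (zF t) x = 0 := by rw [← iteratedDeriv_one, zF_it]
  have z0 : zF t x = 0 := rfl
  rw [tInt, rhsD, e1, e3, z1, zF_it, zF_it, z0]
  simp only [pK, pKt]
  ring

end KIN

open KIN in
theorem kineq (h1 : S_WT0) (h2 : S_CUT) (h3 : S_SCL) (h4 : S_ALG) (h5 : S_WGN) : S_KINEQ := by
  clear h1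
  intro α K hα hα1 hK
  obtain ⟨C0, T0, hC0, hT0, hT01, hT0a, hcut, hB⟩ := h2 α K hα hα1 hK
  refine ⟨204 + 107 * C0 + C0 ^ 2, T0, by nlinarith, hT0, hT01, fun X L hX hL => ⟨?_, ?_⟩⟩
  · intro t1 t2 ht1 ht12 ht2
    exact BInf_amul aK_smooth aK_bd (hB t1 t2 ht1 ht12 ht2).2
  intro t ht htT g gt w wt0 hg0 hg hgI hwI hSI hint hNd
  obtain ⟨-, -, hl, hl1, -⟩ := h3 α t hα hα1 ht (by nlinarith)
  obtain ⟨-, hd01, -, -, -, -, -, hnear, hmeas, hder, hct, hdc⟩ := hcut t ht htT
  have htt : t ∈ Icc t t := ⟨le_rfl, le_rfl⟩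
  obtain ⟨hBd, hBc⟩ := hB t t ht le_rfl htT
  have hds := hBd.smooth t htt
  have hcs := hBc.smooth t htt
  have hdb : ∀ k, ∃ C, ∀ x, |iteratedDeriv k (dJ α K t) x| ≤ C := fun k => by
    obtain ⟨C, hC⟩ := hBd.bound k
    exact ⟨C, hC t htt⟩
  have hL0 : 0 < L := by linarith
  obtain ⟨M, hM0, hM⟩ := HI_abs hwI
  obtain ⟨M1, hM10, hM1⟩ := HI_abs (HI_deriv hgI)
  set s : ℝ := Real.exp (-((X - 1) / L)) with hs
  have hs0 : 0 ≤ s := (Real.exp_pos _).le
  have hc01 : ∀ x, 0 ≤ cJ α K t x ∧ cJ α K t x ≤ 1 := fun x =>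
    ⟨pow_nonneg (hd01 x).1 _, pow_le_one₀ (hd01 x).1 (hd01 x).2⟩
  have hwc : Continuous (w t) := hwI.1.continuous
  have hac : Continuous (fun x => aK X L x * cJ α K t x) := aK_smooth.continuous.mul hcs.continuous
  have hbc : Continuous (fun x => bK X L x * cJ α K t x) := bK_smooth.continuous.mul hcs.continuous
  have hacb : ∀ x, |aK X L x * cJ α K t x| ≤ 1 := fun x => by
    obtain ⟨f1, f2, f3, f4, -, -⟩ := aK_facts (X := X) hL x
    rw [abs_mul, abs_of_pos f1, abs_of_nonneg (hc01 x).1]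
    exact mul_le_one₀ f2.le (hc01 x).1 (hc01 x).2
  have hbcb : ∀ x, |bK X L x * cJ α K t x| ≤ 1 := fun x => by
    obtain ⟨f1, f2, f3, f4, -, -⟩ := aK_facts (X := X) hL x
    rw [abs_mul, abs_of_pos f3, abs_of_nonneg (hc01 x).1]
    exact mul_le_one₀ (f4.trans f2.le) (hc01 x).1 (hc01 x).2
  -- square integrable functions
  have m0 : MemLp (w t) 2 := by simpa using hwI.2 0
  have m1 : MemLp (deriv (w t)) 2 := by simpa [iteratedDeriv_one] using hwI.2 1
  have m2 : MemLp (iteratedDeriv 2 (w t)) 2 := hwI.2 2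
  have mS : MemLp (srcS g w wt0 t) 2 := by simpa using hSI.2 0
  have i0 : Integrable (fun x => w t x ^ 2) := m0.integrable_sq
  have i1 : Integrable (fun x => deriv (w t) x ^ 2) := m1.integrable_sq
  have i2 : Integrable (fun x => iteratedDeriv 2 (w t) x ^ 2) := m2.integrable_sq
  -- the integrands
  have I1 : Integrable (fun x => bK X L x * cJ α K t x * deriv (w t) x ^ 2) :=
    int_bw hbc.aestronglyMeasurable hbcb i1
  have I2 : Integrable (fun x => aK X L x * cJ α K t x * w t x ^ 2) :=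
    int_bw hac.aestronglyMeasurable hacb i0
  have hw4 : ∀ x, |w t x ^ 4| ≤ M ^ 4 := fun x => by
    rw [abs_pow]; exact pow_le_pow_left₀ (abs_nonneg _) (hM x) 4
  have hw8 : ∀ x, |w t x ^ 8| ≤ M ^ 8 := fun x => by
    rw [abs_pow]; exact pow_le_pow_left₀ (abs_nonneg _) (hM x) 8
  have j6 : Integrable (fun x => w t x ^ 6) := by
    have h := int_bw (hwc.pow 4).aestronglyMeasurable hw4 i0
    refine h.congr (Eventually.of_forall fun x => ?_)
    show w t x ^ 4 * w t x ^ 2 = _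
    ring
  have j10 : Integrable (fun x => w t x ^ 10) := by
    have h := int_bw (hwc.pow 8).aestronglyMeasurable hw8 i0
    refine h.congr (Eventually.of_forall fun x => ?_)
    show w t x ^ 8 * w t x ^ 2 = _
    ring
  have I3 : Integrable (fun x => bK X L x * cJ α K t x * w t x ^ 6) :=
    int_bw hbc.aestronglyMeasurable hbcb j6
  have jn : Integrable (nrI α t (w t)) := by
    have h := (((i2.const_mul (lam α t ^ 4)).add (i1.const_mul (lam α t ^ 2))).add i0).add
      (j10.const_mul (lam α t ^ 4))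
    exact h
  have I4 : Integrable (fun x => ind α K t x * nrI α t (w t) x) := by
    have h := jn.indicator hmeas
    refine h.congr (Eventually.of_forall fun x => ?_)
    rcases ind_cases α K t x with h' | h'
    · have hx : x ∉ nearS α K t := by
        intro hx
        have : ind α K t x = 1 := indicator_of_mem hx _
        rw [this] at h'
        exact one_ne_zero h'
      show _ = ind α K t x * nrI α t (w t) x
      rw [h', zero_mul]
      exact indicator_of_notMem hx _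
    · show _ = ind α K t x * nrI α t (w t) x
      rw [h'.1, one_mul]
      exact indicator_of_mem h'.2 _
  have hgd : Continuous (deriv (g t)) := (HI_deriv hgI).1.continuous
  have I5 : Integrable (fun x => aK X L x * cJ α K t x * (|deriv (g t) x| * |w t x| ^ 5)) := by
    refine int_bw hac.aestronglyMeasurable hacb ?_
    have h := int_bw (v := fun x => |deriv (g t) x| * |w t x| ^ 3) (C := M1 * M ^ 3)
      ((hgd.abs.mul (hwc.abs.pow 3)).aestronglyMeasurable) (fun x => by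
        rw [abs_mul, abs_abs, abs_pow, abs_abs]
        exact mul_le_mul (hM1 x) (pow_le_pow_left₀ (abs_nonneg _) (hM x) 3) (by positivity) hM10)
      i0
    refine h.congr (Eventually.of_forall fun x => ?_)
    show |deriv (g t) x| * |w t x| ^ 3 * w t x ^ 2 = |deriv (g t) x| * |w t x| ^ 5
    rw [← sq_abs (w t x)]
    ring
  have I6 : Integrable (fun x => aK X L x * cJ α K t x * (|srcS g w wt0 t x| * |w t x|)) := by
    refine int_bw hac.aestronglyMeasurable hacb ?_
    have h : Integrable (fun x => srcS g w wt0 t x * w t x) := mS.integrable_mul m0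
    refine h.abs.congr (Eventually.of_forall fun x => ?_)
    exact abs_mul _ _
  -- the pointwise inequality
  have hpt : ∀ x, 3 * (bK X L x * cJ α K t x * deriv (w t) x ^ 2) ≤
      tInt (pK α K X L) (pKt α K X L) zF zF g gt w wt0 t x
      + 181 * (aK X L x * cJ α K t x * w t x ^ 2)
      + 100 * (bK X L x * cJ α K t x * w t x ^ 6)
      + 107 * C0 * (s / lam α t ^ 3 * (ind α K t x * nrI α t (w t) x))
      + 80 * (aK X L x * cJ α K t x * (|deriv (g t) x| * |w t x| ^ 5))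
      + 2 * (aK X L x * cJ α K t x * (|srcS g w wt0 t x| * |w t x|)) := by
    intro x
    obtain ⟨f1, f2, f3, f4, f5, f6⟩ := aK_facts (X := X) hL x
    obtain ⟨c1, c2, c3⟩ := hct x
    have n1 := (hder 1 le_rfl (by norm_num) x).2
    have n2 := (hder 2 (by norm_num) (by norm_num) x).2
    have n3 := (hder 3 (by norm_num) le_rfl x).2
    have hn : ind α K t x = 0 ∨ (ind α K t x = 1 ∧ aK X L x ≤ s ∧ g t x = 0) := by
      rcases ind_cases α K t x with h | h
      · exact Or.inl h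
      · exact Or.inr ⟨h.1, aK_small hL (hnear x h.2).1, hg0 x (hnear x h.2).1⟩
    have hnr : nrI α t (w t) x = lam α t ^ 4 * iteratedDeriv 2 (w t) x ^ 2
      + lam α t ^ 2 * deriv (w t) x ^ 2 + w t x ^ 2 + lam α t ^ 4 * w t x ^ 10 := rfl
    have p1 : 0 ≤ lam α t ^ 4 * iteratedDeriv 2 (w t) x ^ 2 := by positivity
    have p2 : 0 ≤ lam α t ^ 2 * deriv (w t) x ^ 2 := by positivity
    have p3 : 0 ≤ lam α t ^ 4 * w t x ^ 10 := by positivity
    have hN2 : w t x ^ 2 ≤ nrI α t (w t) x := by rw [hnr]; linarith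
    have hN6 : w t x ^ 6 ≤ nrI α t (w t) x / lam α t ^ 2 := by
      rw [le_div_iff₀ (by positivity), hnr]
      have := six_le (lam α t) (w t x)
      linarith
    rw [tInt_eq hL hcs]
    exact ptw h4 f1.le f3.le f4 f5 f6 (hc01 x).1 (by rw [iteratedDeriv_one]; exact c3) hC0 hl hl1
      n1 n2 n3 c2 hn hs0 (hg x).1 (hg x).2 hN2 hN6
  -- integrate
  have hI : 3 * Bk α K X L t (w t) ≤
      (∫ x, tInt (pK α K X L) (pKt α K X L) zF zF g gt w wt0 t x)
      + 181 * (∫ x, aK X L x * cJ α K t x * w t x ^ 2)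
      + 100 * (∫ x, bK X L x * cJ α K t x * w t x ^ 6)
      + 107 * C0 * (s / lam α t ^ 3 * NRf α K t (w t))
      + 80 * (∫ x, aK X L x * cJ α K t x * (|deriv (g t) x| * |w t x| ^ 5))
      + 2 * (∫ x, aK X L x * cJ α K t x * (|srcS g w wt0 t x| * |w t x|)) := by
    have J1 := hint.add (I2.const_mul 181)
    have J2 := J1.add (I3.const_mul 100)
    have J3 := J2.add ((I4.const_mul (s / lam α t ^ 3)).const_mul (107 * C0))
    have J4 := J3.add (I5.const_mul 80)
    have J5 := J4.add (I6.const_mul 2)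
    have h := integral_mono (I1.const_mul 3) J5 hpt
    rw [integral_const_mul] at h
    refine h.trans (le_of_eq ?_)
    rw [integral_add' J4 (I6.const_mul 2), integral_add' J3 (I5.const_mul 80),
      integral_add' J2 ((I4.const_mul (s / lam α t ^ 3)).const_mul (107 * C0)),
      integral_add' J1 (I3.const_mul 100), integral_add' hint (I2.const_mul 181)]
    simp only [integral_const_mul]
    rfl
  -- the nonlinear term
  have hN : 100 * (∫ x, bK X L x * cJ α K t x * w t x ^ 6) ≤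
      800 * Nd α K t (w t) ^ 2 * (2 * Bk α K X L t (w t)
        + (∫ x, aK X L x * cJ α K t x * w t x ^ 2)
        + (3 + 2 * C0 ^ 2) * (s / lam α t ^ 3 * NRf α K t (w t))) := by
    have hfI : HI (fun x => dJ α K t x * w t x) := HI_mul hds hdb hwI
    have hfd := HI_deriv hfI
    have k0 : MemLp (fun x => dJ α K t x * w t x) 2 := by simpa using hfI.2 0
    have k1 : MemLp (deriv (fun x => dJ α K t x * w t x)) 2 := by simpa using hfd.2 0
    have k2 : MemLp (deriv (deriv (fun x => dJ α K t x * w t x))) 2 := by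
      simpa [iteratedDeriv_one] using hfd.2 1
    obtain ⟨-, hW, -⟩ := h5 (bK X L) 1 (bK_smooth.of_le (by exact_mod_cast le_top))
      (fun x => (aK_facts hL x).2.2.1)
      (fun x => (aK_facts (X := X) hL x).2.2.2.1.trans (aK_facts (X := X) hL x).2.1.le)
      (fun x => by
        rw [(bK_deriv x).deriv, abs_neg]
        exact (aK_facts (X := X) hL x).2.2.2.2.1) (fun x => dJ α K t x * w t x)
      (contDiff_infty.1 hfI.1 2) k0 k1 k2
    have hNd' : (∫ x, (dJ α K t x * w t x) ^ 2) = Nd α K t (w t) := by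
      rw [Nd]
      exact integral_congr_ae (Eventually.of_forall fun x => by
        show (dJ α K t x * w t x) ^ 2 = dJ α K t x ^ 2 * w t x ^ 2
        ring)
    rw [hNd'] at hW
    have hbcont : Continuous (bK X L) := bK_smooth.continuous
    have hbb : ∀ x, |bK X L x| ≤ 1 := fun x => by
      obtain ⟨f1, f2, f3, f4, -, -⟩ := aK_facts (X := X) hL x
      rw [abs_of_pos f3]
      exact f4.trans f2.le
    have hfc : Continuous (fun x => dJ α K t x * w t x) := hfI.1.continuous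
    have hfb : ∀ x, |(dJ α K t x * w t x) ^ 4| ≤ M ^ 4 := fun x => by
      rw [abs_pow]
      refine pow_le_pow_left₀ (abs_nonneg _) ?_ 4
      rw [abs_mul, abs_of_nonneg (hd01 x).1]
      calc dJ α K t x * |w t x| ≤ 1 * |w t x| :=
            mul_le_mul_of_nonneg_right (hd01 x).2 (abs_nonneg _)
        _ ≤ M := by rw [one_mul]; exact hM x
    have jf6 : Integrable (fun x => bK X L x * (dJ α K t x * w t x) ^ 6) := by
      refine int_bw hbcont.aestronglyMeasurable hbb ?_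
      have h := int_bw (hfc.pow 4).aestronglyMeasurable hfb k0.integrable_sq
      refine h.congr (Eventually.of_forall fun x => ?_)
      show (dJ α K t x * w t x) ^ 4 * (dJ α K t x * w t x) ^ 2 = (dJ α K t x * w t x) ^ 6
      ring
    have hle6 : (∫ x, bK X L x * cJ α K t x * w t x ^ 6) ≤
        ∫ x, bK X L x * (dJ α K t x * w t x) ^ 6 := by
      refine integral_mono I3 jf6 fun x => ?_
      show bK X L x * cJ α K t x * w t x ^ 6 ≤ bK X L x * (dJ α K t x * w t x) ^ 6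
      have e : cJ α K t x ≤ dJ α K t x ^ 6 :=
        pow_le_pow_of_le_one (hd01 x).1 (hd01 x).2 (by norm_num)
      rw [mul_pow, mul_assoc]
      exact mul_le_mul_of_nonneg_left (mul_le_mul_of_nonneg_right e (by positivity))
        (aK_facts hL x).2.2.1.le
    have hlast : (∫ x, bK X L x * (deriv (fun x => dJ α K t x * w t x) x ^ 2
        + (dJ α K t x * w t x) ^ 2)) ≤ 2 * Bk α K X L t (w t)
        + (∫ x, aK X L x * cJ α K t x * w t x ^ 2)
        + (3 + 2 * C0 ^ 2) * (s / lam α t ^ 3 * NRf α K t (w t)) := by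
      have J1 := (I1.const_mul 2).add I2
      have J2 := J1.add ((I4.const_mul (s / lam α t ^ 3)).const_mul (3 + 2 * C0 ^ 2))
      have jl : Integrable (fun x => bK X L x * (deriv (fun x => dJ α K t x * w t x) x ^ 2
        + (dJ α K t x * w t x) ^ 2)) :=
        int_bw hbcont.aestronglyMeasurable hbb (k1.integrable_sq.add k0.integrable_sq)
      have h := integral_mono jl J2 (fun x => by
        obtain ⟨f1, f2, f3, f4, f5, f6⟩ := aK_facts (X := X) hL x
        have n1 := (hder 1 le_rfl (by norm_num) x).1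
        have hn : ind α K t x = 0 ∨ (ind α K t x = 1 ∧ aK X L x ≤ s) := by
          rcases ind_cases α K t x with h | h
          · exact Or.inl h
          · exact Or.inr ⟨h.1, aK_small hL (hnear x h.2).1⟩
        have hnr : nrI α t (w t) x = lam α t ^ 4 * iteratedDeriv 2 (w t) x ^ 2
          + lam α t ^ 2 * deriv (w t) x ^ 2 + w t x ^ 2 + lam α t ^ 4 * w t x ^ 10 := rfl
        have p1 : 0 ≤ lam α t ^ 4 * iteratedDeriv 2 (w t) x ^ 2 := by positivity
        have p2 : 0 ≤ lam α t ^ 2 * deriv (w t) x ^ 2 := by positivity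
        have p3 : 0 ≤ lam α t ^ 4 * w t x ^ 10 := by positivity
        have p4 : 0 ≤ w t x ^ 2 := by positivity
        have e : deriv (fun x => dJ α K t x * w t x) x =
            iteratedDeriv 1 (dJ α K t) x * w t x + dJ α K t x * deriv (w t) x := by
          rw [iteratedDeriv_one]
          exact ((hds.differentiable (by simp) x).hasDerivAt.mul
            (hwI.1.differentiable (by simp) x).hasDerivAt).deriv
        show bK X L x * (deriv (fun x => dJ α K t x * w t x) x ^ 2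
          + (dJ α K t x * w t x) ^ 2) ≤ 2 * (bK X L x * cJ α K t x * deriv (w t) x ^ 2)
          + aK X L x * cJ α K t x * w t x ^ 2
          + (3 + 2 * C0 ^ 2) * (s / lam α t ^ 3 * (ind α K t x * nrI α t (w t) x))
        rw [e]
        exact ptf f3.le f4 (hc01 x).1 hC0 hl hl1 hs0 (hdc x) n1 hn (by rw [hnr]; linarith)
          (by rw [hnr]; linarith))
      refine h.trans (le_of_eq ?_)
      rw [integral_add' J1 ((I4.const_mul (s / lam α t ^ 3)).const_mul (3 + 2 * C0 ^ 2)),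
        integral_add' (I1.const_mul 2) I2]
      simp only [integral_const_mul]
      rfl
    calc 100 * (∫ x, bK X L x * cJ α K t x * w t x ^ 6)
        ≤ 100 * (8 * Nd α K t (w t) ^ 2 * ∫ x, bK X L x *
            (deriv (fun x => dJ α K t x * w t x) x ^ 2 + (dJ α K t x * w t x) ^ 2)) :=
          mul_le_mul_of_nonneg_left (hle6.trans hW) (by norm_num)
      _ ≤ 100 * (8 * Nd α K t (w t) ^ 2 * (2 * Bk α K X L t (w t)
        + (∫ x, aK X L x * cJ α K t x * w t x ^ 2)
        + (3 + 2 * C0 ^ 2) * (s / lam α t ^ 3 * NRf α K t (w t)))) :=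
          mul_le_mul_of_nonneg_left (mul_le_mul_of_nonneg_left hlast (by positivity)) (by norm_num)
      _ = _ := by ring
  -- conclusion
  have hNd0 : 0 ≤ Nd α K t (w t) := integral_nonneg fun x => by
    show 0 ≤ dJ α K t x ^ 2 * w t x ^ 2
    positivity
  have hBk0 : 0 ≤ Bk α K X L t (w t) := integral_nonneg fun x => by
    show 0 ≤ bK X L x * cJ α K t x * deriv (w t) x ^ 2
    exact mul_nonneg (mul_nonneg (aK_facts hL x).2.2.1.le (hc01 x).1) (sq_nonneg _)
  have hA0 : 0 ≤ ∫ x, aK X L x * cJ α K t x * w t x ^ 2 := integral_nonneg fun x => by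
    show 0 ≤ aK X L x * cJ α K t x * w t x ^ 2
    exact mul_nonneg (mul_nonneg (aK_facts hL x).1.le (hc01 x).1) (sq_nonneg _)
  have hNR0 : 0 ≤ NRf α K t (w t) := integral_nonneg fun x => by
    show 0 ≤ ind α K t x * nrI α t (w t) x
    refine mul_nonneg ?_ ?_
    · rcases ind_cases α K t x with h | h
      · rw [h]
      · rw [h.1]; norm_num
    · rw [nrI]; positivity
  have hR0 : 0 ≤ s / lam α t ^ 3 * NRf α K t (w t) := by positivity
  have h50 : 0 ≤ ∫ x, aK X L x * cJ α K t x * (|deriv (g t) x| * |w t x| ^ 5) :=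
    integral_nonneg fun x => by
      show 0 ≤ aK X L x * cJ α K t x * (|deriv (g t) x| * |w t x| ^ 5)
      exact mul_nonneg (mul_nonneg (aK_facts hL x).1.le (hc01 x).1) (by positivity)
  have hNs : 800 * Nd α K t (w t) ^ 2 ≤ 1 / 2 := by
    have h40 : 40 * Nd α K t (w t) ≤ 1 := by
      refine le_trans (mul_le_mul_of_nonneg_right ?_ hNd0) hNd
      nlinarith [sq_nonneg C0]
    nlinarith
  have hN' := hN.trans (mul_le_mul_of_nonneg_right hNs (by positivity))
  have e1 : 181 * (∫ x, aK X L x * cJ α K t x * w t x ^ 2)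
      + 1 / 2 * (∫ x, aK X L x * cJ α K t x * w t x ^ 2) ≤
      (204 + 107 * C0 + C0 ^ 2) * (∫ x, aK X L x * cJ α K t x * w t x ^ 2) := by
    nlinarith [mul_nonneg hC0.le hA0, mul_nonneg (sq_nonneg C0) hA0]
  have e2 : 107 * C0 * (s / lam α t ^ 3 * NRf α K t (w t))
      + 1 / 2 * ((3 + 2 * C0 ^ 2) * (s / lam α t ^ 3 * NRf α K t (w t))) ≤
      (204 + 107 * C0 + C0 ^ 2) * (s / lam α t ^ 3 * NRf α K t (w t)) := by
    nlinarith
  have e3 : 80 * (∫ x, aK X L x * cJ α K t x * (|deriv (g t) x| * |w t x| ^ 5)) ≤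
      (204 + 107 * C0 + C0 ^ 2) *
        (∫ x, aK X L x * cJ α K t x * (|deriv (g t) x| * |w t x| ^ 5)) := by
    nlinarith [mul_nonneg hC0.le h50, mul_nonneg (sq_nonneg C0) h50]
  linarith

end Pool.Agent.Helper77.KV
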