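import Pool.Agent.Helper41.KV.GoalsD
import Pool.Agent.Helper61.KV.ECL1
import Pool.Agent.Helper61.KV.QF
import Pool.Agent.Helper93.KV.MCL1

/-!
Packet KV-UB (MP_66be51_an, helper41), part A: cut-offs and families with bounded derivatives.
-/

namespace Pool.Agent.Helper77.KV

open Real MeasureTheory Pool.Agent.Helper41.KV Pool.Agent.Helper33.KV

/-! ### Flat functions -/

theorem cont_it {h : ℝ → ℝ} (hh : ContDiff ℝ (⊤ : ℕ∞) h) (k : ℕ) : Continuous (iteratedDeriv k h) :=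
  hh.continuous_iteratedDeriv k (by exact_mod_cast le_top)

theorem it_const_bd (c : ℝ) (k : ℕ) (x : ℝ) : |iteratedDeriv k (fun _ : ℝ => c) x| ≤ |c| := by
  rw [iteratedDeriv_const]
  split_ifs
  · exact le_rfl
  · simp

/-- If `h = c` on `(-∞,a)` then the derivatives are those of the constant on `(-∞,a]`. -/
theorem it_left {h : ℝ → ℝ} (hh : ContDiff ℝ (⊤ : ℕ∞) h) {a c : ℝ} (hl : ∀ s < a, h s = c)
    (k : ℕ) (s : ℝ) (hs : s ≤ a) : iteratedDeriv k h s = iteratedDeriv k (fun _ : ℝ => c) s := by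
  have h1 : ∀ s < a, iteratedDeriv k h s = iteratedDeriv k (fun _ : ℝ => c) s := by
    intro s hs
    apply Filter.EventuallyEq.iteratedDeriv_eq
    filter_upwards [Iio_mem_nhds hs] with x hx
    exact hl x hx
  have hcl : IsClosed {s | iteratedDeriv k h s = iteratedDeriv k (fun _ : ℝ => c) s} :=
    isClosed_eq (cont_it hh k) (cont_it contDiff_const k)
  have h2 : closure (Set.Iio a) ⊆ {s | iteratedDeriv k h s = iteratedDeriv k (fun _ : ℝ => c) s} :=
    hcl.closure_subset_iff.mpr (fun s hs => h1 s hs)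
  rw [closure_Iio] at h2
  exact h2 hs

theorem it_right {h : ℝ → ℝ} (hh : ContDiff ℝ (⊤ : ℕ∞) h) {a c : ℝ} (hl : ∀ s, a < s → h s = c)
    (k : ℕ) (s : ℝ) (hs : a ≤ s) : iteratedDeriv k h s = iteratedDeriv k (fun _ : ℝ => c) s := by
  have h1 : ∀ s, a < s → iteratedDeriv k h s = iteratedDeriv k (fun _ : ℝ => c) s := by
    intro s hs
    apply Filter.EventuallyEq.iteratedDeriv_eq
    filter_upwards [Ioi_mem_nhds hs] with x hx
    exact hl x hx
  have hcl : IsClosed {s | iteratedDeriv k h s = iteratedDeriv k (fun _ : ℝ => c) s} :=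
    isClosed_eq (cont_it hh k) (cont_it contDiff_const k)
  have h2 : closure (Set.Ioi a) ⊆ {s | iteratedDeriv k h s = iteratedDeriv k (fun _ : ℝ => c) s} :=
    hcl.closure_subset_iff.mpr (fun s hs => h1 s hs)
  rw [closure_Ioi] at h2
  exact h2 hs

/-- A function which is constant outside a bounded interval is in `IsH`. -/
theorem IsH_flat {h : ℝ → ℝ} (hh : ContDiff ℝ (⊤ : ℕ∞) h) {a b c d : ℝ} (hl : ∀ s < a, h s = c)
    (hr : ∀ s, b < s → h s = d) : IsH h := by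
  refine ⟨hh, fun k => ?_⟩
  obtain ⟨C, hC⟩ := (isCompact_Icc (a := a) (b := b)).exists_bound_of_continuousOn
    (cont_it hh k).continuousOn
  refine ⟨max C (max |c| |d|), fun z => ?_⟩
  rcases lt_or_ge z a with h1 | h1
  · rw [it_left hh hl k z h1.le]
    exact (it_const_bd c k z).trans ((le_max_left _ _).trans (le_max_right _ _))
  rcases lt_or_ge b z with h2 | h2
  · rw [it_right hh hr k z h2.le]
    exact (it_const_bd d k z).trans ((le_max_right _ _).trans (le_max_right _ _))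
  have := hC z ⟨h1, h2⟩
  rw [Real.norm_eq_abs] at this
  exact this.trans (le_max_left _ _)

theorem sm_smooth : ContDiff ℝ (⊤ : ℕ∞) Real.smoothTransition := Real.smoothTransition.contDiff

theorem chL_smooth : ContDiff ℝ (⊤ : ℕ∞) chL := by
  unfold chL
  exact sm_smooth.comp (contDiff_id.add contDiff_const)

theorem chO_smooth : ContDiff ℝ (⊤ : ℕ∞) chO := by
  unfold chO
  exact (sm_smooth.comp (contDiff_const.sub (contDiff_const.mul contDiff_id))).mul
    (sm_smooth.comp (contDiff_const.add (contDiff_const.mul contDiff_id)))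

theorem chL_zero {s : ℝ} (hs : s ≤ -2) : chL s = 0 :=
  Real.smoothTransition.zero_of_nonpos (by linarith)

theorem chL_one {s : ℝ} (hs : -1 ≤ s) : chL s = 1 :=
  Real.smoothTransition.one_of_one_le (by linarith)

theorem chO_one {s : ℝ} (hs : |s| ≤ 1 / 2) : chO s = 1 := by
  rw [abs_le] at hs
  unfold chO
  rw [Real.smoothTransition.one_of_one_le (by linarith),
    Real.smoothTransition.one_of_one_le (by linarith), mul_one]

theorem chO_zero_r {s : ℝ} (hs : 1 < s) : chO s = 0 := by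
  unfold chO
  rw [Real.smoothTransition.zero_of_nonpos (by linarith), zero_mul]

theorem chO_zero_l {s : ℝ} (hs : s < -1) : chO s = 0 := by
  unfold chO
  rw [Real.smoothTransition.zero_of_nonpos (x := 2 + 2 * s) (by linarith), mul_zero]

theorem chL_H : IsH chL :=
  IsH_flat chL_smooth (a := -2) (b := -1) (c := 0) (d := 1) (fun _ hs => chL_zero hs.le)
    (fun _ hs => chL_one hs.le)

theorem chO_H : IsH chO :=
  IsH_flat chO_smooth (a := -1) (b := 1) (c := 0) (d := 0) (fun _ hs => chO_zero_l hs)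
    (fun _ hs => chO_zero_r hs)

theorem sub_H {h h' : ℝ → ℝ} (hh : IsH h) (hh' : IsH h') : IsH (fun z => h z - h' z) := by
  refine ⟨hh.1.sub hh'.1, fun k => ?_⟩
  obtain ⟨C, hC⟩ := hh.2 k
  obtain ⟨C', hC'⟩ := hh'.2 k
  refine ⟨C + C', fun z => ?_⟩
  have e : iteratedDeriv k (fun z => h z - h' z) z = iteratedDeriv k h z - iteratedDeriv k h' z := by
    have := iteratedDeriv_sub (n := k) (x := z) (f := h) (g := h')
      (hh.1.contDiffAt.of_le (by exact_mod_cast le_top))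
      (hh'.1.contDiffAt.of_le (by exact_mod_cast le_top))
    exact this
  rw [e]
  exact (abs_sub _ _).trans (add_le_add (hC z) (hC' z))

theorem chO1_H : IsH (fun x => chO x - 1) := sub_H chO_H (Pool.Agent.Helper93.KV.MCL1.IsH_const 1)

theorem dchL_zero_l {s : ℝ} (hs : s ≤ -2) : deriv chL s = 0 := by
  have := it_left chL_smooth (a := -2) (c := 0) (fun _ hs => chL_zero hs.le) 1 s hs
  rw [iteratedDeriv_one] at this
  rw [this, iteratedDeriv_const]
  simp

theorem dchL_zero_r {s : ℝ} (hs : -1 ≤ s) : deriv chL s = 0 := by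
  have := it_right chL_smooth (a := -1) (c := 1) (fun _ hs => chL_one hs.le) 1 s hs
  rw [iteratedDeriv_one] at this
  rw [this, iteratedDeriv_const]
  simp

theorem deriv_smooth {f : ℝ → ℝ} (hf : ContDiff ℝ (⊤ : ℕ∞) f) : ContDiff ℝ (⊤ : ℕ∞) (deriv f) := by
  have h : ContDiff ℝ (((⊤ : ℕ∞) : WithTop ℕ∞) + 1) f := by
    simpa using hf
  exact ((contDiff_succ_iff_deriv (𝕜 := ℝ)).mp h).2.2

/-- `s chL'(s)` -/
noncomputable def hh1 (s : ℝ) : ℝ := s * deriv chL s

theorem hh1_smooth : ContDiff ℝ (⊤ : ℕ∞) hh1 := contDiff_id.mul (deriv_smooth chL_smooth)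

theorem hh1_zero_l {s : ℝ} (hs : s ≤ -2) : hh1 s = 0 := by
  unfold hh1; rw [dchL_zero_l hs, mul_zero]

theorem hh1_zero_r {s : ℝ} (hs : -1 ≤ s) : hh1 s = 0 := by
  unfold hh1; rw [dchL_zero_r hs, mul_zero]

theorem hh1_H : IsH hh1 :=
  IsH_flat hh1_smooth (a := -2) (b := -1) (c := 0) (d := 0) (fun _ hs => hh1_zero_l hs.le)
    (fun _ hs => hh1_zero_r hs.le)

/-- zero derivatives on the left -/
theorem it_zero_left {h : ℝ → ℝ} (hh : ContDiff ℝ (⊤ : ℕ∞) h) {a : ℝ} (hl : ∀ s < a, h s = 0)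
    (k : ℕ) (s : ℝ) (hs : s ≤ a) : iteratedDeriv k h s = 0 := by
  rw [it_left hh hl k s hs, iteratedDeriv_const]
  simp

/-- zero derivatives on an interval -/
theorem it_zero_mid {h : ℝ → ℝ} (hl : ∀ s, |s| < 1 / 2 → h s = 0)
    (k : ℕ) (s : ℝ) (hs : |s| < 1 / 2) : iteratedDeriv k h s = 0 := by
  have : iteratedDeriv k h s = iteratedDeriv k (fun _ : ℝ => (0:ℝ)) s := by
    apply Filter.EventuallyEq.iteratedDeriv_eq
    have ho : IsOpen {s : ℝ | |s| < 1 / 2} := isOpen_lt continuous_abs continuous_const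
    filter_upwards [ho.mem_nhds hs] with x hx
    exact hl x hx
  rw [this, iteratedDeriv_const]
  simp

theorem dchO_zero {s : ℝ} (hs : |s| < 1 / 2) : deriv chO s = 0 := by
  have := it_zero_mid (h := fun x => chO x - 1) (fun s hs => by rw [chO_one hs.le, sub_self]) 1 s hs
  rw [iteratedDeriv_one, deriv_sub_const] at this
  exact this

/-! ### Families -/

/-- families with bounded derivatives -/
structure BD (S : ℝ → ℝ → Prop) (K : ℕ) (b f : ℝ → ℝ → ℝ) : Prop where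
  sm : ∀ t, 0 < t → ContDiff ℝ (⊤ : ℕ∞) (f t)
  pos : ∀ t y, S t y → 0 < t
  bd : ∃ C : ℝ, 0 ≤ C ∧ ∀ t y, S t y → ∀ k ≤ K, |iteratedDeriv k (f t) y| ≤ C * b t y

theorem BD.mono {S : ℝ → ℝ → Prop} {K : ℕ} {b b' f : ℝ → ℝ → ℝ} (h : BD S K b f)
    (hb : ∃ C : ℝ, 0 ≤ C ∧ ∀ t y, S t y → b t y ≤ C * b' t y) : BD S K b' f := by
  obtain ⟨C, hC0, hC⟩ := h.bd
  obtain ⟨D, hD0, hD⟩ := hb
  refine ⟨h.sm, h.pos, C * D, by positivity, fun t y hS k hk => ?_⟩
  calc |iteratedDeriv k (f t) y| ≤ C * b t y := hC t y hS k hk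
    _ ≤ C * (D * b' t y) := mul_le_mul_of_nonneg_left (hD t y hS) hC0
    _ = C * D * b' t y := by ring

theorem BD.mono1 {S : ℝ → ℝ → Prop} {K : ℕ} {b b' f : ℝ → ℝ → ℝ} (h : BD S K b f)
    (hb : ∀ t y, S t y → b t y ≤ b' t y) : BD S K b' f :=
  h.mono ⟨1, zero_le_one, fun t y hS => by rw [one_mul]; exact hb t y hS⟩

theorem BD.subset {S S' : ℝ → ℝ → Prop} {K : ℕ} {b f : ℝ → ℝ → ℝ} (h : BD S K b f)
    (hS : ∀ t y, S' t y → S t y) : BD S' K b f := by
  obtain ⟨C, hC0, hC⟩ := h.bd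
  exact ⟨h.sm, fun t y hs => h.pos t y (hS t y hs), C, hC0, fun t y hs => hC t y (hS t y hs)⟩

theorem BD.le {S : ℝ → ℝ → Prop} {K K' : ℕ} {b f : ℝ → ℝ → ℝ} (h : BD S K b f)
    (hK : K' ≤ K) : BD S K' b f := by
  obtain ⟨C, hC0, hC⟩ := h.bd
  exact ⟨h.sm, h.pos, C, hC0, fun t y hs k hk => hC t y hs k (hk.trans hK)⟩

theorem BD.mul {S : ℝ → ℝ → Prop} {K : ℕ} {b b' f f' : ℝ → ℝ → ℝ} (h : BD S K b f)
    (h' : BD S K b' f') : BD S K (fun t y => b t y * b' t y) (fun t y => f t y * f' t y) := by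
  obtain ⟨C, hC0, hC⟩ := h.bd
  obtain ⟨D, hD0, hD⟩ := h'.bd
  refine ⟨fun t ht => (h.sm t ht).mul (h'.sm t ht), h.pos, 2 ^ K * (C * D), by positivity,
    fun t y hS k hk => ?_⟩
  have ht := h.pos t y hS
  have h1 := Pool.Agent.Helper61.KV.prod_bd (h.sm t ht) (h'.sm t ht) k y (C * b t y) (D * b' t y)
    (fun i hi => hC t y hS i (hi.trans hk)) (fun i hi => hD t y hS i (hi.trans hk))
  have h2 : 0 ≤ (C * b t y) * (D * b' t y) :=
    mul_nonneg ((abs_nonneg _).trans (hC t y hS 0 (Nat.zero_le _)))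
      ((abs_nonneg _).trans (hD t y hS 0 (Nat.zero_le _)))
  have h3 : (2:ℝ) ^ k ≤ 2 ^ K := pow_le_pow_right₀ (by norm_num) hk
  calc |iteratedDeriv k (fun y => f t y * f' t y) y|
      ≤ 2 ^ k * ((C * b t y) * (D * b' t y)) := h1
    _ ≤ 2 ^ K * ((C * b t y) * (D * b' t y)) := mul_le_mul_of_nonneg_right h3 h2
    _ = _ := by ring

theorem it_add {f g : ℝ → ℝ} (hf : ContDiff ℝ (⊤ : ℕ∞) f) (hg : ContDiff ℝ (⊤ : ℕ∞) g) (k : ℕ)
    (y : ℝ) : iteratedDeriv k (fun y => f y + g y) y = iteratedDeriv k f y + iteratedDeriv k g y := by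
  have := iteratedDeriv_add (n := k) (x := y) (f := f) (g := g)
      (hf.contDiffAt.of_le (by exact_mod_cast le_top))
      (hg.contDiffAt.of_le (by exact_mod_cast le_top))
  exact this

theorem it_subf {f g : ℝ → ℝ} (hf : ContDiff ℝ (⊤ : ℕ∞) f) (hg : ContDiff ℝ (⊤ : ℕ∞) g) (k : ℕ)
    (y : ℝ) : iteratedDeriv k (fun y => f y - g y) y = iteratedDeriv k f y - iteratedDeriv k g y := by
  have := iteratedDeriv_sub (n := k) (x := y) (f := f) (g := g)
      (hf.contDiffAt.of_le (by exact_mod_cast le_top))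
      (hg.contDiffAt.of_le (by exact_mod_cast le_top))
  exact this

theorem BD.add {S : ℝ → ℝ → Prop} {K : ℕ} {b f f' : ℝ → ℝ → ℝ} (h : BD S K b f)
    (h' : BD S K b f') : BD S K b (fun t y => f t y + f' t y) := by
  obtain ⟨C, hC0, hC⟩ := h.bd
  obtain ⟨D, hD0, hD⟩ := h'.bd
  refine ⟨fun t ht => (h.sm t ht).add (h'.sm t ht), h.pos, C + D, by positivity,
    fun t y hS k hk => ?_⟩
  have ht := h.pos t y hS
  rw [it_add (h.sm t ht) (h'.sm t ht), add_mul]
  exact (abs_add_le _ _).trans (add_le_add (hC t y hS k hk) (hD t y hS k hk))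

theorem BD.smul {S : ℝ → ℝ → Prop} {K : ℕ} {b f : ℝ → ℝ → ℝ} (h : BD S K b f) (c : ℝ → ℝ) :
    BD S K (fun t y => |c t| * b t y) (fun t y => c t * f t y) := by
  obtain ⟨C, hC0, hC⟩ := h.bd
  refine ⟨fun t ht => contDiff_const.mul (h.sm t ht), h.pos, C, hC0, fun t y hS k hk => ?_⟩
  have ht := h.pos t y hS
  rw [iteratedDeriv_const_mul_field, abs_mul]
  calc |c t| * |iteratedDeriv k (f t) y| ≤ |c t| * (C * b t y) :=
        mul_le_mul_of_nonneg_left (hC t y hS k hk) (abs_nonneg _)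
    _ = _ := by ring

theorem itAff {h : ℝ → ℝ} (hh : ContDiff ℝ (⊤ : ℕ∞) h) (c d : ℝ) (k : ℕ) :
    iteratedDeriv k (fun y => h (d + c * y)) = fun y => c ^ k * iteratedDeriv k h (d + c * y) := by
  have h1 : iteratedDeriv k (fun y => (fun z => h (d + z)) (c * y)) =
      fun y => c ^ k * iteratedDeriv k (fun z => h (d + z)) (c * y) :=
    iteratedDeriv_comp_const_mul (n := k) (f := fun z => h (d + z))
      ((hh.comp (contDiff_const.add contDiff_id)).of_le (by exact_mod_cast le_top)) c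
  have h2 : iteratedDeriv k (fun z => h (d + z)) = fun z => iteratedDeriv k h (d + z) := by
    rw [iteratedDeriv_comp_const_add]
  simp only at h1
  rw [h1, h2]

/-- bounds for finitely many derivatives -/
theorem unifH {h : ℝ → ℝ} (hh : IsH h) (K : ℕ) :
    ∃ C : ℝ, 0 ≤ C ∧ ∀ k ≤ K, ∀ z, |iteratedDeriv k h z| ≤ C := by
  obtain ⟨C, h0, hC⟩ := Pool.Agent.Helper61.KV.unifW (f := h) Set.univ (fun _ => 1)
    (fun _ => zero_le_one) (fun k => by
      obtain ⟨C, hC⟩ := hh.2 k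
      exact ⟨C, fun y _ => by rw [mul_one]; exact hC y⟩) K
  refine ⟨C, h0, fun k hk z => ?_⟩
  have := hC k hk z (Set.mem_univ z)
  rwa [mul_one] at this

/-- cut-offs with a support condition -/
theorem BD.ofH {S : ℝ → ℝ → Prop} (K : ℕ) {h : ℝ → ℝ} (hh : IsH h) (c d : ℝ → ℝ)
    (hS : ∀ t y, S t y → 0 < t) (hc : ∀ t y, S t y → |c t| ≤ 1) (i : ℝ → ℝ → ℝ)
    (hi : ∀ t y, S t y → i t y = 1 ∨ (i t y = 0 ∧ ∀ k, iteratedDeriv k h (d t + c t * y) = 0)) :
    BD S K i (fun t y => h (d t + c t * y)) := by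
  obtain ⟨C, hC0, hC⟩ := unifH hh K
  refine ⟨fun t _ => hh.1.comp (contDiff_const.add (contDiff_const.mul contDiff_id)), hS, C, hC0,
    fun t y hs k hk => ?_⟩
  rw [itAff hh.1]
  show |c t ^ k * iteratedDeriv k h (d t + c t * y)| ≤ C * i t y
  rcases hi t y hs with h1 | ⟨h1, h2⟩
  · rw [h1, mul_one, abs_mul, abs_pow]
    calc |c t| ^ k * |iteratedDeriv k h (d t + c t * y)| ≤ 1 * C :=
          mul_le_mul (pow_le_one₀ (abs_nonneg _) (hc t y hs)) (hC k hk _) (abs_nonneg _) zero_le_one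
      _ = C := one_mul C
  · rw [h2 k, h1]
    simp

theorem BD.ofE {S : ℝ → ℝ → Prop} (K : ℕ) {a : ℝ → ℝ} (ha : IsE a) (hS : ∀ t y, S t y → 0 < t)
    (μ : ℝ) (hμ : μ < 1) : BD S K (fun _ y => Real.exp (-(μ * |y|))) (fun _ y => a y) := by
  obtain ⟨C, hC0, hC⟩ := Pool.Agent.Helper61.KV.unifE ha K μ hμ
  exact ⟨fun _ _ => ha.1, hS, C, hC0, fun t y _ k hk => hC k hk y⟩

theorem BD.ofHc {S : ℝ → ℝ → Prop} (K : ℕ) {a : ℝ → ℝ} (ha : IsH a) (hS : ∀ t y, S t y → 0 < t) :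
    BD S K (fun _ _ => 1) (fun _ y => a y) := by
  obtain ⟨C, hC0, hC⟩ := unifH ha K
  exact ⟨fun _ _ => ha.1, hS, C, hC0, fun t y _ k hk => by rw [mul_one]; exact hC k hk y⟩

end Pool.Agent.Helper77.KV
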