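import Pool.Agent.Helper77.KV.UBA
import Pool.Agent.Helper38.KV.PR
import Pool.Agent.Helper83.KV.MCL2

/-!
Packet KV-UB (MP_66be51_an, helper41), part B: the concrete families.
-/

namespace Pool.Agent.Helper77.KV

open Real MeasureTheory Pool.Agent.Helper41.KV Pool.Agent.Helper33.KV

/-! ### The profile -/

/-- `ζ = k_1 + w_1` -/
noncomputable def zet (α : ℝ) (R P : ℝ → ℝ) (y : ℝ) : ℝ := kOne α + wOne α R P y

theorem zet_facts (hE : S_ECL1) {R P : ℝ → ℝ} (h : IsRP R P) (α : ℝ) :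
    IsH (zet α R P) ∧ IsE (deriv (zet α R P)) := by
  set c : ℝ := (∫ y, Q y) / 2 with hc
  have hP : IsE (fun y => P y - c * chiM y) := by
    have := h.P_tail
    unfold HasTail at this
    simpa using this
  have hR := h.R_E
  -- derivative
  have hchi := Pool.Agent.Helper93.KV.MCL1.hasDerivAt_chi
  have dR : ∀ y, HasDerivAt R (deriv R y) y := Pool.Agent.Helper38.KV.E_diff hR
  have dP1 : ∀ y, HasDerivAt (fun y => P y - c * chiM y) (deriv (fun y => P y - c * chiM y) y) y :=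
    Pool.Agent.Helper38.KV.E_diff hP
  have dP : ∀ y, HasDerivAt P (deriv (fun y => P y - c * chiM y) y +
      c * (-(1 / Real.cosh (2 * y) ^ 2))) y := by
    intro y
    have h1 := (dP1 y).add ((hchi y).const_mul c)
    have e : (fun y => P y - c * chiM y) + (fun y => c * chiM y) = P := by
      funext y
      simp
    rw [e] at h1
    exact h1
  have dz : ∀ y, HasDerivAt (zet α R P) (kOne α * deriv R y - (2 * α + 1) *
      (deriv (fun y => P y - c * chiM y) y + c * (-(1 / Real.cosh (2 * y) ^ 2)))) y := by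
    intro y
    exact (((dR y).const_mul (kOne α)).sub ((dP y).const_mul (2 * α + 1))).const_add (kOne α)
  have dz' : deriv (zet α R P) = fun y => kOne α * deriv R y + (-(2 * α + 1)) *
      (deriv (fun y => P y - c * chiM y) y + (-c) * (1 / Real.cosh (2 * y) ^ 2)) := by
    funext y
    rw [(dz y).deriv]
    ring
  have hdE : IsE (deriv (zet α R P)) := by
    rw [dz']
    exact Pool.Agent.Helper38.KV.E_add hE
      (Pool.Agent.Helper38.KV.E_smul hE _ (Pool.Agent.Helper38.KV.E_deriv hE hR))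
      (Pool.Agent.Helper38.KV.E_smul hE _ (Pool.Agent.Helper38.KV.E_add hE
        (Pool.Agent.Helper38.KV.E_deriv hE hP)
        (Pool.Agent.Helper38.KV.E_smul hE _ Pool.Agent.Helper61.KV.sechE)))
  refine ⟨⟨?_, ?_⟩, hdE⟩
  · have hd : Differentiable ℝ (zet α R P) := fun y => (dz y).differentiableAt
    have : ContDiff ℝ (((⊤ : ℕ∞) : WithTop ℕ∞) + 1) (zet α R P) :=
      contDiff_succ_iff_deriv.mpr ⟨hd, by simp, hdE.1⟩
    simpa using this
  · intro k
    rcases Nat.eq_zero_or_pos k with hk | hk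
    · subst hk
      obtain ⟨C1, h1⟩ := hR.2 0 0 one_pos
      obtain ⟨C2, h2⟩ := hP.2 0 0 one_pos
      refine ⟨|kOne α| + (|kOne α| * C1 + |2 * α + 1| * (C2 + |c|)), fun y => ?_⟩
      have a1 := h1 y
      have a2 := h2 y
      rw [iteratedDeriv_zero] at a1 a2
      simp only [zero_mul, neg_zero, Real.exp_zero, mul_one] at a1 a2
      rw [iteratedDeriv_zero]
      have a3 : |chiM y| ≤ 1 := by
        rw [abs_of_nonneg (mcl2_chi_nonneg y)]
        exact mcl2_chi_le_one y
      have a4 : |P y| ≤ C2 + |c| := by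
        have e : P y = (P y - c * chiM y) + c * chiM y := by ring
        rw [e]
        apply (abs_add_le _ _).trans
        apply add_le_add a2
        rw [abs_mul]
        calc |c| * |chiM y| ≤ |c| * 1 := mul_le_mul_of_nonneg_left a3 (abs_nonneg _)
          _ = |c| := mul_one _
      unfold zet wOne
      apply (abs_add_le _ _).trans
      apply add_le_add le_rfl
      apply (abs_sub _ _).trans
      rw [abs_mul, abs_mul]
      exact add_le_add (mul_le_mul_of_nonneg_left a1 (abs_nonneg _))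
        (mul_le_mul_of_nonneg_left a4 (abs_nonneg _))
    · obtain ⟨j, rfl⟩ : ∃ j, k = j + 1 := ⟨k - 1, by omega⟩
      obtain ⟨C, hC⟩ := hdE.2 j 0 one_pos
      refine ⟨C, fun y => ?_⟩
      rw [iteratedDeriv_succ']
      have := hC y
      simpa using this

/-! ### Smallness of the curve -/

/-- smallness of the curve on `(0,T]` -/
def Good (α T : ℝ) : Prop :=
  ∀ t, 0 < t → t ≤ T → 0 < sig α t ∧ 0 < lam α t ∧ 0 < rho α t ∧
    lam α t = sig α t * rho α t ∧ sig α t < 1 / 4 ∧ lam α t < 1 ∧ rho α t < 1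

theorem Good.lr {α T : ℝ} (h : Good α T) {t : ℝ} (ht : 0 < t) (hT : t ≤ T) :
    lam α t ≤ rho α t := by
  obtain ⟨h1, h2, h3, h4, h5, h6, h7⟩ := h t ht hT
  rw [h4]
  nlinarith

/-- regions -/
def SA (T t _y : ℝ) : Prop := 0 < t ∧ t ≤ T
def SL (T t y : ℝ) : Prop := (0 < t ∧ t ≤ T) ∧ y ≤ 0
def SR (T t y : ℝ) : Prop := (0 < t ∧ t ≤ T) ∧ 0 ≤ y

open Classical in
/-- indicators -/
noncomputable def i0 (α t y : ℝ) : ℝ := if 1 / 4 ≤ lam α t * |y| then 1 else 0

open Classical in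
noncomputable def i1 (c : ℝ → ℝ) (t y : ℝ) : ℝ := if -2 < c t * y then 1 else 0

theorem i0_nonneg (α t y : ℝ) : 0 ≤ i0 α t y := by
  unfold i0; split_ifs <;> norm_num

theorem i1_nonneg (c : ℝ → ℝ) (t y : ℝ) : 0 ≤ i1 c t y := by
  unfold i1; split_ifs <;> norm_num

theorem i1_le (c : ℝ → ℝ) (t y : ℝ) : i1 c t y ≤ 1 := by
  unfold i1; split_ifs <;> norm_num

/-- flat functions of `x` -/
theorem BD_x {α T : ℝ} (hG : Good α T) (K : ℕ) {h : ℝ → ℝ} (hh : IsH h)
    (hz : ∀ s, |s| < 1 / 2 → h s = 0) :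
    BD (SA T) K (i0 α) (fun t y => h (sig α t + lam α t * y)) := by
  apply BD.ofH K hh (lam α) (sig α) (fun t y h => h.1)
  · intro t y h
    obtain ⟨h1, h2, h3, h4, h5, h6, h7⟩ := hG t h.1 h.2
    rw [abs_of_pos h2]
    exact h6.le
  · intro t y h
    obtain ⟨h1, h2, h3, h4, h5, h6, h7⟩ := hG t h.1 h.2
    by_cases hc : 1 / 4 ≤ lam α t * |y|
    · left
      unfold i0
      rw [if_pos hc]
    · right
      refine ⟨by unfold i0; rw [if_neg hc], fun k => ?_⟩
      apply it_zero_mid hz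
      push Not at hc
      calc |sig α t + lam α t * y| ≤ |sig α t| + |lam α t * y| := abs_add_le _ _
        _ = sig α t + lam α t * |y| := by rw [abs_of_pos h1, abs_mul, abs_of_pos h2]
        _ < 1 / 2 := by linarith

theorem BD_x' {α T : ℝ} (hG : Good α T) (K : ℕ) {h : ℝ → ℝ} (hh : IsH h) :
    BD (SA T) K (fun _ _ => 1) (fun t y => h (sig α t + lam α t * y)) := by
  apply BD.ofH K hh (lam α) (sig α) (fun t y h => h.1)
  · intro t y h
    obtain ⟨h1, h2, h3, h4, h5, h6, h7⟩ := hG t h.1 h.2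
    rw [abs_of_pos h2]
    exact h6.le
  · intro t y h
    left
    rfl

/-- flat functions of `c(t) y` -/
theorem BD_c {T : ℝ} (K : ℕ) {h : ℝ → ℝ} (hh : IsH h) (hz : ∀ s ≤ -2, h s = 0)
    (c : ℝ → ℝ) (hc : ∀ t, 0 < t → t ≤ T → |c t| ≤ 1) :
    BD (SA T) K (i1 c) (fun t y => h (c t * y)) := by
  have h1 : BD (SA T) K (i1 c) (fun t y => h ((fun _ => (0:ℝ)) t + c t * y)) := by
    apply BD.ofH K hh c (fun _ => 0) (fun t y h => h.1) (fun t y h => hc t h.1 h.2)
    intro t y h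
    by_cases hcc : -2 < c t * y
    · left
      unfold i1
      rw [if_pos hcc]
    · right
      refine ⟨by unfold i1; rw [if_neg hcc], fun k => ?_⟩
      push Not at hcc
      apply it_zero_left hh.1 (a := -2) (fun s hs => hz s hs.le)
      simpa using hcc
  simpa only [zero_add] using h1

theorem exp_small {α T : ℝ} (hG : Good α T) {t y : ℝ} (h : SA T t y) :
    i0 α t y * Real.exp (-(7 / 8 * |y|)) ≤ 2048 * (rho α t ^ 2 * Real.exp (-(3 / 4 * |y|))) := by
  obtain ⟨h1, h2, h3, h4, h5, h6, h7⟩ := hG t h.1 h.2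
  have hlr := hG.lr h.1 h.2
  unfold i0
  split_ifs with hc
  · have hy : 0 < |y| := by
      by_contra hcon
      have : |y| = 0 := le_antisymm (not_lt.mp hcon) (abs_nonneg _)
      rw [this] at hc
      norm_num at hc
    have e1 : Real.exp (-(7 / 8 * |y|)) = Real.exp (-(3 / 4 * |y|)) * Real.exp (-(|y| / 8)) := by
      rw [← Real.exp_add]; congr 1; ring
    have e2 : Real.exp (-(|y| / 8)) ≤ 2048 * rho α t ^ 2 := by
      have a1 : (|y| / 8) ^ 2 / 2 ≤ Real.exp (|y| / 8) := by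
        have := Real.quadratic_le_exp_of_nonneg (x := |y| / 8) (by positivity)
        nlinarith
      rw [Real.exp_neg]
      have a2 : 0 < (|y| / 8) ^ 2 / 2 := by positivity
      have a3 : (Real.exp (|y| / 8))⁻¹ ≤ ((|y| / 8) ^ 2 / 2)⁻¹ := inv_anti₀ a2 a1
      apply a3.trans
      rw [inv_le_iff_one_le_mul₀ a2]
      have a4 : (1 / 4) ^ 2 ≤ (rho α t * |y|) ^ 2 := by
        apply pow_le_pow_left₀ (by norm_num)
        apply hc.trans
        exact mul_le_mul_of_nonneg_right hlr (abs_nonneg _)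
      nlinarith
    rw [e1, one_mul]
    have := mul_le_mul_of_nonneg_left e2 (Real.exp_pos (-(3 / 4 * |y|))).le
    linarith
  · rw [zero_mul]
    positivity

/-- `(chO(x) - 1) Q` -/
noncomputable def F0 (α t y : ℝ) : ℝ := (chO (sig α t + lam α t * y) - 1) * Q y

theorem BD_F0 {α T : ℝ} (hQ : S_QF) (hG : Good α T) (K : ℕ) :
    BD (SA T) K (fun t y => rho α t ^ 2 * Real.exp (-(3 / 4 * |y|))) (F0 α) := by
  have h1 := BD_x hG K chO1_H (fun s hs => by rw [chO_one hs.le, sub_self])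
  have h2 := BD.ofE (S := SA T) K (Pool.Agent.Helper38.KV.isE_Q hQ) (fun t y h => h.1) (7 / 8)
    (by norm_num)
  exact (h1.mul h2).mono ⟨2048, by norm_num, fun t y h => exp_small hG h⟩

/-- `chO(x) Q` -/
noncomputable def FQ (α t y : ℝ) : ℝ := chO (sig α t + lam α t * y) * Q y

theorem BD_FQ {α T : ℝ} (hQ : S_QF) (hG : Good α T) (K : ℕ) :
    BD (SA T) K (fun _ y => Real.exp (-(3 / 4 * |y|))) (FQ α) := by
  have h1 := BD_x' hG K chO_H
  have h2 := BD.ofE (S := SA T) K (Pool.Agent.Helper38.KV.isE_Q hQ) (fun t y h => h.1) (3 / 4)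
    (by norm_num)
  exact (h1.mul h2).mono1 (fun t y h => by rw [one_mul])

/-- `λ^3 ∂_t (chO(x) Q)` -/
noncomputable def EA (α t y : ℝ) : ℝ :=
  lam α t * (1 + (2 * α + 1) * rho α t * y) * deriv chO (sig α t + lam α t * y) * Q y

theorem BD_EA {α T : ℝ} (ha : 0 < α) (ha1 : α < 1) (hQ : S_QF) (hE : S_ECL1) (hG : Good α T)
    (K : ℕ) : BD (SA T) K (fun t y => rho α t ^ 2 * Real.exp (-(3 / 4 * |y|))) (EA α) := by
  have h1 := BD_x hG K (Pool.Agent.Helper93.KV.MCL1.IsH_deriv chO_H) (fun s hs => dchO_zero hs)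
  have h2 := BD.ofE (S := SA T) K (Pool.Agent.Helper38.KV.isE_Q hQ) (fun t y h => h.1) (7 / 8)
    (by norm_num)
  have h3 := BD.ofE (S := SA T) K (Pool.Agent.Helper38.KV.PE_mul hE (Pool.Agent.Helper38.KV.P_id hE)
    (Pool.Agent.Helper38.KV.isE_Q hQ)) (fun t y h => h.1) (7 / 8) (by norm_num)
  have h4 := (h1.mul h2).smul (lam α)
  have h5 := (h1.mul h3).smul (fun t => (2 * α + 1) * rho α t * lam α t)
  have h6 : BD (SA T) K (fun t y => rho α t ^ 2 * Real.exp (-(3 / 4 * |y|)))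
      (fun t y => lam α t * (deriv chO (sig α t + lam α t * y) * Q y)) := by
    refine h4.mono ⟨2048, by norm_num, fun t y h => ?_⟩
    obtain ⟨a1, a2, a3, a4, a5, a6, a7⟩ := hG t h.1 h.2
    have hs := exp_small hG h
    have : |lam α t| * (i0 α t y * Real.exp (-(7 / 8 * |y|))) ≤
        1 * (i0 α t y * Real.exp (-(7 / 8 * |y|))) := by
      apply mul_le_mul_of_nonneg_right _ (mul_nonneg (i0_nonneg _ _ _) (Real.exp_pos _).le)
      rw [abs_of_pos a2]; exact a6.le
    linarith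
  have h7 : BD (SA T) K (fun t y => rho α t ^ 2 * Real.exp (-(3 / 4 * |y|)))
      (fun t y => (2 * α + 1) * rho α t * lam α t *
        (deriv chO (sig α t + lam α t * y) * (y * Q y))) := by
    refine h5.mono ⟨3 * 2048, by norm_num, fun t y h => ?_⟩
    obtain ⟨a1, a2, a3, a4, a5, a6, a7⟩ := hG t h.1 h.2
    have hs := exp_small hG h
    have : |(2 * α + 1) * rho α t * lam α t| * (i0 α t y * Real.exp (-(7 / 8 * |y|))) ≤
        3 * (i0 α t y * Real.exp (-(7 / 8 * |y|))) := by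
      apply mul_le_mul_of_nonneg_right _ (mul_nonneg (i0_nonneg _ _ _) (Real.exp_pos _).le)
      rw [abs_of_pos (by positivity)]
      have b1 : rho α t * lam α t ≤ 1 := by nlinarith
      nlinarith
    linarith
  have h8 := h6.add h7
  have e : (fun t y => lam α t * (deriv chO (sig α t + lam α t * y) * Q y) +
      (2 * α + 1) * rho α t * lam α t *
        (deriv chO (sig α t + lam α t * y) * (y * Q y))) = EA α := by
    funext t y
    unfold EA
    ring
  rw [e] at h8
  exact h8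

/-! ### the left family `B` -/

/-- `ρ^(1/2)` -/
noncomputable def rh (α t : ℝ) : ℝ := rho α t ^ ((1 : ℝ) / 2)

theorem rh_facts {α T : ℝ} (hG : Good α T) {t : ℝ} (h1 : 0 < t) (h2 : t ≤ T) :
    0 < rh α t ∧ rh α t ≤ 1 ∧ rh α t ^ 2 = rho α t := by
  obtain ⟨a1, a2, a3, a4, a5, a6, a7⟩ := hG t h1 h2
  refine ⟨Real.rpow_pos_of_pos a3 _, Real.rpow_le_one a3.le a7.le (by norm_num), ?_⟩
  unfold rh
  rw [← Real.rpow_natCast, ← Real.rpow_mul a3.le]
  norm_num

noncomputable def FB (α : ℝ) (R P : ℝ → ℝ) (t y : ℝ) : ℝ :=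
  chL (rh α t * y) * (rho α t * zet α R P y)

theorem BD_FB {α T : ℝ} (hE : S_ECL1) {R P : ℝ → ℝ} (hRP : IsRP R P) (hG : Good α T) (K : ℕ) :
    BD (SA T) K (fun t y => i1 (rh α) t y * rho α t) (FB α R P) := by
  have h1 := BD_c (T := T) K chL_H (fun s hs => chL_zero hs) (rh α) (fun t h1 h2 => by
    obtain ⟨b1, b2, b3⟩ := rh_facts hG h1 h2
    rw [abs_of_pos b1]; exact b2)
  have h2 := (BD.ofHc (S := SA T) K (zet_facts hE hRP α).1 (fun t y h => h.1)).smul (rho α)
  refine (h1.mul h2).mono1 (fun t y h => ?_)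
  obtain ⟨a1, a2, a3, a4, a5, a6, a7⟩ := hG t h.1 h.2
  rw [mul_one, abs_of_pos a3]

/-- its `y`-derivative -/
noncomputable def dFB (α : ℝ) (R P : ℝ → ℝ) (t y : ℝ) : ℝ :=
  rh α t * rho α t * (deriv chL (rh α t * y) * zet α R P y) +
    rho α t * (chL (rh α t * y) * deriv (zet α R P) y)

theorem deriv_FB {α : ℝ} (hE : S_ECL1) {R P : ℝ → ℝ} (hRP : IsRP R P) (t : ℝ) :
    deriv (FB α R P t) = dFB α R P t := by
  funext y
  have hz := (zet_facts hE hRP α).1.1
  have h0 : HasDerivAt (fun y : ℝ => rh α t * y) (rh α t) y := by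
    simpa using (hasDerivAt_id y).const_mul (rh α t)
  have h1 : HasDerivAt chL (deriv chL (rh α t * y)) (rh α t * y) :=
    ((chL_smooth.differentiable (by simp)) _).hasDerivAt
  have h2 : HasDerivAt (fun y : ℝ => chL (rh α t * y)) (deriv chL (rh α t * y) * rh α t) y :=
    h1.comp y h0
  have h3 : HasDerivAt (zet α R P) (deriv (zet α R P) y) y :=
    ((hz.differentiable (by simp)) _).hasDerivAt
  have h4 := h2.mul (h3.const_mul (rho α t))
  have h5 : HasDerivAt (FB α R P t) _ y := h4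
  rw [h5.deriv]
  unfold dFB
  ring

theorem BD_dFB {α T : ℝ} (hE : S_ECL1) {R P : ℝ → ℝ} (hRP : IsRP R P) (hG : Good α T) (K : ℕ) :
    BD (SL T) K (fun t y => rho α t ^ ((3:ℝ)/2) + rho α t * Real.exp (-(3 / 4 * |y|)))
      (dFB α R P) ∧
    BD (SL T) K (fun t y => rho α t / (1 + |y|)) (dFB α R P) := by
  have hc : ∀ t, 0 < t → t ≤ T → |rh α t| ≤ 1 := by
    intro t h1 h2
    obtain ⟨b1, b2, b3⟩ := rh_facts hG h1 h2
    rw [abs_of_pos b1]; exact b2
  have h1 := BD_c (T := T) K chL_H (fun s hs => chL_zero hs) (rh α) hc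
  have h1' := BD_c (T := T) K (Pool.Agent.Helper93.KV.MCL1.IsH_deriv chL_H)
    (fun s hs => dchL_zero_l hs) (rh α) hc
  have h2 := BD.ofHc (S := SA T) K (zet_facts hE hRP α).1 (fun t y h => h.1)
  have h3 := BD.ofE (S := SA T) K (zet_facts hE hRP α).2 (fun t y h => h.1) (3 / 4) (by norm_num)
  have h4 := (h1'.mul h2).smul (fun t => rh α t * rho α t)
  have h5 := (h1.mul h3).smul (rho α)
  have hsub : ∀ t y, SL T t y → SA T t y := fun t y h => h.1
  constructor
  · refine BD.add ((h4.subset hsub).mono1 (fun t y h => ?_))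
      ((h5.subset hsub).mono1 (fun t y h => ?_))
    · obtain ⟨a1, a2, a3, a4, a5, a6, a7⟩ := hG t h.1.1 h.1.2
      obtain ⟨b1, b2, b3⟩ := rh_facts hG h.1.1 h.1.2
      have e : rho α t ^ ((3:ℝ)/2) = rh α t * rho α t := by
        unfold rh
        rw [← Real.rpow_add_one a3.ne']
        norm_num
      rw [e, mul_one, abs_of_pos (by positivity)]
      have := i1_le (rh α) t y
      have p1 : 0 ≤ rh α t * rho α t := by positivity
      have p2 : 0 ≤ rho α t * Real.exp (-(3 / 4 * |y|)) := by positivity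
      have := mul_le_mul_of_nonneg_left this p1
      linarith
    · obtain ⟨a1, a2, a3, a4, a5, a6, a7⟩ := hG t h.1.1 h.1.2
      have := i1_le (rh α) t y
      have p0 := i1_nonneg (rh α) t y
      have p2 : 0 ≤ rho α t * Real.exp (-(3 / 4 * |y|)) := by positivity
      have p3 : 0 ≤ rho α t ^ ((3:ℝ)/2) := Real.rpow_nonneg a3.le _
      rw [abs_of_pos a3]
      have := mul_le_mul_of_nonneg_left this p2
      nlinarith
  · refine BD.add ((h4.subset hsub).mono ⟨3, by norm_num, fun t y h => ?_⟩)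
      ((h5.subset hsub).mono ⟨2, by norm_num, fun t y h => ?_⟩)
    · obtain ⟨a1, a2, a3, a4, a5, a6, a7⟩ := hG t h.1.1 h.1.2
      obtain ⟨b1, b2, b3⟩ := rh_facts hG h.1.1 h.1.2
      have hy : 0 < 1 + |y| := by positivity
      rw [mul_one, abs_of_pos (by positivity), mul_div_assoc', le_div_iff₀ hy]
      unfold i1
      split_ifs with hc
      · have hyy : |y| = -y := abs_of_nonpos h.2
        have k1 : rh α t * (1 + |y|) ≤ 3 := by
          rw [hyy]; nlinarith
        have := mul_le_mul_of_nonneg_left k1 a3.le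
        nlinarith
      · rw [mul_zero, zero_mul]
        positivity
    · obtain ⟨a1, a2, a3, a4, a5, a6, a7⟩ := hG t h.1.1 h.1.2
      have hy : 0 < 1 + |y| := by positivity
      rw [abs_of_pos a3, mul_div_assoc', le_div_iff₀ hy]
      have p0 := i1_nonneg (rh α) t y
      have p1 := i1_le (rh α) t y
      have k1 : Real.exp (-(3 / 4 * |y|)) * (1 + |y|) ≤ 2 := by
        have e1 : 1 + |y| ≤ 4 / 3 * Real.exp (3 / 4 * |y|) := by
          have := Real.add_one_le_exp (3 / 4 * |y|)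
          have := abs_nonneg y
          linarith
        calc Real.exp (-(3 / 4 * |y|)) * (1 + |y|)
            ≤ Real.exp (-(3 / 4 * |y|)) * (4 / 3 * Real.exp (3 / 4 * |y|)) :=
              mul_le_mul_of_nonneg_left e1 (Real.exp_pos _).le
          _ = 4 / 3 * (Real.exp (-(3 / 4 * |y|)) * Real.exp (3 / 4 * |y|)) := by ring
          _ = 4 / 3 := by rw [← Real.exp_add]; simp
          _ ≤ 2 := by norm_num
      have k2 : 0 ≤ Real.exp (-(3 / 4 * |y|)) * (1 + |y|) := by positivity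
      calc rho α t * (i1 (rh α) t y * Real.exp (-(3 / 4 * |y|))) * (1 + |y|)
          = rho α t * (i1 (rh α) t y * (Real.exp (-(3 / 4 * |y|)) * (1 + |y|))) := by ring
        _ ≤ rho α t * (1 * 2) := by
            apply mul_le_mul_of_nonneg_left _ a3.le
            exact mul_le_mul p1 k1 k2 zero_le_one
        _ = 2 * rho α t := by ring

/-- `λ^3 ∂_t FB` -/
noncomputable def EB (α : ℝ) (R P : ℝ → ℝ) (t y : ℝ) : ℝ :=
  rho α t ^ 2 * ((2 * α * chL (rh α t * y) + α * hh1 (rh α t * y)) * zet α R P y)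

theorem add_H {h h' : ℝ → ℝ} (hh : IsH h) (hh' : IsH h') : IsH (fun z => h z + h' z) := by
  refine ⟨hh.1.add hh'.1, fun k => ?_⟩
  obtain ⟨C, hC⟩ := hh.2 k
  obtain ⟨C', hC'⟩ := hh'.2 k
  refine ⟨C + C', fun z => ?_⟩
  rw [it_add hh.1 hh'.1]
  exact (abs_add_le _ _).trans (add_le_add (hC z) (hC' z))

theorem cmul_H (c : ℝ) {h : ℝ → ℝ} (hh : IsH h) : IsH (fun z => c * h z) :=
  Pool.Agent.Helper93.KV.MCL1.IsH_mul (Pool.Agent.Helper93.KV.MCL1.IsH_const c) hh

theorem BD_EB {α T : ℝ} (hE : S_ECL1) {R P : ℝ → ℝ} (hRP : IsRP R P) (hG : Good α T) (K : ℕ) :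
    BD (SA T) K (fun t y => i1 (rh α) t y * rho α t ^ 2) (EB α R P) := by
  have hc : ∀ t, 0 < t → t ≤ T → |rh α t| ≤ 1 := by
    intro t h1 h2
    obtain ⟨b1, b2, b3⟩ := rh_facts hG h1 h2
    rw [abs_of_pos b1]; exact b2
  have h1 := BD_c (T := T) K (add_H (cmul_H (2 * α) chL_H) (cmul_H α hh1_H))
    (fun s hs => by rw [chL_zero hs, hh1_zero_l hs]; simp) (rh α) hc
  have h2 := (h1.mul (BD.ofHc (S := SA T) K (zet_facts hE hRP α).1 (fun t y h => h.1))).smul
    (fun t => rho α t ^ 2)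
  refine h2.mono1 (fun t y h => ?_)
  rw [mul_one, abs_of_nonneg (sq_nonneg _), mul_comm]

end Pool.Agent.Helper77.KV
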