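import Pool.Agent.Helper77.KV.UBB

/-!
Packet KV-UB (MP_66be51_an, helper41), part C: families from the classes `MT`, `MP`.
-/

namespace Pool.Agent.Helper77.KV

open Real MeasureTheory Pool.Agent.Helper41.KV Pool.Agent.Helper33.KV

/-- evaluation along the curve -/
noncomputable def cv (α : ℝ) (Φ : F3) (t y : ℝ) : ℝ := Φ (rho α t) (Real.log (sig α t)) y

theorem dY_iter_MT (hM : S_MCL1) {m : ℕ} {Φ : F3} (h : Φ ∈ MT m) (k : ℕ) : dY^[k] Φ ∈ MT m := by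
  induction k with
  | zero => exact h
  | succ k ih =>
    rw [Function.iterate_succ_apply']
    exact hM.2.2.2.2.2.1 m _ ih

theorem dY_iter_MP (hM : S_MCL1) {m : ℕ} {Φ : F3} (h : Φ ∈ MP m) (k : ℕ) : dY^[k] Φ ∈ MP m := by
  induction k with
  | zero => exact h
  | succ k ih =>
    rw [Function.iterate_succ_apply']
    exact hM.2.2.2.2.2.2.1 m _ ih

theorem sm_slice {Φ : F3}
    (h : ContDiff ℝ (⊤ : ℕ∞) (fun p : ℝ × ℝ × ℝ => Φ p.1 p.2.1 p.2.2)) (r l : ℝ) :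
    ContDiff ℝ (⊤ : ℕ∞) (Φ r l) := by
  have h1 : ContDiff ℝ (⊤ : ℕ∞) (fun y : ℝ => ((r, l, y) : ℝ × ℝ × ℝ)) :=
    contDiff_const.prodMk (contDiff_const.prodMk contDiff_id)
  exact h.comp h1

theorem BD_MT (hM : S_MCL1) (hT : S_TD) {α : ℝ} (ha : 0 < α) (ha1 : α < 1)
    (K m : ℕ) {Φ : F3} {δ : ℝ} (hδ : 0 < δ) (hΦ : Φ ∈ MT m) :
    ∃ n1 : ℕ, ∀ T, Good α T →
    (∀ n2, n1 ≤ n2 → BD (SL T) K (fun t y => rho α t ^ ((m:ℝ) - δ) * (1 + |y|) ^ n2)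
      (cv α Φ)) ∧
    BD (SR T) K (fun t y => rho α t ^ ((m:ℝ) - δ) * Real.exp (-(y / 2))) (cv α Φ) := by
  have hsm : ∀ t, 0 < t → ContDiff ℝ (⊤ : ℕ∞) (cv α Φ t) := by
    intro t _
    exact sm_slice (hM.2.2.2.2.2.2.2.2.2.2.2.2.2.2.2.2.1 Φ (hM.1 0 m (Nat.zero_le _) hΦ)) _ _
  have hit : ∀ t k y, iteratedDeriv k (cv α Φ t) y = cv α (dY^[k] Φ) t y := by
    intro t k y
    exact (hT α ha ha1).2.1 Φ (Or.inl (hM.1 0 m (Nat.zero_le _) hΦ)) k _ _ y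
  have hmem := dY_iter_MT hM hΦ
  choose C n hCn using fun k => (hT α ha ha1).2.2.1 m (dY^[k] Φ) δ hδ (hmem k)
  have hCle : ∀ k ≤ K, C k ≤ ∑ j ∈ Finset.range (K + 1), |C j| := by
    intro k hk
    exact (le_abs_self _).trans (Finset.single_le_sum (f := fun j => |C j|)
      (fun j _ => abs_nonneg _) (Finset.mem_range.mpr (by omega)))
  have hC0 : 0 ≤ ∑ j ∈ Finset.range (K + 1), |C j| := Finset.sum_nonneg (fun j _ => abs_nonneg _)
  refine ⟨∑ j ∈ Finset.range (K + 1), n j, fun T hG => ?_⟩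
  constructor
  · refine fun n2 hn2 => ⟨hsm, fun t y h => h.1.1, _, hC0, fun t y h k hk => ?_⟩
    obtain ⟨a1, a2, a3, a4, a5, a6, a7⟩ := hG t h.1.1 h.1.2
    have h1 := (hCn k t y h.1.1 (by linarith)).2 h.2
    rw [hit]
    have hn : n k ≤ n2 := by
      refine le_trans ?_ hn2
      exact Finset.single_le_sum (f := n) (fun j _ => Nat.zero_le _)
        (Finset.mem_range.mpr (by omega))
    have hy : 1 ≤ 1 + |y| := by linarith [abs_nonneg y]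
    have p1 : 0 ≤ rho α t ^ ((m:ℝ) - δ) := Real.rpow_nonneg a3.le _
    calc |cv α (dY^[k] Φ) t y| ≤ C k * rho α t ^ ((m:ℝ) - δ) * (1 + |y|) ^ n k := h1
      _ ≤ (∑ j ∈ Finset.range (K + 1), |C j|) * rho α t ^ ((m:ℝ) - δ) * (1 + |y|) ^ n k := by
          apply mul_le_mul_of_nonneg_right _ (by positivity)
          exact mul_le_mul_of_nonneg_right (hCle k hk) p1
      _ ≤ (∑ j ∈ Finset.range (K + 1), |C j|) * rho α t ^ ((m:ℝ) - δ) * (1 + |y|) ^ n2 := by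
          apply mul_le_mul_of_nonneg_left _ (by positivity)
          exact pow_le_pow_right₀ hy hn
      _ = _ := by ring
  · refine ⟨hsm, fun t y h => h.1.1, _, hC0, fun t y h k hk => ?_⟩
    obtain ⟨a1, a2, a3, a4, a5, a6, a7⟩ := hG t h.1.1 h.1.2
    have h1 := (hCn k t y h.1.1 (by linarith)).1 h.2
    rw [hit]
    have p1 : 0 ≤ rho α t ^ ((m:ℝ) - δ) := Real.rpow_nonneg a3.le _
    calc |cv α (dY^[k] Φ) t y| ≤ C k * rho α t ^ ((m:ℝ) - δ) * Real.exp (-(y / 2)) := h1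
      _ ≤ (∑ j ∈ Finset.range (K + 1), |C j|) * rho α t ^ ((m:ℝ) - δ) * Real.exp (-(y / 2)) := by
          apply mul_le_mul_of_nonneg_right _ (Real.exp_pos _).le
          exact mul_le_mul_of_nonneg_right (hCle k hk) p1
      _ = _ := by ring

theorem BD_MP (hM : S_MCL1) (hT : S_TD) {α : ℝ} (ha : 0 < α) (ha1 : α < 1)
    (K m : ℕ) {Φ : F3} {δ : ℝ} (hδ : 0 < δ) (hΦ : Φ ∈ MP m) :
    ∃ n1 : ℕ, ∀ T, Good α T → ∀ n2, n1 ≤ n2 →
      BD (SL T) K (fun t y => rho α t ^ ((m:ℝ) - δ) * (1 + |y|) ^ n2) (cv α Φ) := by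
  have hsm : ∀ t, 0 < t → ContDiff ℝ (⊤ : ℕ∞) (cv α Φ t) := by
    intro t _
    exact sm_slice (hM.2.2.2.2.2.2.2.2.2.2.2.2.2.2.2.2.2 Φ (hM.2.1 0 m (Nat.zero_le _) hΦ)) _ _
  have hit : ∀ t k y, iteratedDeriv k (cv α Φ t) y = cv α (dY^[k] Φ) t y := by
    intro t k y
    exact (hT α ha ha1).2.1 Φ (Or.inr (hM.2.1 0 m (Nat.zero_le _) hΦ)) k _ _ y
  have hmem := dY_iter_MP hM hΦ
  choose C n hCn using fun k => (hT α ha ha1).2.2.2 m (dY^[k] Φ) δ hδ (hmem k)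
  have hCle : ∀ k ≤ K, C k ≤ ∑ j ∈ Finset.range (K + 1), |C j| := by
    intro k hk
    exact (le_abs_self _).trans (Finset.single_le_sum (f := fun j => |C j|)
      (fun j _ => abs_nonneg _) (Finset.mem_range.mpr (by omega)))
  have hC0 : 0 ≤ ∑ j ∈ Finset.range (K + 1), |C j| := Finset.sum_nonneg (fun j _ => abs_nonneg _)
  refine ⟨∑ j ∈ Finset.range (K + 1), n j, fun T hG n2 hn2 => ⟨hsm, fun t y h => h.1.1, _, hC0,
    fun t y h k hk => ?_⟩⟩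
  obtain ⟨a1, a2, a3, a4, a5, a6, a7⟩ := hG t h.1.1 h.1.2
  have h1 := hCn k t y h.1.1 (by linarith)
  rw [hit]
  have hn : n k ≤ n2 := by
    refine le_trans ?_ hn2
    exact Finset.single_le_sum (f := n) (fun j _ => Nat.zero_le _)
      (Finset.mem_range.mpr (by omega))
  have hy : 1 ≤ 1 + |y| := by linarith [abs_nonneg y]
  have p1 : 0 ≤ rho α t ^ ((m:ℝ) - δ) := Real.rpow_nonneg a3.le _
  calc |cv α (dY^[k] Φ) t y| ≤ C k * rho α t ^ ((m:ℝ) - δ) * (1 + |y|) ^ n k := h1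
    _ ≤ (∑ j ∈ Finset.range (K + 1), |C j|) * rho α t ^ ((m:ℝ) - δ) * (1 + |y|) ^ n k := by
        apply mul_le_mul_of_nonneg_right _ (by positivity)
        exact mul_le_mul_of_nonneg_right (hCle k hk) p1
    _ ≤ (∑ j ∈ Finset.range (K + 1), |C j|) * rho α t ^ ((m:ℝ) - δ) * (1 + |y|) ^ n2 := by
        apply mul_le_mul_of_nonneg_left _ (by positivity)
        exact pow_le_pow_right₀ hy hn
    _ = _ := by ring

/-! ### The function `G` -/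

/-- the two parts of `G` -/
noncomputable def GT (α : ℝ) (R P : ℝ → ℝ) (w : F3) : F3 := w - lif 1 (fun _ y => wOne α R P y)

noncomputable def GP (α : ℝ) (h0 h1 h2 h3 : ℝ → ℝ) (n J : ℕ) (p : ℕ → Polynomial ℝ) : F3 :=
  Fh α h0 h1 h2 h3 n (gZero p J) - lif 1 (fun _ _ => kOne α)

theorem Gg_eq (α : ℝ) (h0 h1 h2 h3 : ℝ → ℝ) (n J : ℕ) (p : ℕ → Polynomial ℝ)
    (R P : ℝ → ℝ) (w : F3) :
    Gg α h0 h1 h2 h3 n J p R P w = GT α R P w + GP α h0 h1 h2 h3 n J p := by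
  funext r l y
  show w r l y + Fh α h0 h1 h2 h3 n (gZero p J) r l y - r * (kOne α + wOne α R P y) =
    (w r l y - r ^ 1 * wOne α R P y) + (Fh α h0 h1 h2 h3 n (gZero p J) r l y - r ^ 1 * kOne α)
  ring

theorem LT_of_T {a : ℝ → ℝ} (ha : IsT a) :
    (fun (_ : ℝ) (y : ℝ) => a y) ∈ Pool.Agent.Helper41.KV.LT := by
  apply Submodule.subset_span
  refine ⟨0, a, ha, ?_⟩
  funext l y
  simp

theorem LP_pow (i : ℕ) : (fun (_ : ℝ) (y : ℝ) => y ^ i) ∈ LP := by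
  apply Submodule.subset_span
  refine ⟨0, i, ?_⟩
  funext l y
  simp

theorem LP_poly (q : Polynomial ℝ) : (fun (_ : ℝ) (y : ℝ) => q.eval y) ∈ LP := by
  have e : (fun (_ : ℝ) (y : ℝ) => q.eval y) =
      ∑ i ∈ Finset.range (q.natDegree + 1), (q.coeff i) • (fun (_ : ℝ) (y : ℝ) => y ^ i) := by
    funext l y
    rw [Polynomial.eval_eq_sum_range]
    simp [Finset.sum_apply]
  rw [e]
  exact Submodule.sum_mem _ (fun i _ => Submodule.smul_mem _ _ (LP_pow i))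

theorem GT_mem (hM : S_MCL1) {α : ℝ} {J n : ℕ} {R P h0 h1 h2 h3 : ℝ → ℝ} {p : ℕ → Polynomial ℝ}
    {c1 a0 : ℝ} {ω2 ω3 : ℝ → ℝ} {e3 : Polynomial ℝ} {w : F3}
    (hD : Dat α J n R P h0 h1 h2 h3 p c1 a0 ω2 ω3 e3 w) : GT α R P w ∈ MT 2 := by
  have e : GT α R P w = (w - lif 1 (fun _ y => wOne α R P y) - lif 2 (fun _ y => ω2 y)
      - lif 3 (fun _ y => ω3 y)) + lif 2 (fun _ y => ω2 y) + lif 3 (fun _ y => ω3 y) := by
    unfold GT; abel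
  rw [e]
  refine Submodule.add_mem _ (Submodule.add_mem _ ?_ ?_) ?_
  · exact hM.1 2 4 (by norm_num) hD.wexp
  · exact hM.2.2.2.2.2.2.2.2.2.2.2.2.2.1 2 _ (LT_of_T ⟨_, hD.tail2⟩)
  · exact hM.1 2 3 (by norm_num) (hM.2.2.2.2.2.2.2.2.2.2.2.2.2.1 3 _ (LT_of_T hD.t3))

theorem GP_mem (hM : S_MCL1) {α : ℝ} {J n : ℕ} {R P h0 h1 h2 h3 : ℝ → ℝ} {p : ℕ → Polynomial ℝ}
    {c1 a0 : ℝ} {ω2 ω3 : ℝ → ℝ} {e3 : Polynomial ℝ} {w : F3}
    (hD : Dat α J n R P h0 h1 h2 h3 p c1 a0 ω2 ω3 e3 w) : GP α h0 h1 h2 h3 n J p ∈ MP 2 := by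
  have e : GP α h0 h1 h2 h3 n J p = (Fh α h0 h1 h2 h3 n (gZero p J) - lif 1 (fun _ _ => kOne α)
      - lif 2 (fun _ y => kOne α * (α - 1/2) * y + c1) - lif 3 (fun _ y => e3.eval y))
      + lif 2 (fun _ y => kOne α * (α - 1/2) * y + c1) + lif 3 (fun _ y => e3.eval y) := by
    unfold GP; abel
  rw [e]
  have hl : (fun (_ : ℝ) (y : ℝ) => kOne α * (α - 1/2) * y + c1) ∈ LP := by
    have := LP_poly (Polynomial.C (kOne α * (α - 1/2)) * Polynomial.X + Polynomial.C c1)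
    simpa using this
  refine Submodule.add_mem _ (Submodule.add_mem _ ?_ ?_) ?_
  · exact hM.2.1 2 4 (by norm_num) hD.Fexp
  · exact hM.2.2.2.2.2.2.2.2.2.2.2.2.2.2.1 2 _ hl
  · exact hM.2.1 2 3 (by norm_num) (hM.2.2.2.2.2.2.2.2.2.2.2.2.2.2.1 3 _ (LP_poly e3))

theorem smT (hM : S_MCL1) {m : ℕ} {Φ : F3} (h : Φ ∈ MT m) :
    Pool.Agent.Helper93.KV.MCL1.Sm3 Φ :=
  hM.2.2.2.2.2.2.2.2.2.2.2.2.2.2.2.2.1 Φ (hM.1 0 m (Nat.zero_le _) h)

theorem smP (hM : S_MCL1) {m : ℕ} {Φ : F3} (h : Φ ∈ MP m) :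
    Pool.Agent.Helper93.KV.MCL1.Sm3 Φ :=
  hM.2.2.2.2.2.2.2.2.2.2.2.2.2.2.2.2.2 Φ (hM.2.1 0 m (Nat.zero_le _) h)

/-- bounds for `G` and `Dop G` on the left -/
theorem BD_G (hM : S_MCL1) (hT : S_TD) {α : ℝ} {J n : ℕ} {R P h0 h1 h2 h3 : ℝ → ℝ}
    {p : ℕ → Polynomial ℝ} {c1 a0 : ℝ} {ω2 ω3 : ℝ → ℝ} {e3 : Polynomial ℝ} {w : F3}
    (hD : Dat α J n R P h0 h1 h2 h3 p c1 a0 ω2 ω3 e3 w) (K : ℕ) :
    ∃ n1 : ℕ, ∀ T, Good α T →
      BD (SL T) K (fun t y => rho α t ^ ((31:ℝ)/16) * (1 + |y|) ^ n1)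
        (cv α (Gg α h0 h1 h2 h3 n J p R P w)) ∧
      BD (SL T) K (fun t y => rho α t ^ ((31:ℝ)/16) * (1 + |y|) ^ n1)
        (cv α (Dop α (Gg α h0 h1 h2 h3 n J p R P w))) := by
  have ha := hD.a_pos
  have ha1 := hD.a_lt
  have m1 := GT_mem hM hD
  have m2 := GP_mem hM hD
  obtain ⟨n1, b1⟩ := BD_MT hM hT ha ha1 K 2 (δ := 1 / 16) (by norm_num) m1
  obtain ⟨n2, b2⟩ := BD_MP hM hT ha ha1 K 2 (δ := 1 / 16) (by norm_num) m2
  obtain ⟨n3, b3⟩ := BD_MT hM hT ha ha1 K 2 (δ := 1 / 16) (by norm_num)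
    (hM.2.2.2.2.2.2.2.1 α 2 _ m1)
  obtain ⟨n4, b4⟩ := BD_MP hM hT ha ha1 K 2 (δ := 1 / 16) (by norm_num)
    (hM.2.2.2.2.2.2.2.2.1 α 2 _ m2)
  refine ⟨n1 + n2 + n3 + n4, fun T hG => ?_⟩
  have e : ((2:ℕ):ℝ) - 1 / 16 = 31 / 16 := by norm_num
  rw [e] at b1 b2 b3 b4
  have c1 := (b1 T hG).1 (n1 + n2 + n3 + n4) (by omega)
  have c2 := b2 T hG (n1 + n2 + n3 + n4) (by omega)
  have c3 := (b3 T hG).1 (n1 + n2 + n3 + n4) (by omega)
  have c4 := b4 T hG (n1 + n2 + n3 + n4) (by omega)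
  constructor
  · rw [Gg_eq]
    exact c1.add c2
  · rw [Gg_eq, Pool.Agent.Helper93.KV.MCL1.Dop_add α (smT hM m1) (smP hM m2)]
    exact c3.add c4

/-! ### The left family `D` -/

/-- `ρ^θ` -/
noncomputable def rt (α θ t : ℝ) : ℝ := rho α t ^ θ

theorem rt_facts {α T θ : ℝ} (hθ : 0 < θ) (hG : Good α T) {t : ℝ} (h1 : 0 < t) (h2 : t ≤ T) :
    0 < rt α θ t ∧ rt α θ t ≤ 1 := by
  obtain ⟨a1, a2, a3, a4, a5, a6, a7⟩ := hG t h1 h2
  exact ⟨Real.rpow_pos_of_pos a3 _, Real.rpow_le_one a3.le a7.le hθ.le⟩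

theorem absorb {α T θ : ℝ} (hθ : 0 < θ) (hG : Good α T) {n1 : ℕ}
    (hn : θ * ((n1:ℝ) + 2) ≤ 1 / 16) {t y : ℝ} (h : SL T t y) :
    i1 (rt α θ) t y * (rho α t ^ ((31:ℝ)/16) * (1 + |y|) ^ n1) ≤
      3 ^ (n1 + 2) * (i1 (rt α θ) t y * (rho α t ^ ((15:ℝ)/8) / (1 + |y|) ^ 2)) := by
  obtain ⟨a1, a2, a3, a4, a5, a6, a7⟩ := hG t h.1.1 h.1.2
  obtain ⟨b1, b2⟩ := rt_facts hθ hG h.1.1 h.1.2
  unfold i1
  split_ifs with hc
  · rw [one_mul, one_mul, mul_div_assoc', le_div_iff₀ (by positivity)]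
    have hyy : |y| = -y := abs_of_nonpos h.2
    have k1 : rt α θ t * (1 + |y|) ≤ 3 := by
      rw [hyy]; nlinarith
    have k2 : (rt α θ t * (1 + |y|)) ^ (n1 + 2) ≤ 3 ^ (n1 + 2) :=
      pow_le_pow_left₀ (by positivity) k1 _
    have k3 : rho α t ^ ((31:ℝ)/16) ≤ rho α t ^ ((15:ℝ)/8) * rt α θ t ^ (n1 + 2) := by
      unfold rt
      rw [← Real.rpow_natCast, ← Real.rpow_mul a3.le, ← Real.rpow_add a3]
      apply Real.rpow_le_rpow_of_exponent_ge a3 a7.le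
      push_cast
      linarith
    have p1 : 0 ≤ rho α t ^ ((15:ℝ)/8) := Real.rpow_nonneg a3.le _
    have p2 : 0 ≤ (1 + |y|) ^ (n1 + 2) := by positivity
    calc rho α t ^ ((31:ℝ)/16) * (1 + |y|) ^ n1 * (1 + |y|) ^ 2
        = rho α t ^ ((31:ℝ)/16) * (1 + |y|) ^ (n1 + 2) := by rw [pow_add]; ring
      _ ≤ (rho α t ^ ((15:ℝ)/8) * rt α θ t ^ (n1 + 2)) * (1 + |y|) ^ (n1 + 2) :=
          mul_le_mul_of_nonneg_right k3 p2
      _ = rho α t ^ ((15:ℝ)/8) * (rt α θ t * (1 + |y|)) ^ (n1 + 2) := by rw [mul_pow]; ring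
      _ ≤ rho α t ^ ((15:ℝ)/8) * 3 ^ (n1 + 2) := mul_le_mul_of_nonneg_left k2 p1
      _ = 3 ^ (n1 + 2) * rho α t ^ ((15:ℝ)/8) := by ring
  · rw [zero_mul, zero_mul, mul_zero]

noncomputable def FD (α θ : ℝ) (G : F3) (t y : ℝ) : ℝ := chL (rt α θ t * y) * cv α G t y

noncomputable def ED (α θ : ℝ) (G : F3) (t y : ℝ) : ℝ :=
  rho α t * (2 * α * θ * hh1 (rt α θ t * y) * cv α G t y
    + chL (rt α θ t * y) * cv α (Dop α G) t y)

theorem BD_FD {α T θ : ℝ} (hθ : 0 < θ) (hG : Good α T) {n1 : ℕ}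
    (hn : θ * ((n1:ℝ) + 2) ≤ 1 / 16) {G : F3} (K : ℕ)
    (h1 : BD (SL T) K (fun t y => rho α t ^ ((31:ℝ)/16) * (1 + |y|) ^ n1) (cv α G))
    (h2 : BD (SL T) K (fun t y => rho α t ^ ((31:ℝ)/16) * (1 + |y|) ^ n1) (cv α (Dop α G))) :
    BD (SL T) K (fun t y => i1 (rt α θ) t y * (rho α t ^ ((15:ℝ)/8) / (1 + |y|) ^ 2))
      (FD α θ G) ∧
    BD (SL T) K (fun t y => rho α t *
      (i1 (rt α θ) t y * (rho α t ^ ((15:ℝ)/8) / (1 + |y|) ^ 2))) (ED α θ G) := by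
  have hc : ∀ t, 0 < t → t ≤ T → |rt α θ t| ≤ 1 := by
    intro t h1 h2
    obtain ⟨b1, b2⟩ := rt_facts hθ hG h1 h2
    rw [abs_of_pos b1]; exact b2
  have hsub : ∀ t y, SL T t y → SA T t y := fun t y h => h.1
  have g1 := (BD_c (T := T) K chL_H (fun s hs => chL_zero hs) (rt α θ) hc).subset hsub
  have g2 := (BD_c (T := T) K (cmul_H (2 * α * θ) hh1_H)
    (fun s hs => by rw [hh1_zero_l hs, mul_zero]) (rt α θ) hc).subset hsub
  constructor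
  · exact (g1.mul h1).mono ⟨3 ^ (n1 + 2), by positivity, fun t y h => absorb hθ hG hn h⟩
  · have k1 := ((g2.mul h1).mono ⟨3 ^ (n1 + 2), by positivity, fun t y h => absorb hθ hG hn h⟩)
    have k2 := ((g1.mul h2).mono ⟨3 ^ (n1 + 2), by positivity, fun t y h => absorb hθ hG hn h⟩)
    refine ((k1.add k2).smul (rho α)).mono1 (fun t y h => ?_)
    obtain ⟨a1, a2, a3, a4, a5, a6, a7⟩ := hG t h.1.1 h.1.2
    rw [abs_of_pos a3]

/-! ### The right family -/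

/-- `chO(x) w` -/
noncomputable def Fw (α : ℝ) (w : F3) (t y : ℝ) : ℝ :=
  chO (sig α t + lam α t * y) * cv α w t y

/-- its time derivative -/
noncomputable def Ew (α : ℝ) (w : F3) (t y : ℝ) : ℝ :=
  lam α t * (1 + (2 * α + 1) * rho α t * y) * deriv chO (sig α t + lam α t * y) * cv α w t y
    + rho α t * (chO (sig α t + lam α t * y) * cv α (Dop α w) t y)

theorem BD_w (hM : S_MCL1) (hT : S_TD) {α T : ℝ} (ha : 0 < α) (ha1 : α < 1) (hG : Good α T)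
    (K : ℕ) {w : F3} (hw : w ∈ MT 1) :
    BD (SR T) K (fun t y => rho α t ^ ((7:ℝ)/8) * Real.exp (-(y / 2))) (Fw α w) ∧
    BD (SR T) K (fun t y => rho α t ^ ((7:ℝ)/4) * Real.exp (-(y / 2))) (Ew α w) := by
  have hyw : (fun r l y => y * w r l y) ∈ MT 1 := hM.2.2.2.2.2.2.2.2.2.2.2.1 1 w hw
  have hDw : Dop α w ∈ MT 1 := hM.2.2.2.2.2.2.2.1 α 1 w hw
  obtain ⟨n1, b1⟩ := BD_MT hM hT ha ha1 K 1 (δ := 1 / 8) (by norm_num) hw
  obtain ⟨n2, b2⟩ := BD_MT hM hT ha ha1 K 1 (δ := 1 / 8) (by norm_num) hyw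
  obtain ⟨n3, b3⟩ := BD_MT hM hT ha ha1 K 1 (δ := 1 / 8) (by norm_num) hDw
  have e : ((1:ℕ):ℝ) - 1 / 8 = 7 / 8 := by norm_num
  rw [e] at b1 b2 b3
  have c1 := (b1 T hG).2
  have c2 := (b2 T hG).2
  have c3 := (b3 T hG).2
  have hsub : ∀ t y, SR T t y → SA T t y := fun t y h => h.1
  have g1 := (BD_x' hG K chO_H).subset hsub
  have g2 := (BD_x' hG K (Pool.Agent.Helper93.KV.MCL1.IsH_deriv chO_H)).subset hsub
  refine ⟨(g1.mul c1).mono1 (fun t y h => by rw [one_mul]), ?_⟩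
  have k1 := (g2.mul c1).smul (lam α)
  have k2 := (g2.mul c2).smul (fun t => (2 * α + 1) * rho α t * lam α t)
  have k3 := (g1.mul c3).smul (rho α)
  have key : ∀ t y, SR T t y → rho α t * (rho α t ^ ((7:ℝ)/8) * Real.exp (-(y / 2))) ≤
      rho α t ^ ((7:ℝ)/4) * Real.exp (-(y / 2)) := by
    intro t y h
    obtain ⟨a1, a2, a3, a4, a5, a6, a7⟩ := hG t h.1.1 h.1.2
    rw [← mul_assoc]
    apply mul_le_mul_of_nonneg_right _ (Real.exp_pos _).le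
    have e : rho α t * rho α t ^ ((7:ℝ)/8) = rho α t ^ ((7:ℝ)/8 + 1) := by
      rw [Real.rpow_add_one a3.ne', mul_comm]
    rw [e]
    exact Real.rpow_le_rpow_of_exponent_ge a3 a7.le (by norm_num)
  have q1 : BD (SR T) K (fun t y => rho α t ^ ((7:ℝ)/4) * Real.exp (-(y / 2)))
      (fun t y => lam α t * (deriv chO (sig α t + lam α t * y) * cv α w t y)) := by
    refine k1.mono1 (fun t y h => ?_)
    obtain ⟨a1, a2, a3, a4, a5, a6, a7⟩ := hG t h.1.1 h.1.2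
    have hlr := hG.lr h.1.1 h.1.2
    rw [one_mul, abs_of_pos a2]
    have p : 0 ≤ rho α t ^ ((7:ℝ)/8) * Real.exp (-(y / 2)) := by positivity
    exact (mul_le_mul_of_nonneg_right hlr p).trans (key t y h)
  have q2 : BD (SR T) K (fun t y => rho α t ^ ((7:ℝ)/4) * Real.exp (-(y / 2)))
      (fun t y => (2 * α + 1) * rho α t * lam α t *
        (deriv chO (sig α t + lam α t * y) * cv α (fun r l y => y * w r l y) t y)) := by
    refine k2.mono ⟨3, by norm_num, fun t y h => ?_⟩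
    obtain ⟨a1, a2, a3, a4, a5, a6, a7⟩ := hG t h.1.1 h.1.2
    rw [one_mul, abs_of_pos (by positivity)]
    have p : 0 ≤ rho α t ^ ((7:ℝ)/8) * Real.exp (-(y / 2)) := by positivity
    have p3 : (2 * α + 1) * rho α t * lam α t ≤ 3 * rho α t := by
      have : rho α t * lam α t ≤ rho α t * 1 := mul_le_mul_of_nonneg_left a6.le a3.le
      have h0 : 0 ≤ rho α t * lam α t := by positivity
      nlinarith
    have := mul_le_mul_of_nonneg_right p3 p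
    have := key t y h
    linarith
  have q3 : BD (SR T) K (fun t y => rho α t ^ ((7:ℝ)/4) * Real.exp (-(y / 2)))
      (fun t y => rho α t * (chO (sig α t + lam α t * y) * cv α (Dop α w) t y)) := by
    refine k3.mono1 (fun t y h => ?_)
    obtain ⟨a1, a2, a3, a4, a5, a6, a7⟩ := hG t h.1.1 h.1.2
    rw [one_mul, abs_of_pos a3]
    exact key t y h
  have q := (q1.add q2).add q3
  have e2 : (fun t y => lam α t * (deriv chO (sig α t + lam α t * y) * cv α w t y) +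
      (2 * α + 1) * rho α t * lam α t *
        (deriv chO (sig α t + lam α t * y) * cv α (fun r l y => y * w r l y) t y) +
      rho α t * (chO (sig α t + lam α t * y) * cv α (Dop α w) t y)) = Ew α w := by
    funext t y
    unfold Ew cv
    ring
  rw [e2] at q
  exact q

end Pool.Agent.Helper77.KV
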