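import Pool.Agent.Helper77.KV.UBC

/-!
Packet KV-UB (MP_66be51_an, helper41), part D: time derivatives, combined families.
-/

namespace Pool.Agent.Helper77.KV

open Real MeasureTheory Pool.Agent.Helper41.KV Pool.Agent.Helper33.KV

/-! ### Time derivatives -/

theorem hd_x (hC : S_CURV) {α : ℝ} (ha : 0 < α) (ha1 : α < 1) {t : ℝ} (ht : 0 < t) (y : ℝ) :
    HasDerivAt (fun τ => chO (sig α τ + lam α τ * y))
      ((lam α t ^ 3)⁻¹ * (lam α t * (1 + (2 * α + 1) * rho α t * y) *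
        deriv chO (sig α t + lam α t * y))) t := by
  obtain ⟨a1, a2, a3, a4, a5, a6, hs, hl, hr, hlog⟩ := (hC α ha ha1).1 t ht
  have h0 : HasDerivAt (fun τ => sig α τ + lam α τ * y) (1 / lam α t ^ 2 +
      (2 * α + 1) * rho α t / lam α t ^ 2 * y) t := hs.add (hl.mul_const y)
  have h1 : HasDerivAt chO (deriv chO (sig α t + lam α t * y)) (sig α t + lam α t * y) :=
    ((chO_smooth.differentiable (by simp)) _).hasDerivAt
  have h2 := h1.comp t h0
  refine HasDerivAt.congr_deriv (f := fun τ => chO (sig α τ + lam α τ * y)) h2 ?_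
  field_simp

theorem hd_rt (hC : S_CURV) {α : ℝ} (ha : 0 < α) (ha1 : α < 1) (θ : ℝ) {t : ℝ} (ht : 0 < t)
    (y : ℝ) : HasDerivAt (fun τ => chL (rt α θ τ * y))
      ((lam α t ^ 3)⁻¹ * (2 * α * θ * rho α t * hh1 (rt α θ t * y))) t := by
  obtain ⟨a1, a2, a3, a4, a5, a6, hs, hl, hr, hlog⟩ := (hC α ha ha1).1 t ht
  have h0 : HasDerivAt (rt α θ) (2 * α * rho α t ^ 2 / lam α t ^ 3 * θ * rho α t ^ (θ - 1)) t :=
    hr.rpow_const (Or.inl a3.ne')
  have h1 : HasDerivAt chL (deriv chL (rt α θ t * y)) (rt α θ t * y) :=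
    ((chL_smooth.differentiable (by simp)) _).hasDerivAt
  have h2 := h1.comp t (h0.mul_const y)
  refine HasDerivAt.congr_deriv (f := fun τ => chL (rt α θ τ * y)) h2 ?_
  have e : rho α t ^ (θ - 1) * rho α t = rt α θ t := by
    unfold rt
    rw [← Real.rpow_add_one a3.ne']
    norm_num
  unfold hh1
  rw [← e]
  field_simp

theorem hd_cv (hT : S_TD) {α : ℝ} (ha : 0 < α) (ha1 : α < 1) {Φ : F3} (h : Φ ∈ MT 0 ∨ Φ ∈ MP 0)
    {t : ℝ} (ht : 0 < t) (y : ℝ) : HasDerivAt (fun τ => cv α Φ τ y)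
      ((lam α t ^ 3)⁻¹ * (rho α t * cv α (Dop α Φ) t y)) t := by
  have h1 := (hT α ha ha1).1 Φ h t y ht
  refine HasDerivAt.congr_deriv (f := fun τ => cv α Φ τ y) h1 ?_
  unfold cv
  ring

theorem hd_FQ (hC : S_CURV) {α : ℝ} (ha : 0 < α) (ha1 : α < 1) {t : ℝ} (ht : 0 < t) (y : ℝ) :
    HasDerivAt (fun τ => FQ α τ y) ((lam α t ^ 3)⁻¹ * EA α t y) t := by
  have h := (hd_x hC ha ha1 ht y).mul_const (Q y)
  refine HasDerivAt.congr_deriv (f := fun τ => FQ α τ y) h ?_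
  unfold EA
  ring

theorem hd_FB (hC : S_CURV) {α : ℝ} (ha : 0 < α) (ha1 : α < 1) (R P : ℝ → ℝ) {t : ℝ} (ht : 0 < t)
    (y : ℝ) : HasDerivAt (fun τ => FB α R P τ y) ((lam α t ^ 3)⁻¹ * EB α R P t y) t := by
  obtain ⟨a1, a2, a3, a4, a5, a6, hs, hl, hr, hlog⟩ := (hC α ha ha1).1 t ht
  have h := (hd_rt hC ha ha1 (1 / 2) ht y).mul (hr.mul_const (zet α R P y))
  refine HasDerivAt.congr_deriv (f := fun τ => FB α R P τ y) h ?_
  have e : rt α (1 / 2) t = rh α t := rfl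
  rw [e]
  unfold EB
  field_simp
  ring

theorem hd_FD (hC : S_CURV) {α : ℝ} (ha : 0 < α) (ha1 : α < 1) (θ : ℝ) {G : F3} {t : ℝ}
    (ht : 0 < t) (y : ℝ)
    (hG : HasDerivAt (fun τ => cv α G τ y) ((lam α t ^ 3)⁻¹ * (rho α t * cv α (Dop α G) t y)) t) :
    HasDerivAt (fun τ => FD α θ G τ y) ((lam α t ^ 3)⁻¹ * ED α θ G t y) t := by
  have h := (hd_rt hC ha ha1 θ ht y).mul hG
  refine HasDerivAt.congr_deriv (f := fun τ => FD α θ G τ y) h ?_
  unfold ED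
  ring

theorem hd_Fw (hC : S_CURV) (hT : S_TD) {α : ℝ} (ha : 0 < α) (ha1 : α < 1) {w : F3}
    (hw : w ∈ MT 0) {t : ℝ} (ht : 0 < t) (y : ℝ) :
    HasDerivAt (fun τ => Fw α w τ y) ((lam α t ^ 3)⁻¹ * Ew α w t y) t := by
  have h := (hd_x hC ha ha1 ht y).mul (hd_cv hT ha ha1 (Or.inl hw) ht y)
  refine HasDerivAt.congr_deriv (f := fun τ => Fw α w τ y) h ?_
  unfold Ew
  ring

/-- The combined function `G`. -/
theorem hd_G (hM : S_MCL1) (hT : S_TD) {α : ℝ} {J n : ℕ} {R P h0 h1 h2 h3 : ℝ → ℝ}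
    {p : ℕ → Polynomial ℝ} {c1 a0 : ℝ} {ω2 ω3 : ℝ → ℝ} {e3 : Polynomial ℝ} {w : F3}
    (hD : Dat α J n R P h0 h1 h2 h3 p c1 a0 ω2 ω3 e3 w) {t : ℝ} (ht : 0 < t) (y : ℝ) :
    HasDerivAt (fun τ => cv α (Gg α h0 h1 h2 h3 n J p R P w) τ y)
      ((lam α t ^ 3)⁻¹ * (rho α t * cv α (Dop α (Gg α h0 h1 h2 h3 n J p R P w)) t y)) t := by
  have ha := hD.a_pos
  have ha1 := hD.a_lt
  have m1 := GT_mem hM hD
  have m2 := GP_mem hM hD
  have k1 := hd_cv hT ha ha1 (Or.inl (hM.1 0 2 (Nat.zero_le _) m1)) ht y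
  have k2 := hd_cv hT ha ha1 (Or.inr (hM.2.1 0 2 (Nat.zero_le _) m2)) ht y
  rw [Gg_eq, Pool.Agent.Helper93.KV.MCL1.Dop_add α (smT hM m1) (smP hM m2)]
  refine HasDerivAt.congr_deriv (f := fun τ => cv α (GT α R P w + GP α h0 h1 h2 h3 n J p) τ y)
    (k1.add k2) ?_
  unfold cv
  simp only [Pi.add_apply]
  ring

/-! ### Combined families -/

theorem BD.der {S : ℝ → ℝ → Prop} {K : ℕ} {b f : ℝ → ℝ → ℝ} (h : BD S (K + 1) b f) :
    BD S K b (fun t => deriv (f t)) := by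
  obtain ⟨C, hC0, hC⟩ := h.bd
  refine ⟨fun t ht => deriv_smooth (h.sm t ht), h.pos, C, hC0, fun t y hS k hk => ?_⟩
  have := hC t y hS (k + 1) (by omega)
  rwa [iteratedDeriv_succ'] at this

/-- tail region -/
def ST (α T t y : ℝ) : Prop := SL T t y ∧ rh α t * y ≤ -2

section
variable {α T θ : ℝ} {R P : ℝ → ℝ} {G w : F3} {n1 : ℕ}

theorem rpow_le' {r a b : ℝ} (h0 : 0 < r) (h1 : r ≤ 1) (hab : b ≤ a) : r ^ a ≤ r ^ b :=
  Real.rpow_le_rpow_of_exponent_ge h0 h1 hab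

theorem exp_mono' {y a b : ℝ} (h : b ≤ a) : Real.exp (-(a * |y|)) ≤ Real.exp (-(b * |y|)) := by
  apply Real.exp_le_exp.mpr
  have := mul_le_mul_of_nonneg_right h (abs_nonneg y)
  linarith

/-- `F0 + FB + FD` on the left -/
noncomputable def UU (α θ : ℝ) (R P : ℝ → ℝ) (G : F3) (t y : ℝ) : ℝ :=
  F0 α t y + FB α R P t y + FD α θ G t y

noncomputable def UQ (α θ : ℝ) (R P : ℝ → ℝ) (G : F3) (t y : ℝ) : ℝ :=
  FQ α t y + FB α R P t y + FD α θ G t y

noncomputable def UE (α θ : ℝ) (R P : ℝ → ℝ) (G : F3) (t y : ℝ) : ℝ :=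
  EA α t y + EB α R P t y + ED α θ G t y

noncomputable def U1 (α θ : ℝ) (R P : ℝ → ℝ) (G : F3) (t y : ℝ) : ℝ :=
  deriv (F0 α t) y + dFB α R P t y + deriv (FD α θ G t) y

theorem comb (hQ : S_QF) (hE : S_ECL1) (ha : 0 < α) (ha1 : α < 1) (hθ : 0 < θ) (hG : Good α T)
    (hRP : IsRP R P) (hn : θ * ((n1:ℝ) + 2) ≤ 1 / 16)
    (h1 : BD (SL T) 5 (fun t y => rho α t ^ ((31:ℝ)/16) * (1 + |y|) ^ n1) (cv α G))
    (h2 : BD (SL T) 5 (fun t y => rho α t ^ ((31:ℝ)/16) * (1 + |y|) ^ n1) (cv α (Dop α G))) :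
    BD (SL T) 5 (fun t _ => rho α t) (UU α θ R P G) ∧
    BD (SL T) 4 (fun t y => rho α t * Real.exp (-(1 / 2 * |y|)) + rho α t ^ ((3:ℝ)/2))
      (U1 α θ R P G) ∧
    BD (SL T) 4 (fun t y => rho α t / (1 + |y|)) (U1 α θ R P G) ∧
    BD (SL T) 1 (fun t _ => rho α t ^ ((7:ℝ)/4)) (UE α θ R P G) ∧
    BD (ST α T) 5 (fun _ y => Real.exp (-(3 / 4 * |y|))) (UQ α θ R P G) ∧
    BD (ST α T) 1 (fun _ y => Real.exp (-(3 / 4 * |y|))) (UE α θ R P G) := by
  have hsub : ∀ t y, SL T t y → SA T t y := fun t y h => h.1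
  have hsub2 : ∀ t y, ST α T t y → SA T t y := fun t y h => h.1.1
  have hsub3 : ∀ t y, ST α T t y → SL T t y := fun t y h => h.1
  have f0 := BD_F0 (T := T) hQ hG 5
  have fq := BD_FQ (T := T) hQ hG 5
  have ea := BD_EA (T := T) ha ha1 hQ hE hG 1
  have fb := BD_FB (T := T) hE hRP hG 5
  obtain ⟨db1, db2⟩ := BD_dFB (T := T) hE hRP hG 4
  have eb := BD_EB (T := T) hE hRP hG 1
  obtain ⟨fd, ed⟩ := BD_FD hθ hG hn 5 h1 h2
  have he1 : ∀ y : ℝ, Real.exp (-(3 / 4 * |y|)) ≤ 1 := by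
    intro y
    apply Real.exp_le_one_iff.mpr
    have := abs_nonneg y
    linarith
  have hq1 : ∀ y : ℝ, ((1 + |y|) ^ 2)⁻¹ ≤ 1 := by
    intro y
    apply inv_le_one_of_one_le₀
    exact one_le_pow₀ (by linarith [abs_nonneg y])
  have hfd1 : ∀ t y, SL T t y → i1 (rt α θ) t y * (rho α t ^ ((15:ℝ)/8) / (1 + |y|) ^ 2) ≤
      rho α t ^ ((15:ℝ)/8) / (1 + |y|) ^ 2 := by
    intro t y h
    obtain ⟨a1, a2, a3, a4, a5, a6, a7⟩ := hG t h.1.1 h.1.2
    have p : 0 ≤ rho α t ^ ((15:ℝ)/8) / (1 + |y|) ^ 2 := by positivity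
    calc _ ≤ 1 * (rho α t ^ ((15:ℝ)/8) / (1 + |y|) ^ 2) :=
          mul_le_mul_of_nonneg_right (i1_le _ _ _) p
      _ = _ := one_mul _
  have hfd2 : ∀ t y, SL T t y → rho α t ^ ((15:ℝ)/8) / (1 + |y|) ^ 2 ≤ rho α t ^ ((15:ℝ)/8) := by
    intro t y h
    obtain ⟨a1, a2, a3, a4, a5, a6, a7⟩ := hG t h.1.1 h.1.2
    have p : 0 ≤ rho α t ^ ((15:ℝ)/8) := by positivity
    rw [div_eq_mul_inv]
    calc _ ≤ rho α t ^ ((15:ℝ)/8) * 1 := mul_le_mul_of_nonneg_left (hq1 y) p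
      _ = _ := mul_one _
  -- indicator vanishes in the tail
  have htail : ∀ t y, ST α T t y → i1 (rh α) t y = 0 ∧ (θ ≤ 1 / 2 → i1 (rt α θ) t y = 0) := by
    intro t y h
    obtain ⟨a1, a2, a3, a4, a5, a6, a7⟩ := hG t h.1.1.1 h.1.1.2
    refine ⟨by unfold i1; rw [if_neg (not_lt.mpr h.2)], fun hθ2 => ?_⟩
    have h5 : rt α θ t * y ≤ -2 := by
      have h6 : rh α t ≤ rt α θ t := rpow_le' a3 a7.le hθ2
      have h7 := mul_le_mul_of_nonpos_right h6 h.1.2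
      exact h7.trans h.2
    unfold i1
    rw [if_neg (not_lt.mpr h5)]
  have hθ2 : θ ≤ 1 / 2 := by
    have h3 : (2:ℝ) ≤ (n1:ℝ) + 2 := by
      have : (0:ℝ) ≤ n1 := Nat.cast_nonneg _
      linarith
    have h4 := mul_le_mul_of_nonneg_left h3 hθ.le
    linarith
  refine ⟨?_, ?_, ?_, ?_, ?_, ?_⟩
  · refine BD.add (BD.add ?_ ?_) ?_
    · refine (f0.subset hsub).mono1 (fun t y h => ?_)
      obtain ⟨a1, a2, a3, a4, a5, a6, a7⟩ := hG t h.1.1 h.1.2
      have := mul_le_mul_of_nonneg_left (he1 y) (sq_nonneg (rho α t))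
      nlinarith
    · refine (fb.subset hsub).mono1 (fun t y h => ?_)
      obtain ⟨a1, a2, a3, a4, a5, a6, a7⟩ := hG t h.1.1 h.1.2
      calc _ ≤ 1 * rho α t := mul_le_mul_of_nonneg_right (i1_le _ _ _) a3.le
        _ = _ := one_mul _
    · refine fd.mono1 (fun t y h => ?_)
      obtain ⟨a1, a2, a3, a4, a5, a6, a7⟩ := hG t h.1.1 h.1.2
      refine (hfd1 t y h).trans ((hfd2 t y h).trans ?_)
      calc rho α t ^ ((15:ℝ)/8) ≤ rho α t ^ (1:ℝ) := rpow_le' a3 a7.le (by norm_num)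
        _ = rho α t := Real.rpow_one _
  · refine BD.add (BD.add ?_ ?_) ?_
    · refine ((f0.subset hsub).der).mono1 (fun t y h => ?_)
      obtain ⟨a1, a2, a3, a4, a5, a6, a7⟩ := hG t h.1.1 h.1.2
      have h3 : rho α t ^ 2 * Real.exp (-(3 / 4 * |y|)) ≤
          rho α t * Real.exp (-(1 / 2 * |y|)) := by
        apply mul_le_mul _ (exp_mono' (by norm_num)) (Real.exp_pos _).le a3.le
        nlinarith
      have : 0 ≤ rho α t ^ ((3:ℝ)/2) := by positivity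
      linarith
    · refine db1.mono1 (fun t y h => ?_)
      obtain ⟨a1, a2, a3, a4, a5, a6, a7⟩ := hG t h.1.1 h.1.2
      have := mul_le_mul_of_nonneg_left (exp_mono' (y := y) (a := 3/4) (b := 1/2) (by norm_num))
        a3.le
      linarith
    · refine (fd.der).mono1 (fun t y h => ?_)
      obtain ⟨a1, a2, a3, a4, a5, a6, a7⟩ := hG t h.1.1 h.1.2
      refine (hfd1 t y h).trans ((hfd2 t y h).trans ?_)
      have h4 : rho α t ^ ((15:ℝ)/8) ≤ rho α t ^ ((3:ℝ)/2) := rpow_le' a3 a7.le (by norm_num)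
      have : 0 ≤ rho α t * Real.exp (-(1 / 2 * |y|)) := by positivity
      linarith
  · refine BD.add (BD.add ?_ ?_) ?_
    · refine ((f0.subset hsub).der).mono ⟨2, by norm_num, fun t y h => ?_⟩
      obtain ⟨a1, a2, a3, a4, a5, a6, a7⟩ := hG t h.1.1 h.1.2
      have hy : 0 < 1 + |y| := by positivity
      rw [mul_div_assoc', le_div_iff₀ hy]
      have k1 : Real.exp (-(3 / 4 * |y|)) * (1 + |y|) ≤ 2 := by
        have e1 : 1 + |y| ≤ 4 / 3 * Real.exp (3 / 4 * |y|) := by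
          have := Real.add_one_le_exp (3 / 4 * |y|)
          have := abs_nonneg y
          linarith
        calc Real.exp (-(3 / 4 * |y|)) * (1 + |y|)
            ≤ Real.exp (-(3 / 4 * |y|)) * (4 / 3 * Real.exp (3 / 4 * |y|)) :=
              mul_le_mul_of_nonneg_left e1 (Real.exp_pos _).le
          _ = 4 / 3 * (Real.exp (-(3 / 4 * |y|)) * Real.exp (3 / 4 * |y|)) := by ring
          _ = 4 / 3 := by rw [← Real.exp_add]; simp
          _ ≤ 2 := by norm_num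
      have k2 : rho α t ^ 2 ≤ rho α t := by nlinarith
      calc rho α t ^ 2 * Real.exp (-(3 / 4 * |y|)) * (1 + |y|)
          = rho α t ^ 2 * (Real.exp (-(3 / 4 * |y|)) * (1 + |y|)) := by ring
        _ ≤ rho α t * 2 := mul_le_mul k2 k1 (by positivity) a3.le
        _ = 2 * rho α t := by ring
    · exact db2
    · refine (fd.der).mono1 (fun t y h => ?_)
      obtain ⟨a1, a2, a3, a4, a5, a6, a7⟩ := hG t h.1.1 h.1.2
      refine (hfd1 t y h).trans ?_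
      have hy : 0 < 1 + |y| := by positivity
      have hy1 : 1 ≤ 1 + |y| := by linarith [abs_nonneg y]
      have h4 : rho α t ^ ((15:ℝ)/8) ≤ rho α t := by
        calc rho α t ^ ((15:ℝ)/8) ≤ rho α t ^ (1:ℝ) := rpow_le' a3 a7.le (by norm_num)
          _ = rho α t := Real.rpow_one _
      apply div_le_div₀ a3.le h4 hy
      nlinarith
  · refine BD.add (BD.add ?_ ?_) ?_
    · refine (ea.subset hsub).mono1 (fun t y h => ?_)
      obtain ⟨a1, a2, a3, a4, a5, a6, a7⟩ := hG t h.1.1 h.1.2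
      have h3 : rho α t ^ 2 * Real.exp (-(3 / 4 * |y|)) ≤ rho α t ^ 2 * 1 :=
        mul_le_mul_of_nonneg_left (he1 y) (sq_nonneg (rho α t))
      have h4 : rho α t ^ 2 ≤ rho α t ^ ((7:ℝ)/4) := by
        rw [← Real.rpow_natCast]
        exact rpow_le' a3 a7.le (by norm_num)
      linarith
    · refine (eb.subset hsub).mono1 (fun t y h => ?_)
      obtain ⟨a1, a2, a3, a4, a5, a6, a7⟩ := hG t h.1.1 h.1.2
      have h3 : i1 (rh α) t y * rho α t ^ 2 ≤ 1 * rho α t ^ 2 :=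
        mul_le_mul_of_nonneg_right (i1_le _ _ _) (sq_nonneg _)
      have h4 : rho α t ^ 2 ≤ rho α t ^ ((7:ℝ)/4) := by
        rw [← Real.rpow_natCast]
        exact rpow_le' a3 a7.le (by norm_num)
      linarith
    · refine (ed.le (by norm_num)).mono1 (fun t y h => ?_)
      obtain ⟨a1, a2, a3, a4, a5, a6, a7⟩ := hG t h.1.1 h.1.2
      have h3 := (hfd1 t y h).trans (hfd2 t y h)
      have p : 0 ≤ rho α t ^ ((15:ℝ)/8) := by positivity
      have h4 : rho α t ^ ((15:ℝ)/8) ≤ rho α t ^ ((7:ℝ)/4) := rpow_le' a3 a7.le (by norm_num)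
      have h5 := mul_le_mul_of_nonneg_left h3 a3.le
      nlinarith
  · refine BD.add (BD.add (fq.subset hsub2) ?_) ?_
    · refine (fb.subset hsub2).mono1 (fun t y h => ?_)
      rw [(htail t y h).1, zero_mul]
      exact (Real.exp_pos _).le
    · refine (fd.subset hsub3).mono1 (fun t y h => ?_)
      rw [(htail t y h).2 hθ2, zero_mul]
      exact (Real.exp_pos _).le
  · refine BD.add (BD.add ?_ ?_) ?_
    · refine (ea.subset hsub2).mono1 (fun t y h => ?_)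
      obtain ⟨a1, a2, a3, a4, a5, a6, a7⟩ := hG t h.1.1.1 h.1.1.2
      have h3 : rho α t ^ 2 ≤ 1 := pow_le_one₀ a3.le a7.le
      have := mul_le_mul_of_nonneg_right h3 (Real.exp_pos (-(3 / 4 * |y|))).le
      linarith
    · refine (eb.subset hsub2).mono1 (fun t y h => ?_)
      rw [(htail t y h).1, zero_mul]
      exact (Real.exp_pos _).le
    · refine ((ed.le (by norm_num)).subset hsub3).mono1 (fun t y h => ?_)
      rw [(htail t y h).2 hθ2, zero_mul, mul_zero]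
      exact (Real.exp_pos _).le

theorem combR (hQ : S_QF) (hE : S_ECL1) (hM : S_MCL1) (hT : S_TD) (ha : 0 < α) (ha1 : α < 1)
    (hG : Good α T) (hw : w ∈ MT 1) :
    BD (SR T) 5 (fun t y => rho α t ^ ((7:ℝ)/8) * Real.exp (-(y / 2)))
      (fun t y => F0 α t y + Fw α w t y) ∧
    BD (SR T) 1 (fun t y => rho α t ^ ((7:ℝ)/4) * Real.exp (-(y / 2)))
      (fun t y => EA α t y + Ew α w t y) := by
  have hsub : ∀ t y, SR T t y → SA T t y := fun t y h => h.1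
  have f0 := BD_F0 (T := T) hQ hG 5
  have ea := BD_EA (T := T) ha ha1 hQ hE hG 1
  have hw5 := (BD_w hM hT ha ha1 hG 5 hw).1
  have hw1 := (BD_w hM hT ha ha1 hG 1 hw).2
  have he : ∀ y : ℝ, 0 ≤ y → Real.exp (-(3 / 4 * |y|)) ≤ Real.exp (-(y / 2)) := by
    intro y hy
    apply Real.exp_le_exp.mpr
    rw [abs_of_nonneg hy]
    linarith
  constructor
  · refine BD.add ((f0.subset hsub).mono1 (fun t y h => ?_)) hw5
    obtain ⟨a1, a2, a3, a4, a5, a6, a7⟩ := hG t h.1.1 h.1.2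
    have h4 : rho α t ^ 2 ≤ rho α t ^ ((7:ℝ)/8) := by
      rw [← Real.rpow_natCast]
      exact rpow_le' a3 a7.le (by norm_num)
    exact mul_le_mul h4 (he y h.2) (Real.exp_pos _).le (by positivity)
  · refine BD.add ((ea.subset hsub).mono1 (fun t y h => ?_)) hw1
    obtain ⟨a1, a2, a3, a4, a5, a6, a7⟩ := hG t h.1.1 h.1.2
    have h4 : rho α t ^ 2 ≤ rho α t ^ ((7:ℝ)/4) := by
      rw [← Real.rpow_natCast]
      exact rpow_le' a3 a7.le (by norm_num)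
    exact mul_le_mul h4 (he y h.2) (Real.exp_pos _).le (by positivity)

end

end Pool.Agent.Helper77.KV
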